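import Pool.Agent.H447Z.FsNorm

set_option autoImplicit false

namespace H447Z.Fs

open Filter Topology Real
open scoped ContDiff

noncomputable def R (t : ℝ) (p : ℂ × ℝ) : ℂ × ℝ :=
  (Complex.exp (((-t : ℝ) : ℂ) * Complex.I) * p.1, p.2)

noncomputable def Fp (x v : ℂ × ℝ) : ℝ := Nn (R x.2 v)

noncomputable def bb : ℂ × ℝ := (((2 * π : ℝ) : ℂ), 2 * π)

lemma R_abs (t : ℝ) (p : ℂ × ℝ) :
    (R t p).1.re ^ 2 + (R t p).1.im ^ 2 = p.1.re ^ 2 + p.1.im ^ 2 := by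
  simp only [R, Complex.mul_re, Complex.mul_im, Complex.exp_ofReal_mul_I_re,
    Complex.exp_ofReal_mul_I_im]
  have := Real.cos_sq_add_sin_sq (-t)
  linear_combination (p.1.re ^ 2 + p.1.im ^ 2) * this

lemma Q_R (t : ℝ) (p : ℂ × ℝ) : Q (R t p) = Q p := by unfold Q; rw [R_abs]; rfl
lemma P_R (t : ℝ) (p : ℂ × ℝ) : P (R t p) = P p := by unfold P; rw [R_abs]; rfl

lemma R_add_smul (t : ℝ) (v w : ℂ × ℝ) (τ : ℝ) : R t (v + τ • w) = R t v + τ • R t w := by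
  unfold R
  refine Prod.ext ?_ rfl
  simp only [Prod.fst_add, Prod.smul_fst, Complex.real_smul]
  ring

lemma R_smul (t : ℝ) (w : ℂ × ℝ) (τ : ℝ) : R t (τ • w) = τ • R t w := by
  unfold R
  refine Prod.ext ?_ rfl
  simp only [Prod.smul_fst, Complex.real_smul]
  ring

lemma R_zero (v : ℂ × ℝ) : R 0 v = v := by simp [R]

lemma R_ne {t : ℝ} {v : ℂ × ℝ} (h : v ≠ 0) : R t v ≠ 0 := by
  intro hc
  have := Q_R t v
  rw [hc] at this
  have h2 := Q_pos h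
  simp [Q] at this h2
  linarith

noncomputable def ipL (d : ℂ × ℝ) : (ℂ × ℝ) →L[ℝ] ℝ :=
  d.1.re • (Complex.reCLM.comp (ContinuousLinearMap.fst ℝ ℂ ℝ)) +
    d.1.im • (Complex.imCLM.comp (ContinuousLinearMap.fst ℝ ℂ ℝ)) +
    d.2 • ContinuousLinearMap.snd ℝ ℂ ℝ

lemma ipL_apply (d v : ℂ × ℝ) : ipL d v = d.1.re * v.1.re + d.1.im * v.1.im + d.2 * v.2 := by
  simp [ipL]

lemma ipL_self (d : ℂ × ℝ) : ipL d d = Q d := by rw [ipL_apply, Q]; ring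

lemma ipL_sq (d v : ℂ × ℝ) : ipL d v ^ 2 ≤ Q d * Q v := by
  rw [ipL_apply, Q, Q]
  nlinarith [sq_nonneg (d.1.re * v.1.im - d.1.im * v.1.re), sq_nonneg (d.1.re * v.2 - d.2 * v.1.re),
    sq_nonneg (d.1.im * v.2 - d.2 * v.1.im)]

lemma ipL_le (d x v : ℂ × ℝ) : ipL d v ≤ √(Q d) * Fp x v := by
  unfold Fp Nn
  rw [← Real.sqrt_mul (Q_nonneg d)]
  refine Real.le_sqrt_of_sq_le ((ipL_sq d v).trans ?_)
  refine mul_le_mul_of_nonneg_left ?_ (Q_nonneg d)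
  rw [← Q_R x.2 v]; exact Q_le_N2 _

lemma Fp_cone (x d : ℂ × ℝ) (h : P d = 0) : Fp x d = √(Q d) := by
  unfold Fp Nn
  rw [N2_cone (by rw [P_R, h]), Q_R]

lemma P_bb : P bb = 0 := by simp [P, bb]

lemma second_order (c : ℝ) (hc : 0 < c) (v W : ℂ × ℝ) (hv1 : v.1.re = 0) (hvP : P v = 0)
    (hvQ : Q v = 2 * c ^ 2) (hW : N2 W = 2 * c ^ 2)
    (h : ∀ τ : ℝ, N2 (v + τ • W) = N2 (((c : ℂ), c) + τ • ((c : ℂ), -c))) : False := by
  have hr : ∀ τ : ℝ, N2 (((c : ℂ), c) + τ • ((c : ℂ), -c)) =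
      2 * c ^ 2 * (1 + τ ^ 2) + (2 * c * τ * (1 + τ) / (1 + τ ^ 2)) ^ 2 / 100 := by
    intro τ
    have e1 : Q (((c : ℂ), c) + τ • ((c : ℂ), -c)) = 2 * c ^ 2 * (1 + τ ^ 2) := by
      simp [Q]; ring
    have e2 : P (((c : ℂ), c) + τ • ((c : ℂ), -c)) = 4 * c ^ 2 * τ := by
      simp [P]; ring
    have e3 : (((c : ℂ), c) + τ • ((c : ℂ), -c) : ℂ × ℝ).1.re = c * (1 + τ) := by
      simp; ring
    unfold N2 rr
    rw [e1, e2, e3]
    congr 3
    field_simp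
    ring
  set k : ℝ → ℝ := fun τ => (P (v + τ • W) * W.1.re / Q (v + τ • W)) ^ 2 with hk
  have hl : ∀ τ : ℝ, N2 (v + τ • W) = Q (v + τ • W) + τ ^ 2 * k τ / 100 := by
    intro τ
    have : (v + τ • W).1.re = τ * W.1.re := by simp [hv1]
    unfold N2 rr
    rw [this, hk]
    ring
  have hQ : ∀ τ : ℝ, Q (v + τ • W) + Q (v + (-τ) • W) = 2 * Q v + 2 * τ ^ 2 * Q W := by
    intro τ; simp [Q]; ring
  have hWQ : Q W ≤ 2 * c ^ 2 := hW ▸ Q_le_N2 W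
  have key : ∀ τ : ℝ, τ ≠ 0 → 0 ≤ k τ + k (-τ) - 8 * c ^ 2 / (1 + τ ^ 2) := by
    intro τ hτ
    have a1 := h τ
    have a2 := h (-τ)
    rw [hr, hl] at a1 a2
    have a3 := hQ τ
    have a4 : (2 * c * τ * (1 + τ) / (1 + τ ^ 2)) ^ 2 +
        (2 * c * (-τ) * (1 + -τ) / (1 + (-τ) ^ 2)) ^ 2 = τ ^ 2 * (8 * c ^ 2 / (1 + τ ^ 2)) := by
      rw [neg_sq]; field_simp; ring
    have a5 : 0 < τ ^ 2 := by positivity
    have a6 := mul_le_mul_of_nonneg_left hWQ a5.le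
    rw [neg_sq] at a2 a4
    have a7 : 0 ≤ τ ^ 2 * (k τ + k (-τ) - 8 * c ^ 2 / (1 + τ ^ 2)) := by nlinarith
    exact (mul_nonneg_iff_of_pos_left a5).1 a7
  have ck : ContinuousAt k 0 := by
    have c1 : Continuous fun τ : ℝ => v + τ • W := by fun_prop
    refine ContinuousAt.pow (ContinuousAt.div ?_ ?_ ?_) 2
    · exact ((contDiff_P.continuous.comp c1).mul continuous_const).continuousAt
    · exact (contDiff_Q.continuous.comp c1).continuousAt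
    · simp only [zero_smul, add_zero, hvQ]; positivity
  have k0 : k 0 = 0 := by simp [hk, hvP]
  have cu : ContinuousAt (fun τ : ℝ => k τ + k (-τ) - 8 * c ^ 2 / (1 + τ ^ 2)) 0 := by
    refine (ck.add ?_).sub ?_
    · exact ContinuousAt.comp_of_eq (f := fun τ : ℝ => -τ) ck continuous_neg.continuousAt neg_zero
    · exact ContinuousAt.div continuousAt_const (by fun_prop) (by norm_num)
  have lim := ge_of_tendsto (cu.tendsto.mono_left (nhdsWithin_le_nhds (s := {0}ᶜ)))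
    (eventually_nhdsWithin_of_forall key)
  simp [k0] at lim
  nlinarith

theorem core (g : ℂ × ℝ → ℂ × ℝ) (hg : Differentiable ℝ g) (hinj : Function.Injective g)
    (hF : ∀ x v, Fp (g x) (fderiv ℝ g x v) = Fp x v) (h0 : (g 0).2 = π / 2)
    (m : ℤ) (hm : g ((1 / 2 : ℝ) • bb) = g ((-1 / 2 : ℝ) • bb) + (m : ℝ) • bb) : False := by
  have hQb : Q bb = 2 * (2 * π) ^ 2 := by simp [Q, bb]; ring
  have hQ0 : 0 < Q bb := by rw [hQb]; positivity
  have hm0 : m ≠ 0 := by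
    rintro rfl
    simp only [Int.cast_zero, zero_smul, add_zero] at hm
    have := congrArg Prod.snd (hinj hm)
    simp only [bb, Prod.smul_snd, smul_eq_mul] at this
    linarith [Real.pi_pos]
  have dh : ∀ τ : ℝ, HasDerivAt (fun τ : ℝ => g (τ • bb)) (fderiv ℝ g (τ • bb) bb) τ := by
    intro τ
    have : HasDerivAt (fun τ : ℝ => τ • bb) bb τ := by
      simpa using (hasDerivAt_id τ).smul_const bb
    exact (hg _).hasFDerivAt.comp_hasDerivAt τ this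
  set d : ℂ × ℝ := (m : ℝ) • bb with hd
  have hQd : Q d = (m : ℝ) ^ 2 * Q bb := by simp [hd, Q]; ring
  have hsd : √(Q d) * √(Q bb) = |(m : ℝ)| * Q bb := by
    rw [hQd, Real.sqrt_mul (sq_nonneg _), Real.sqrt_sq_eq_abs, mul_assoc,
      Real.mul_self_sqrt hQ0.le]
  set ψ : ℝ → ℝ := fun τ => |(m : ℝ)| * Q bb * τ - ipL d (g (τ • bb)) with hψ
  have dψ : ∀ τ, HasDerivAt ψ (|(m : ℝ)| * Q bb - ipL d (fderiv ℝ g (τ • bb) bb)) τ := by
    intro τ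
    have a1 : HasDerivAt (fun τ : ℝ => |(m : ℝ)| * Q bb * τ) (|(m : ℝ)| * Q bb) τ := by
      simpa using (hasDerivAt_id τ).const_mul (|(m : ℝ)| * Q bb)
    exact a1.sub ((ipL d).hasFDerivAt.comp_hasDerivAt τ (dh τ))
  have dpos : ∀ τ : ℝ, 0 ≤ |(m : ℝ)| * Q bb - ipL d (fderiv ℝ g (τ • bb) bb) := by
    intro τ
    have := ipL_le d (g (τ • bb)) (fderiv ℝ g (τ • bb) bb)
    rw [hF, Fp_cone _ _ P_bb, hsd] at this
    linarith
  have mono : Monotone ψ :=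
    monotone_of_deriv_nonneg (fun τ => (dψ τ).differentiableAt)
      (fun τ => by rw [(dψ τ).deriv]; exact dpos τ)
  have hends : ψ (1 / 2) - ψ (-1 / 2) = (|(m : ℝ)| - (m : ℝ) ^ 2) * Q bb := by
    simp only [hψ, hm, map_add, ipL_self, hQd]; ring
  have hm1 : (1 : ℝ) ≤ |(m : ℝ)| := by exact_mod_cast Int.one_le_abs hm0
  have hm2 : (m : ℝ) ^ 2 = |(m : ℝ)| ^ 2 := (sq_abs _).symm
  have hle : ψ (-1 / 2) ≤ ψ (1 / 2) := mono (by norm_num)
  have hm3 : |(m : ℝ)| = 1 := by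
    have : 0 ≤ |(m : ℝ)| - (m : ℝ) ^ 2 := by
      by_contra hc
      nlinarith
    nlinarith
  have hm4 : (m : ℝ) ^ 2 = 1 := by rw [hm2, hm3]; norm_num
  have heq : ψ (1 / 2) = ψ (-1 / 2) := by rw [hm3, hm4] at hends; linarith
  have hc : ψ =ᶠ[𝓝 0] fun _ => ψ (-1 / 2) := by
    filter_upwards [Ioo_mem_nhds (show (-1 / 2 : ℝ) < 0 by norm_num)
      (show (0 : ℝ) < 1 / 2 by norm_num)] with τ hτ
    exact le_antisymm (heq ▸ mono hτ.2.le) (mono hτ.1.le)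
  have hz : |(m : ℝ)| * Q bb - ipL d (fderiv ℝ g ((0 : ℝ) • bb) bb) = 0 := by
    rw [← (dψ 0).deriv, hc.deriv_eq]; simp
  rw [zero_smul, hm3, one_mul] at hz
  set A := fderiv ℝ g 0 with hA
  have hN : ∀ w, N2 (R (π / 2) (A w)) = N2 w := by
    intro w
    have := hF 0 w
    unfold Fp at this
    rw [h0, Prod.snd_zero, R_zero] at this
    rw [← Nn_sq, ← Nn_sq, this]
  have hAb : A bb = d := by
    have a1 : Q (A bb) ≤ Q bb := by
      rw [← Q_R (π / 2), ← N2_cone P_bb, ← hN bb]; exact Q_le_N2 _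
    have a2 : Q (A bb - d) = Q (A bb) - 2 * ipL d (A bb) + Q d := by
      rw [ipL_apply]; simp [Q]; ring
    rw [hQd, hm4] at a2
    exact sub_eq_zero.1 (Q_eq_zero (by linarith))
  refine second_order (2 * π) (by positivity) (R (π / 2) d)
    (R (π / 2) (A (((2 * π : ℝ) : ℂ), -(2 * π)))) ?_ ?_ ?_ ?_ ?_
  · simp only [R, hd, bb, Complex.mul_re, Complex.exp_ofReal_mul_I_re,
      Complex.exp_ofReal_mul_I_im]
    simp
  · rw [P_R]; simp [hd, P, bb]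
  · rw [Q_R, hQd, hm4, hQb]; ring
  · rw [hN, N2_cone (by simp [P])]; simp [Q]; ring
  · intro τ
    rw [← R_add_smul, ← hAb, ← map_smul, ← map_add, hN]; rfl

end H447Z.Fs
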