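import Mathlib

set_option autoImplicit false

namespace H447Z.Fs

open scoped Manifold ContDiff ENNReal

variable {E : Type} [NormedAddCommGroup E] [NormedSpace ℝ E]
  {M : Type} [TopologicalSpace M] [ChartedSpace E M] [IsManifold 𝓘(ℝ, E) ∞ M]

/-- `F` is a Finsler function on `M`: continuous, nonnegative, smooth off the zero section,
positively homogeneous, and the fibrewise Hessian of `F ^ 2` is positive definite off the zero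
section. -/
def IsFinsler (F : TangentBundle 𝓘(ℝ, E) M → ℝ) : Prop :=
  Continuous F ∧ (∀ p, 0 ≤ F p) ∧
  ContMDiffOn (𝓘(ℝ, E)).tangent 𝓘(ℝ, ℝ) ∞ F {p | p.2 ≠ 0} ∧
  (∀ (x : M) (v : TangentSpace 𝓘(ℝ, E) x) (l : ℝ), 0 < l → F ⟨x, l • v⟩ = l * F ⟨x, v⟩) ∧
  ∀ (x : M) (v w : TangentSpace 𝓘(ℝ, E) x), v ≠ 0 → w ≠ 0 →
    0 < deriv (deriv fun τ : ℝ => F ⟨x, v + τ • w⟩ ^ 2) 0

/-- The `F`-length of the curve `c` on `[0, 1]`. -/
noncomputable def curveLength (F : TangentBundle 𝓘(ℝ, E) M → ℝ) (c : ℝ → M) : ℝ≥0∞ :=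
  ∫⁻ t in Set.Icc (0 : ℝ) 1,
    ENNReal.ofReal (F ⟨c t, mfderivWithin 𝓘(ℝ, ℝ) 𝓘(ℝ, E) c (Set.Icc 0 1) t (1 : ℝ)⟩)

/-- The distance of `F`: the infimum of the lengths of piecewise smooth curves from `x` to `y`,
given as chains of smooth pieces `c 0, …, c k`, each parametrised by `[0, 1]`. -/
noncomputable def fdist (F : TangentBundle 𝓘(ℝ, E) M → ℝ) (x y : M) : ℝ≥0∞ :=
  ⨅ (k : ℕ) (c : ℕ → ℝ → M)
    (_ : (∀ i ≤ k, ContMDiffOn 𝓘(ℝ, ℝ) 𝓘(ℝ, E) ∞ (c i) (Set.Icc 0 1)) ∧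
      c 0 0 = x ∧ c k 1 = y ∧ ∀ i < k, c i 1 = c (i + 1) 0),
    ∑ i ∈ Finset.range (k + 1), curveLength F (c i)

/-- `f` is an isometry of `(M, F)`: a smooth diffeomorphism whose tangent map preserves `F`. -/
def IsIsometry (F : TangentBundle 𝓘(ℝ, E) M → ℝ) (f : M → M) : Prop :=
  ∃ φ : Diffeomorph 𝓘(ℝ, E) 𝓘(ℝ, E) M M ∞, (φ : M → M) = f ∧
    ∀ p, F (tangentMap 𝓘(ℝ, E) 𝓘(ℝ, E) φ p) = F p

/-- The isometries of `(M, F)` act transitively. -/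
def IsHomogeneous (F : TangentBundle 𝓘(ℝ, E) M → ℝ) : Prop :=
  ∀ x y : M, ∃ f, IsIsometry F f ∧ f x = y

end H447Z.Fs
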