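import Pool.Agent.H447Z.FsCore
import Pool.Agent.H447Z.FsDefs

set_option autoImplicit false

namespace H447Z.Fs

open Filter Topology Real MeasureTheory
open scoped ContDiff Manifold ENNReal

noncomputable def FM (p : TangentBundle 𝓘(ℝ, ℂ × ℝ) (ℂ × ℝ)) : ℝ := Fp p.1 p.2

lemma contDiff_R : ContDiff ℝ ∞ fun q : (ℂ × ℝ) × (ℂ × ℝ) => R q.1.2 q.2 := by
  unfold R
  refine ContDiff.prodMk (ContDiff.mul ?_ (by fun_prop)) (by fun_prop)
  refine (Complex.contDiff_exp (𝕜 := ℝ)).comp (ContDiff.mul ?_ contDiff_const)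
  exact Complex.ofRealCLM.contDiff.comp (contDiff_snd.comp contDiff_fst).neg

lemma smooth_pair : ContMDiff (𝓘(ℝ, ℂ × ℝ)).tangent 𝓘(ℝ, ℂ × ℝ) ∞
    fun p : TangentBundle 𝓘(ℝ, ℂ × ℝ) (ℂ × ℝ) => R p.1.2 p.2 := by
  have h1 : ContMDiff (𝓘(ℝ, ℂ × ℝ)).tangent 𝓘(ℝ, ℂ × ℝ) ∞
      fun p : TangentBundle 𝓘(ℝ, ℂ × ℝ) (ℂ × ℝ) => p.1 :=
    Bundle.contMDiff_proj (TangentSpace 𝓘(ℝ, ℂ × ℝ))
  have h2 := contMDiff_snd_tangentBundle_modelSpace (n := ∞) (ℂ × ℝ) 𝓘(ℝ, ℂ × ℝ)
  exact contDiff_R.contMDiff.comp (h1.prodMk_space h2)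

theorem finsler_FM : IsFinsler FM := by
  refine ⟨continuous_Nn.comp smooth_pair.continuous, fun p => Real.sqrt_nonneg _, ?_, ?_, ?_⟩
  · intro p hp
    exact ((contDiffAt_Nn (R_ne hp)).contMDiffAt.comp p (smooth_pair p)).contMDiffWithinAt
  · intro x v l hl
    exact (congrArg Nn (R_smul x.2 v l)).trans (Nn_smul l hl _)
  · intro x v w hv hw
    have := convex_N2 (R x.2 v) (R x.2 w) (R_ne hv) (R_ne hw)
    convert this using 4 with τ
    rw [← R_add_smul, ← Nn_sq]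
    rfl

noncomputable def rot (t : ℝ) : (ℂ × ℝ) →L[ℝ] (ℂ × ℝ) :=
  ((ContinuousLinearMap.mul ℝ ℂ (Complex.exp (((-t : ℝ) : ℂ) * Complex.I))).comp
    (ContinuousLinearMap.fst ℝ ℂ ℝ)).prod (ContinuousLinearMap.snd ℝ ℂ ℝ)

lemma rot_apply (t : ℝ) (v : ℂ × ℝ) : rot t v = R t v := rfl

lemma R_R (s t : ℝ) (v : ℂ × ℝ) : R s (R t v) = R (s + t) v := by
  unfold R
  refine Prod.ext ?_ rfl
  simp only [← mul_assoc, ← Complex.exp_add]
  congr 2
  push_cast; ring

/-- left translation -/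
noncomputable def Lt (a : ℂ × ℝ) : Diffeomorph 𝓘(ℝ, ℂ × ℝ) 𝓘(ℝ, ℂ × ℝ) (ℂ × ℝ) (ℂ × ℝ) ∞ where
  toFun x := a + rot (-a.2) x
  invFun y := rot a.2 (y - a)
  left_inv x := by simp [rot_apply, R_R, R_zero]
  right_inv y := by
    simp only [rot_apply, R_R, neg_add_cancel, R_zero]; abel
  contMDiff_toFun := (contDiff_const.add (rot (-a.2)).contDiff).contMDiff
  contMDiff_invFun := ((rot a.2).contDiff.comp (contDiff_id.sub contDiff_const)).contMDiff

lemma isom_Lt (a : ℂ × ℝ) : IsIsometry FM fun x => a + R (-a.2) x := by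
  refine ⟨Lt a, rfl, fun p => ?_⟩
  have h : mfderiv 𝓘(ℝ, ℂ × ℝ) 𝓘(ℝ, ℂ × ℝ) (Lt a) p.1 = rot (-a.2) := by
    rw [mfderiv_eq_fderiv]
    exact ((rot (-a.2)).hasFDerivAt.const_add a).fderiv
  have h2 : FM (tangentMap 𝓘(ℝ, ℂ × ℝ) 𝓘(ℝ, ℂ × ℝ) (Lt a) p) =
      Nn (R (a.2 + p.1.2) (mfderiv 𝓘(ℝ, ℂ × ℝ) 𝓘(ℝ, ℂ × ℝ) (Lt a) p.1 p.2)) := rfl
  rw [h2, h]
  change Nn (R _ (R _ p.2)) = Nn (R p.1.2 p.2)
  rw [R_R]
  congr 2
  ring

theorem homog_FM : IsHomogeneous FM := by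
  intro x y
  refine ⟨_, isom_Lt (y - R (-(y.2 - x.2)) x), ?_⟩
  have : (y - R (-(y.2 - x.2)) x).2 = y.2 - x.2 := rfl
  simp only [this]
  abel

lemma isom_add (k : ℤ) : IsIsometry FM fun x => x + (k : ℝ) • bb := by
  have := isom_Lt ((k : ℝ) • bb)
  convert this using 2 with x
  rw [add_comm]
  congr 1
  unfold R
  refine Prod.ext ?_ rfl
  have : Complex.exp (((- -((k : ℝ) • bb).2 : ℝ) : ℂ) * Complex.I) = 1 := by
    rw [← Complex.exp_int_mul_two_pi_mul_I k]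
    congr 1
    simp [bb]; ring
  simp only [this, one_mul]

lemma curve_eq (c : ℝ → ℂ × ℝ) : curveLength FM c =
    ∫⁻ t in Set.Icc (0 : ℝ) 1, ENNReal.ofReal (Fp (c t) (derivWithin c (Set.Icc 0 1) t)) := by
  unfold curveLength
  congr 1
  ext t
  congr 1
  rw [mfderivWithin_eq_fderivWithin]
  rfl

lemma curve_lower (d : ℂ × ℝ) (c : ℝ → ℂ × ℝ)
    (hc : ContMDiffOn 𝓘(ℝ, ℝ) 𝓘(ℝ, ℂ × ℝ) ∞ c (Set.Icc 0 1)) :
    ENNReal.ofReal ((ipL d (c 1) - ipL d (c 0)) / √(Q d)) ≤ curveLength FM c := by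
  rw [curve_eq]
  have hc' : ContDiffOn ℝ ∞ c (Set.Icc 0 1) := contMDiffOn_iff_contDiffOn.1 hc
  have hu : UniqueDiffOn ℝ (Set.Icc (0 : ℝ) 1) := uniqueDiffOn_Icc zero_lt_one
  have hd : ContinuousOn (derivWithin c (Set.Icc 0 1)) (Set.Icc 0 1) :=
    hc'.continuousOn_derivWithin hu (by simp)
  have hi : ContinuousOn (fun t => ipL d (derivWithin c (Set.Icc 0 1) t)) (Set.Icc 0 1) :=
    (ipL d).continuous.comp_continuousOn hd
  have ftc : ∫ t in (0 : ℝ)..1, ipL d (derivWithin c (Set.Icc 0 1) t) =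
      ipL d (c 1) - ipL d (c 0) := by
    refine intervalIntegral.integral_eq_sub_of_hasDerivAt_of_le zero_le_one
      (f := fun t => ipL d (c t)) ((ipL d).continuous.comp_continuousOn hc'.continuousOn) ?_ ?_
    · intro t ht
      have h1 := (hc'.differentiableOn (by simp) t (Set.Ioo_subset_Icc_self ht)).hasDerivWithinAt
      exact (ipL d).hasFDerivAt.comp_hasDerivAt t (h1.hasDerivAt (Icc_mem_nhds ht.1 ht.2))
    · exact (hi.mono (by rw [Set.uIcc_of_le zero_le_one])).intervalIntegrable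
  rw [← ftc, ← intervalIntegral.integral_div, intervalIntegral.integral_of_le zero_le_one,
    ← integral_Icc_eq_integral_Ioc]
  have hint : IntegrableOn (fun t => ipL d (derivWithin c (Set.Icc 0 1) t) / √(Q d))
      (Set.Icc (0 : ℝ) 1) := (hi.div_const _).integrableOn_Icc
  calc _ ≤ ∫⁻ t in Set.Icc (0 : ℝ) 1,
        ENNReal.ofReal (ipL d (derivWithin c (Set.Icc 0 1) t) / √(Q d)) := by
        rw [integral_eq_lintegral_pos_part_sub_lintegral_neg_part hint]
        refine (ENNReal.ofReal_le_ofReal (sub_le_self _ ENNReal.toReal_nonneg)).trans ?_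
        exact ENNReal.ofReal_toReal_le
    _ ≤ _ := by
        refine lintegral_mono fun t => ENNReal.ofReal_le_ofReal ?_
        exact div_le_of_le_mul₀ (Real.sqrt_nonneg _) (Real.sqrt_nonneg _)
          (by rw [mul_comm]; exact ipL_le d _ _)

theorem fdist_cone (x d : ℂ × ℝ) (hd : P d = 0) : fdist FM x (x + d) = ENNReal.ofReal √(Q d) := by
  apply le_antisymm
  · refine iInf_le_of_le 0 (iInf_le_of_le (fun _ t => x + t • d) (iInf_le_of_le
      ⟨fun i _ => ?_, by simp, by simp, by simp⟩ ?_))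
    · exact (ContDiff.contMDiff (by fun_prop)).contMDiffOn
    · simp only [zero_add, Finset.range_one, Finset.sum_singleton, curve_eq]
      have : ∀ t ∈ Set.Icc (0 : ℝ) 1, ENNReal.ofReal (Fp (x + t • d)
          (derivWithin (fun t : ℝ => x + t • d) (Set.Icc 0 1) t)) = ENNReal.ofReal √(Q d) := by
        intro t ht
        have h1 : HasDerivAt (fun t : ℝ => x + t • d) d t := by
          simpa using ((hasDerivAt_id t).smul_const d).const_add x
        rw [h1.hasDerivWithinAt.derivWithin (uniqueDiffOn_Icc zero_lt_one t ht), Fp_cone _ _ hd]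
      rw [setLIntegral_congr_fun measurableSet_Icc this]
      simp
  · refine le_iInf fun k => le_iInf fun c => le_iInf fun ⟨h1, h2, h3, h4⟩ => ?_
    have key : ∀ j ≤ k, ENNReal.ofReal ((ipL d (c j 1) - ipL d x) / √(Q d)) ≤
        ∑ i ∈ Finset.range (j + 1), curveLength FM (c i) := by
      intro j
      induction j with
      | zero => intro hj; simpa [h2] using curve_lower d (c 0) (h1 0 hj)
      | succ j ih =>
        intro hj
        rw [Finset.sum_range_succ]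
        refine le_trans ?_ (add_le_add (ih (by omega)) (curve_lower d (c (j + 1)) (h1 _ hj)))
        refine le_trans (le_of_eq ?_) ENNReal.ofReal_add_le
        rw [h4 j (by omega)]
        congr 1
        ring
    have := key k le_rfl
    rw [h3, map_add, add_sub_cancel_left, ipL_self, Real.div_sqrt] at this
    exact this

end H447Z.Fs
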