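import Mathlib

set_option autoImplicit false

namespace H447Z.Fs

open Filter Topology
open scoped ContDiff

def Q (p : ℂ × ℝ) : ℝ := p.1.re ^ 2 + p.1.im ^ 2 + p.2 ^ 2
def P (p : ℂ × ℝ) : ℝ := p.1.re ^ 2 + p.1.im ^ 2 - p.2 ^ 2
noncomputable def rr (p : ℂ × ℝ) : ℝ := P p * p.1.re / Q p
noncomputable def N2 (p : ℂ × ℝ) : ℝ := Q p + rr p ^ 2 / 100
noncomputable def Nn (p : ℂ × ℝ) : ℝ := √(N2 p)

lemma Q_nonneg (p : ℂ × ℝ) : 0 ≤ Q p := by unfold Q; positivity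

lemma Q_eq_zero {p : ℂ × ℝ} (h : Q p ≤ 0) : p = 0 := by
  unfold Q at h
  have h1 : p.1.re = 0 := by nlinarith [sq_nonneg p.1.re, sq_nonneg p.1.im, sq_nonneg p.2]
  have h2 : p.1.im = 0 := by nlinarith [sq_nonneg p.1.re, sq_nonneg p.1.im, sq_nonneg p.2]
  have h3 : p.2 = 0 := by nlinarith [sq_nonneg p.1.re, sq_nonneg p.1.im, sq_nonneg p.2]
  exact Prod.ext (Complex.ext h1 h2) h3

lemma Q_pos {p : ℂ × ℝ} (h : p ≠ 0) : 0 < Q p := by
  by_contra hc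
  exact h (Q_eq_zero (not_lt.1 hc))

lemma Q_le_N2 (p : ℂ × ℝ) : Q p ≤ N2 p := by
  unfold N2; have := sq_nonneg (rr p); linarith

lemma N2_nonneg (p : ℂ × ℝ) : 0 ≤ N2 p := (Q_nonneg p).trans (Q_le_N2 p)

lemma Nn_sq (p : ℂ × ℝ) : Nn p ^ 2 = N2 p := Real.sq_sqrt (N2_nonneg p)

lemma N2_cone {p : ℂ × ℝ} (h : P p = 0) : N2 p = Q p := by simp [N2, rr, h]

lemma rr_sq_le (p : ℂ × ℝ) : rr p ^ 2 ≤ Q p := by
  rcases (Q_nonneg p).eq_or_lt with h | h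
  · simp [rr, ← h]
  · unfold rr
    rw [div_pow, div_le_iff₀ (by positivity), mul_pow]
    have h1 : P p ^ 2 ≤ Q p ^ 2 := by
      unfold P Q
      nlinarith [mul_nonneg (add_nonneg (sq_nonneg p.1.re) (sq_nonneg p.1.im)) (sq_nonneg p.2)]
    have h2 : p.1.re ^ 2 ≤ Q p := by unfold Q; nlinarith [sq_nonneg p.1.im, sq_nonneg p.2]
    rw [mul_comm (Q p)]
    exact mul_le_mul h1 h2 (sq_nonneg _) (sq_nonneg _)

lemma N2_smul (l : ℝ) (hl : l ≠ 0) (p : ℂ × ℝ) : N2 (l • p) = l ^ 2 * N2 p := by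
  have hQ : Q (l • p) = l ^ 2 * Q p := by simp [Q]; ring
  have hP : P (l • p) = l ^ 2 * P p := by simp [P]; ring
  have hr : rr (l • p) = l * rr p := by
    unfold rr
    rw [hQ, hP]
    have : (l • p).1.re = l * p.1.re := by simp
    rw [this]
    rcases eq_or_ne (Q p) 0 with h | h
    · simp [h]
    · field_simp
  unfold N2; rw [hQ, hr]; ring

lemma Nn_smul (l : ℝ) (hl : 0 < l) (p : ℂ × ℝ) : Nn (l • p) = l * Nn p := by
  unfold Nn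
  rw [N2_smul l hl.ne', Real.sqrt_mul (sq_nonneg l), Real.sqrt_sq hl.le]

lemma contDiff_re1 : ContDiff ℝ ∞ fun p : ℂ × ℝ => p.1.re :=
  Complex.reCLM.contDiff.comp contDiff_fst
lemma contDiff_im1 : ContDiff ℝ ∞ fun p : ℂ × ℝ => p.1.im :=
  Complex.imCLM.contDiff.comp contDiff_fst
lemma contDiff_Q : ContDiff ℝ ∞ Q :=
  ((contDiff_re1.pow 2).add (contDiff_im1.pow 2)).add (contDiff_snd.pow 2)
lemma contDiff_P : ContDiff ℝ ∞ P :=
  ((contDiff_re1.pow 2).add (contDiff_im1.pow 2)).sub (contDiff_snd.pow 2)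

lemma contDiffAt_Nn {p : ℂ × ℝ} (h : p ≠ 0) : ContDiffAt ℝ ∞ Nn p := by
  have h1 : ContDiffAt ℝ ∞ rr p :=
    (contDiff_P.mul contDiff_re1).contDiffAt.div contDiff_Q.contDiffAt (Q_pos h).ne'
  have h2 : ContDiffAt ℝ ∞ N2 p := contDiff_Q.contDiffAt.add ((h1.pow 2).div_const 100)
  exact h2.sqrt ((Q_pos h).trans_le (Q_le_N2 p)).ne'

lemma continuous_Nn : Continuous Nn := by
  rw [continuous_iff_continuousAt]
  intro p
  rcases eq_or_ne p 0 with h | h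
  · subst h
    have h0 : Nn 0 = 0 := by simp [Nn, N2, Q, rr]
    have h1 : Tendsto (fun p => √(2 * Q p)) (𝓝 (0 : ℂ × ℝ)) (𝓝 0) := by
      have : Continuous fun p => √(2 * Q p) := (contDiff_Q.continuous.const_mul 2).sqrt
      simpa [Q] using this.tendsto 0
    unfold ContinuousAt
    rw [h0]
    refine squeeze_zero (fun p => Real.sqrt_nonneg _) (fun p => Real.sqrt_le_sqrt ?_) h1
    unfold N2
    have := rr_sq_le p
    have := Q_nonneg p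
    linarith
  · exact (contDiffAt_Nn h).continuousAt

lemma am {a b : ℝ} (ha : |a| ≤ 1) (hb : |b| ≤ 1) : |a * b| ≤ 1 := by
  rw [abs_mul]; exact mul_le_one₀ ha (abs_nonneg _) hb

lemma poly_bound {x1 x2 x3 x4 x5 x6 : ℝ} (h1 : |x1| ≤ 1) (h2 : |x2| ≤ 1) (h3 : |x3| ≤ 1)
    (h4 : |x4| ≤ 1) (h5 : |x5| ≤ 1) (h6 : |x6| ≤ 1) :
    -28 ≤ x1 * x2 * ((2 * x5 * x2 + 4 * x3 * x6) - 2 * x1 * x2 -
      4 * x4 * (2 * x3 * x2 + x1 * x6) + 8 * x1 * x2 * x4 ^ 2) := by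
  have a := am h1 h2
  have b1 := abs_le.1 (am a (am h5 h2))
  have b2 := abs_le.1 (am a (am h3 h6))
  have b3 := abs_le.1 (am a a)
  have b4 := abs_le.1 (am a (am h4 (am h3 h2)))
  have b5 := abs_le.1 (am a (am h4 (am h1 h6)))
  have b6 := abs_le.1 (am a (am a (am h4 h4)))
  nlinarith [b1.1, b2.1, b3.2, b4.2, b5.2, b6.1]

lemma convex_aux (a b s α β σ : ℝ) (hA : 0 < a ^ 2 + b ^ 2 + s ^ 2)
    (hB : 0 < α ^ 2 + β ^ 2 + σ ^ 2) :
    0 < deriv (deriv fun τ : ℝ => ((a + τ * α) ^ 2 + (b + τ * β) ^ 2 + (s + τ * σ) ^ 2) +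
      (((a + τ * α) ^ 2 + (b + τ * β) ^ 2 - (s + τ * σ) ^ 2) * (a + τ * α) /
        ((a + τ * α) ^ 2 + (b + τ * β) ^ 2 + (s + τ * σ) ^ 2)) ^ 2 / 100) 0 := by
  set q : ℝ → ℝ := fun τ => (a + τ * α) ^ 2 + (b + τ * β) ^ 2 + (s + τ * σ) ^ 2 with hq
  set p : ℝ → ℝ := fun τ => (a + τ * α) ^ 2 + (b + τ * β) ^ 2 - (s + τ * σ) ^ 2 with hp
  set l : ℝ → ℝ := fun τ => a + τ * α with hl
  set q1 : ℝ → ℝ := fun τ => 2 * (a + τ * α) * α + 2 * (b + τ * β) * β + 2 * (s + τ * σ) * σ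
    with hq1
  set p1 : ℝ → ℝ := fun τ => 2 * (a + τ * α) * α + 2 * (b + τ * β) * β - 2 * (s + τ * σ) * σ
    with hp1
  have dl : ∀ (c γ τ : ℝ), HasDerivAt (fun τ : ℝ => c + τ * γ) γ τ := fun c γ τ => by
    simpa using ((hasDerivAt_id τ).mul_const γ).const_add c
  have dq : ∀ τ, HasDerivAt q (q1 τ) τ := fun τ => by
    have := (((dl a α τ).pow 2).add ((dl b β τ).pow 2)).add ((dl s σ τ).pow 2)
    exact this.congr_deriv (by simp [hq1])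
  have dp : ∀ τ, HasDerivAt p (p1 τ) τ := fun τ => by
    have := (((dl a α τ).pow 2).add ((dl b β τ).pow 2)).sub ((dl s σ τ).pow 2)
    exact this.congr_deriv (by simp [hp1])
  have dq1 : HasDerivAt q1 (2 * (α ^ 2 + β ^ 2 + σ ^ 2)) 0 := by
    have := ((((dl a α 0).const_mul 2).mul_const α).add
      (((dl b β 0).const_mul 2).mul_const β)).add (((dl s σ 0).const_mul 2).mul_const σ)
    exact this.congr_deriv (by ring)
  have dp1 : HasDerivAt p1 (2 * (α ^ 2 + β ^ 2 - σ ^ 2)) 0 := by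
    have := ((((dl a α 0).const_mul 2).mul_const α).add
      (((dl b β 0).const_mul 2).mul_const β)).sub (((dl s σ 0).const_mul 2).mul_const σ)
    exact this.congr_deriv (by ring)
  have hq0 : q 0 = a ^ 2 + b ^ 2 + s ^ 2 := by simp [hq]
  have ev : ∀ᶠ τ in 𝓝 (0 : ℝ), q τ ≠ 0 :=
    (dq 0).continuousAt.eventually_ne (by rw [hq0]; exact hA.ne')
  set ρ : ℝ → ℝ := fun τ => p τ * l τ / q τ with hρ
  set ρ1 : ℝ → ℝ := fun τ => ((p1 τ * l τ + p τ * α) * q τ - p τ * l τ * q1 τ) / q τ ^ 2 with hρ1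
  have dρ : ∀ τ, q τ ≠ 0 → HasDerivAt ρ (ρ1 τ) τ := fun τ h =>
    ((dp τ).mul (dl a α τ)).div (dq τ) h
  have e1 : deriv (fun τ => q τ + ρ τ ^ 2 / 100) =ᶠ[𝓝 0] fun τ => q1 τ + ρ τ * ρ1 τ / 50 := by
    filter_upwards [ev] with τ h
    have := (dq τ).add (((dρ τ h).pow 2).div_const 100)
    refine (this.deriv).trans ?_
    simp; ring
  have h0 : q 0 ≠ 0 := by rw [hq0]; exact hA.ne'
  have dρ1 := (((((dp1.mul (dl a α 0)).add ((dp 0).mul_const α)).mul (dq 0)).sub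
    (((dp 0).mul (dl a α 0)).mul dq1))).div ((dq 0).pow 2) (pow_ne_zero 2 h0)
  have d2 := dq1.add (((dρ 0 h0).mul dρ1).div_const 50)
  change 0 < deriv (deriv fun τ => q τ + ρ τ ^ 2 / 100) 0
  rw [e1.deriv_eq]
  refine lt_of_lt_of_eq ?_ d2.deriv.symm
  obtain ⟨A, hA0, hA2⟩ : ∃ A : ℝ, 0 < A ∧ A ^ 2 = a ^ 2 + b ^ 2 + s ^ 2 :=
    ⟨√_, Real.sqrt_pos.2 hA, Real.sq_sqrt hA.le⟩
  obtain ⟨B, hB0, hB2⟩ : ∃ B : ℝ, 0 < B ∧ B ^ 2 = α ^ 2 + β ^ 2 + σ ^ 2 :=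
    ⟨√_, Real.sqrt_pos.2 hB, Real.sq_sqrt hB.le⟩
  have ab : ∀ x y : ℝ, 0 < y → x ^ 2 ≤ y ^ 2 → |x / y| ≤ 1 := by
    intro x y hy h
    rw [abs_div, abs_of_pos hy, div_le_one hy]
    exact abs_le_of_sq_le_sq' h hy.le |> abs_le.2
  have k1 := ab (p 0) (A ^ 2) (by positivity) (by
    rw [hA2]; simp only [hp, zero_mul, add_zero]
    nlinarith [mul_nonneg (add_nonneg (sq_nonneg a) (sq_nonneg b)) (sq_nonneg s)])
  have k2 := ab a A hA0 (by rw [hA2]; nlinarith [sq_nonneg b, sq_nonneg s])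
  have k3 := ab (p1 0) (2 * A * B) (by positivity) (by
    rw [mul_pow, mul_pow, hA2, hB2]; simp only [hp1, zero_mul, add_zero]
    nlinarith [sq_nonneg (a * β - b * α), sq_nonneg (a * σ + s * α), sq_nonneg (b * σ + s * β)])
  have k4 := ab (q1 0) (2 * A * B) (by positivity) (by
    rw [mul_pow, mul_pow, hA2, hB2]; simp only [hq1, zero_mul, add_zero]
    nlinarith [sq_nonneg (a * β - b * α), sq_nonneg (a * σ - s * α), sq_nonneg (b * σ - s * β)])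
  have k5 := ab (α ^ 2 + β ^ 2 - σ ^ 2) (B ^ 2) (by positivity) (by
    rw [hB2]
    nlinarith [mul_nonneg (add_nonneg (sq_nonneg α) (sq_nonneg β)) (sq_nonneg σ)])
  have k6 := ab α B hB0 (by rw [hB2]; nlinarith [sq_nonneg β, sq_nonneg σ])
  have k := poly_bound k1 k2 k3 k4 k5 k6
  have hl0 : l 0 = a := by simp [hl]
  have hqA : q 0 = A ^ 2 := by rw [hq0, hA2]
  have kk := mul_le_mul_of_nonneg_left k (sq_nonneg B)
  simp only [Pi.add_apply, Pi.mul_apply, Pi.sub_apply, Pi.pow_apply, hρ, zero_mul, add_zero, hl0,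
    hqA, ← hB2]
  have fin : ∀ X Y Z : ℝ, X = Y → B ^ 2 * (-28) ≤ Y → 0 < 2 * B ^ 2 + (Z * Z + X) / 50 := by
    intro X Y Z e h
    have := mul_self_nonneg Z
    have := pow_pos hB0 2
    nlinarith
  refine fin _ _ _ ?_ kk
  field_simp
  ring

lemma convex_N2 (v w : ℂ × ℝ) (hv : v ≠ 0) (hw : w ≠ 0) :
    0 < deriv (deriv fun τ : ℝ => N2 (v + τ • w)) 0 := by
  have := convex_aux v.1.re v.1.im v.2 w.1.re w.1.im w.2 (Q_pos hv) (Q_pos hw)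
  convert this using 4 with τ
  simp [N2, rr, Q, P]

end H447Z.Fs
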