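import Pool.Agent.H447Z.FsMan

set_option autoImplicit false

namespace H447Z.Fs

open Filter Topology Real TopologicalSpace
open scoped ContDiff Manifold

def U : Opens (ℝ × ℂ) := ⟨{p | p.2 ≠ 0}, isOpen_ne.preimage continuous_snd⟩

noncomputable def aL : (ℂ × ℝ) →L[ℝ] ℝ :=
  Complex.reCLM.comp (ContinuousLinearMap.fst ℝ ℂ ℝ) - ContinuousLinearMap.snd ℝ ℂ ℝ

noncomputable def JL : (ℂ × ℝ) →L[ℝ] ℂ :=
  Complex.ofRealCLM.comp (Complex.imCLM.comp (ContinuousLinearMap.fst ℝ ℂ ℝ)) +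
    (ContinuousLinearMap.mul ℝ ℂ Complex.I).comp
      (Complex.ofRealCLM.comp (ContinuousLinearMap.snd ℝ ℂ ℝ))

noncomputable def SL : (ℝ × ℂ) →L[ℝ] (ℂ × ℝ) :=
  (Complex.ofRealCLM.comp (ContinuousLinearMap.fst ℝ ℝ ℂ +
      Complex.imCLM.comp (ContinuousLinearMap.snd ℝ ℝ ℂ)) +
    (ContinuousLinearMap.mul ℝ ℂ Complex.I).comp
      (Complex.ofRealCLM.comp (Complex.reCLM.comp (ContinuousLinearMap.snd ℝ ℝ ℂ)))).prod
    (Complex.imCLM.comp (ContinuousLinearMap.snd ℝ ℝ ℂ))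

lemma aL_apply (x : ℂ × ℝ) : aL x = x.1.re - x.2 := rfl
lemma JL_apply (x : ℂ × ℝ) : JL x = x.1.im + Complex.I * x.2 := rfl
lemma SL_apply (q : ℝ × ℂ) :
    SL q = (((q.1 + q.2.im : ℝ) : ℂ) + Complex.I * q.2.re, q.2.im) := rfl

lemma SL_T (x : ℂ × ℝ) : SL (aL x, JL x) = x := by
  rw [SL_apply, aL_apply, JL_apply]
  refine Prod.ext (Complex.ext ?_ ?_) ?_ <;> simp

lemma aL_SL (q : ℝ × ℂ) : aL (SL q) = q.1 := by rw [SL_apply, aL_apply]; simp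
lemma JL_SL (q : ℝ × ℂ) : JL (SL q) = q.2 := by
  rw [SL_apply, JL_apply]; refine Complex.ext ?_ ?_ <;> simp

noncomputable def pv (x : ℂ × ℝ) : ℝ × ℂ := (aL x, Complex.exp (JL x))

noncomputable def pq (x : ℂ × ℝ) : U := ⟨pv x, Complex.exp_ne_zero _⟩

noncomputable def DL (x : ℂ × ℝ) : (ℂ × ℝ) →L[ℝ] (ℝ × ℂ) :=
  aL.prod ((ContinuousLinearMap.mul ℝ ℂ (Complex.exp (JL x))).comp JL)

noncomputable def DI (x : ℂ × ℝ) : (ℝ × ℂ) →L[ℝ] (ℂ × ℝ) :=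
  SL.comp ((ContinuousLinearMap.fst ℝ ℝ ℂ).prod
    ((ContinuousLinearMap.mul ℝ ℂ (Complex.exp (JL x))⁻¹).comp (ContinuousLinearMap.snd ℝ ℝ ℂ)))

lemma DL_apply (x v : ℂ × ℝ) : DL x v = (aL v, Complex.exp (JL x) * JL v) := rfl
lemma DI_apply (x : ℂ × ℝ) (q : ℝ × ℂ) : DI x q = SL (q.1, (Complex.exp (JL x))⁻¹ * q.2) := rfl

lemma DI_DL (x : ℂ × ℝ) : Function.LeftInverse (DI x) (DL x) := by
  intro v
  rw [DL_apply, DI_apply]
  simp only [inv_mul_cancel_left₀ (Complex.exp_ne_zero _), SL_T]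

lemma DL_DI (x : ℂ × ℝ) : Function.RightInverse (DI x) (DL x) := by
  intro q
  rw [DI_apply, DL_apply, aL_SL, JL_SL]
  simp only [mul_inv_cancel_left₀ (Complex.exp_ne_zero _)]

lemma hasFDerivAt_pv (x : ℂ × ℝ) : HasFDerivAt pv (DL x) x := by
  refine aL.hasFDerivAt.prodMk ?_
  have := JL.hasFDerivAt.cexp (x := x)
  exact this

lemma contDiff_pv : ContDiff ℝ ∞ pv :=
  aL.contDiff.prodMk ((Complex.contDiff_exp (𝕜 := ℝ)).comp JL.contDiff)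

lemma smooth_pq : ContMDiff 𝓘(ℝ, ℂ × ℝ) 𝓘(ℝ, ℝ × ℂ) ∞ pq :=
  (ContMDiff.subtypeVal_comp_iff U pq).1 contDiff_pv.contMDiff

lemma mfderiv_val (y : U) :
    mfderiv 𝓘(ℝ, ℝ × ℂ) 𝓘(ℝ, ℝ × ℂ) (Subtype.val : U → ℝ × ℂ) y = ContinuousLinearMap.id ℝ _ :=
  mfderiv_extChartAt_self (I := 𝓘(ℝ, ℝ × ℂ)) (x := y)

lemma mfderiv_pq (x : ℂ × ℝ) : mfderiv 𝓘(ℝ, ℂ × ℝ) 𝓘(ℝ, ℝ × ℂ) pq x = DL x := by
  have h1 := mfderiv_comp (I := 𝓘(ℝ, ℂ × ℝ)) (I' := 𝓘(ℝ, ℝ × ℂ)) (I'' := 𝓘(ℝ, ℝ × ℂ)) x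
    ((contMDiff_subtype_val (n := ∞) (U := U)).mdifferentiableAt (x := pq x) (by simp))
    (smooth_pq.mdifferentiableAt (by simp))
  rw [mfderiv_val] at h1
  have h2 : mfderiv 𝓘(ℝ, ℂ × ℝ) 𝓘(ℝ, ℝ × ℂ) (Subtype.val ∘ pq) x = DL x := by
    rw [mfderiv_eq_fderiv]
    exact (hasFDerivAt_pv x).fderiv
  exact h1.symm.trans h2

noncomputable def Fq (y q : ℝ × ℂ) : ℝ :=
  Nn ((‖y.2‖ : ℂ) / y.2 * (SL (q.1, y.2⁻¹ * q.2)).1, (SL (q.1, y.2⁻¹ * q.2)).2)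

noncomputable def FU (p : TangentBundle 𝓘(ℝ, ℝ × ℂ) U) : ℝ := Fq p.1.1 p.2

lemma FU_pq (p : TangentBundle 𝓘(ℝ, ℂ × ℝ) (ℂ × ℝ)) :
    FU (tangentMap 𝓘(ℝ, ℂ × ℝ) 𝓘(ℝ, ℝ × ℂ) pq p) = FM p := by
  have h1 : FU (tangentMap 𝓘(ℝ, ℂ × ℝ) 𝓘(ℝ, ℝ × ℂ) pq p) =
      Fq (pv p.1) (mfderiv 𝓘(ℝ, ℂ × ℝ) 𝓘(ℝ, ℝ × ℂ) pq p.1 p.2) := rfl
  rw [h1, mfderiv_pq]
  have h2 := DI_DL p.1 p.2
  rw [DI_apply] at h2
  have h3 : ((‖(pv p.1).2‖ : ℝ) : ℂ) / (pv p.1).2 =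
      Complex.exp (((-p.1.2 : ℝ) : ℂ) * Complex.I) := by
    simp only [pv, Complex.norm_exp, Complex.ofReal_exp, ← Complex.exp_sub, JL_apply]
    congr 1
    refine Complex.ext ?_ ?_ <;> simp
  unfold Fq
  rw [h3]
  exact congrArg (fun w : ℂ × ℝ => Nn (Complex.exp (((-p.1.2 : ℝ) : ℂ) * Complex.I) * w.1, w.2)) h2

lemma pq_eq_iff (x y : ℂ × ℝ) : pq x = pq y ↔ ∃ k : ℤ, x = y + (k : ℝ) • bb := by
  have hb1 : aL bb = 0 := by simp [aL_apply, bb]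
  have hb2 : JL bb = 2 * π * Complex.I := by simp [JL_apply, bb]; ring
  constructor
  · intro h
    have h1 : pv x = pv y := congrArg Subtype.val h
    obtain ⟨k, hk⟩ := Complex.exp_eq_exp_iff_exists_int.1 (congrArg Prod.snd h1)
    refine ⟨k, ?_⟩
    rw [← SL_T x, ← SL_T (y + (k : ℝ) • bb)]
    congr 1
    refine Prod.ext ?_ ?_
    · simp only [map_add, map_smul, hb1, smul_zero, add_zero]
      exact congrArg Prod.fst h1
    · simp only [map_add, map_smul, hb2, hk, Complex.real_smul]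
      push_cast; ring
  · rintro ⟨k, rfl⟩
    refine Subtype.ext (Prod.ext ?_ ?_)
    · simp [pq, pv, hb1]
    · simp only [pq, pv, map_add, map_smul, hb2, Complex.real_smul]
      refine Complex.exp_eq_exp_iff_exists_int.2 ⟨k, ?_⟩
      push_cast; ring

lemma pq_surj : Function.Surjective pq := by
  rintro ⟨y, hy⟩
  refine ⟨SL (y.1, Complex.log y.2), Subtype.ext ?_⟩
  simp only [pq, pv, aL_SL, JL_SL, Complex.exp_log hy]

lemma lift_exists (φ : U → U) (hφ : Continuous φ) (x0 y0 : ℂ × ℝ) (h : φ (pq x0) = pq y0) :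
    ∃ g : ℂ × ℝ → ℂ × ℝ, Continuous g ∧ g x0 = y0 ∧ ∀ x, pq (g x) = φ (pq x) := by
  have c0 : Continuous fun x => (φ (pq x)).1 :=
    continuous_subtype_val.comp (hφ.comp smooth_pq.continuous)
  let f : C(ℂ × ℝ, {z : ℂ // z ≠ 0}) :=
    ⟨fun x => ⟨(φ (pq x)).1.2, (φ (pq x)).2⟩, (continuous_snd.comp c0).subtype_mk _⟩
  obtain ⟨L, ⟨h1, h2⟩, -⟩ := Complex.isCoveringMap_exp.existsUnique_continuousMap_lifts f x0 (JL y0)
    (Subtype.ext (by simp only [f, ContinuousMap.coe_mk, h]; rfl))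
  refine ⟨fun x => SL ((φ (pq x)).1.1, L x),
    SL.continuous.comp ((continuous_fst.comp c0).prodMk L.continuous), ?_, fun x => ?_⟩
  · simp only [h, h1]
    exact SL_T y0
  · refine Subtype.ext (Prod.ext ?_ ?_)
    · simp only [pq, pv, aL_SL]
    · simp only [pq, pv, JL_SL]
      exact congrArg Subtype.val (congrFun h2 x)

lemma lift_unique (g : ℂ × ℝ → ℂ × ℝ) (hg : Continuous g) (h : ∀ x, pq (g x) = pq x)
    (x0 : ℂ × ℝ) (h0 : g x0 = x0) (x : ℂ × ℝ) : g x = x := by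
  have h1 : (fun x => JL (g x)) = fun x => JL x := by
    refine Complex.isCoveringMap_exp.eq_of_comp_eq (JL.continuous.comp hg) JL.continuous ?_ x0
      (by simp only [h0])
    ext x
    exact congrArg (fun y : U => y.1.2) (h x)
  rw [← SL_T (g x), congrFun h1 x,
    show aL (g x) = aL x from congrArg (fun y : U => y.1.1) (h x), SL_T]

theorem not_homog_FU : ¬ IsHomogeneous FU := by
  intro H
  obtain ⟨f, ⟨φ, rfl, hφ⟩, h0⟩ := H (pq 0) (pq (0, π / 2))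
  obtain ⟨g, gc, g0, hg⟩ := lift_exists φ φ.continuous 0 _ h0
  obtain ⟨g', gc', g0', hg'⟩ := lift_exists φ.symm φ.symm.continuous (0, π / 2) 0
    (by rw [← h0]; exact φ.symm_apply_apply _)
  have hinj : Function.Injective g := by
    refine Function.LeftInverse.injective (g := g') ?_
    refine lift_unique (g' ∘ g) (gc'.comp gc) (fun x => ?_) 0 (by simp [g0, g0'])
    rw [Function.comp_apply, hg', hg]
    exact φ.symm_apply_apply _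
  have hh : ContDiff ℝ ∞ fun x => (φ (pq x)).1 :=
    (((contMDiff_subtype_val (n := ∞) (U := U)).comp φ.contMDiff).comp smooth_pq).contDiff
  have hd : Differentiable ℝ g := fun x =>
    (HasFDerivAt.of_comp_of_leftInverse gc.continuousAt (hasFDerivAt_pv (g x))
      (hh.differentiable (by simp) x).hasFDerivAt
      (Eventually.of_forall fun y => congrArg Subtype.val (hg y)) (DI_DL (g x))).differentiableAt
  have hmd : MDifferentiable 𝓘(ℝ, ℂ × ℝ) 𝓘(ℝ, ℂ × ℝ) g := mdifferentiable_iff_differentiable.2 hd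
  have hpq : MDifferentiable 𝓘(ℝ, ℂ × ℝ) 𝓘(ℝ, ℝ × ℂ) pq := smooth_pq.mdifferentiable (by simp)
  have hF : ∀ x v, Fp (g x) (fderiv ℝ g x v) = Fp x v := by
    intro x v
    have e1 : pq ∘ g = φ ∘ pq := funext hg
    have e2 := congrFun (tangentMap_comp hpq hmd) ⟨x, v⟩
    have e3 := congrFun (tangentMap_comp (φ.mdifferentiable (by simp)) hpq) ⟨x, v⟩
    rw [e1, e3] at e2
    have e4 := congrArg FU e2
    simp only [Function.comp_apply, hφ, FU_pq] at e4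
    rw [← mfderiv_eq_fderiv]
    exact e4.symm
  obtain ⟨m, hm⟩ := (pq_eq_iff (g ((1 / 2 : ℝ) • bb)) (g ((-1 / 2 : ℝ) • bb))).1 (by
    rw [hg, hg]
    congr 1
    refine (pq_eq_iff _ _).2 ⟨1, ?_⟩
    rw [← add_smul]; norm_num)
  exact core g hd hinj hF (by rw [g0]) m hm

noncomputable def Gam : Subgroup (Equiv.Perm (ℂ × ℝ)) := Subgroup.zpowers (Equiv.addRight bb)

lemma mem_Gam {γ : Equiv.Perm (ℂ × ℝ)} :
    γ ∈ Gam ↔ ∃ k : ℤ, γ = Equiv.addRight ((k : ℝ) • bb) := by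
  unfold Gam
  rw [Subgroup.mem_zpowers_iff]
  refine exists_congr fun k => ?_
  have : Equiv.addRight bb ^ k = Equiv.addRight (k • bb) := by
    cases k with
    | ofNat n => simp
    | negSucc n => simp; congr 1; ring
  rw [this, Int.cast_smul_eq_zsmul, eq_comm]

lemma Gam_pd : ProperlyDiscontinuousSMul Gam (ℂ × ℝ) := by
  refine ⟨fun {K L} hK hL => ?_⟩
  obtain ⟨a, ha⟩ := hK.isBounded.exists_norm_le
  obtain ⟨b, hb⟩ := hL.isBounded.exists_norm_le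
  refine ((Set.finite_Icc (-⌈a + b⌉) ⌈a + b⌉).image fun k : ℤ =>
    (⟨Equiv.addRight ((k : ℝ) • bb), mem_Gam.2 ⟨k, rfl⟩⟩ : Gam)).subset ?_
  rintro ⟨γ, hγ⟩ h
  obtain ⟨k, rfl⟩ := mem_Gam.1 hγ
  obtain ⟨y, ⟨x, hx, rfl⟩, hy⟩ := h
  refine ⟨k, ?_, rfl⟩
  have h1 := (norm_snd_le x).trans (ha x hx)
  have h2 := (norm_snd_le _).trans (hb _ hy)
  change ‖x.2 + (k : ℝ) * (2 * π)‖ ≤ b at h2
  rw [Real.norm_eq_abs, abs_le] at h1 h2
  have h3 := Int.le_ceil (a + b)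
  have h4 := Real.pi_gt_three
  have h5 : -(⌈a + b⌉ : ℝ) ≤ k ∧ (k : ℝ) ≤ ⌈a + b⌉ := by
    constructor <;> nlinarith
  exact ⟨by exact_mod_cast h5.1, by exact_mod_cast h5.2⟩

end H447Z.Fs
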