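import Mathlib

/-!
Two general lemmas: a martingale decomposition of a function on a product of finite sets, and the
fractional form of Hall's theorem.
-/

set_option autoImplicit false

open Finset Function

namespace Pool.Agent.H447Z.HJ

section decomp

variable {ι V : Type} [Fintype ι] [DecidableEq ι] [Fintype V]

/-- The average over the coordinate `i`. -/
noncomputable def avg (i : ι) (g : (ι → V) → ℝ) (x : ι → V) : ℝ :=
  (∑ u, g (update x i u)) / Fintype.card V

omit [Fintype ι] in
theorem avg_update (i : ι) (g : (ι → V) → ℝ) (x : ι → V) (u : V) :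
    avg i g (update x i u) = avg i g x := by
  simp [avg]

theorem sum_update (i : ι) (g : (ι → V) → ℝ) :
    ∑ x, ∑ u, g (update x i u) = Fintype.card V * ∑ x, g x := by
  let sw : (ι → V) × V → (ι → V) × V := fun p => (update p.1 i p.2, p.1 i)
  have hsw : Involutive sw := by
    rintro ⟨x, u⟩
    simp [sw]
  have h1 := Equiv.sum_comp hsw.toPerm (fun p : (ι → V) × V => g p.1)
  rw [← Fintype.sum_prod_type']
  refine h1.trans ?_
  rw [Fintype.sum_prod_type]
  simp [Finset.mul_sum]

theorem decomp_aux [Nonempty V] (g : (ι → V) → ℝ) (B : ℝ) (hB0 : 0 ≤ B)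
    (hB : ∀ i x, g x - avg i g x ≤ B) (s : Finset ι) :
    ∃ (δ : ι → (ι → V) → ℝ) (r : (ι → V) → ℝ),
      (∀ i ∈ s, ∀ x, ∑ u, δ i (update x i u) = 0) ∧ (∀ i ∈ s, ∀ x, δ i x ≤ B) ∧
      (∀ x, ∑ i ∈ s, δ i x = g x - r x) ∧ (∀ i ∈ s, ∀ x u, r (update x i u) = r x) ∧
      (∑ x, r x = ∑ x, g x) ∧ (∀ i x, r x - avg i r x ≤ B) := by
  have hV : (0 : ℝ) < Fintype.card V := by exact_mod_cast Fintype.card_pos
  induction s using Finset.induction_on with
  | empty => exact ⟨fun _ _ => 0, g, by simp, by simp, by simp, by simp, rfl, hB⟩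
  | insert i s hi ih =>
    obtain ⟨δ, r, h1, h2, h3, h4, h5, h6⟩ := ih
    refine ⟨update δ i (fun x => r x - avg i r x), avg i r, ?_, ?_, ?_, ?_, ?_, ?_⟩
    · intro j hj x
      rcases mem_insert.mp hj with rfl | hj'
      · simp only [update_self, avg_update, sum_sub_distrib, sum_const, card_univ, nsmul_eq_mul]
        rw [avg]
        field_simp
        ring
      · rw [update_of_ne (by rintro rfl; exact hi hj')]
        exact h1 j hj' x
    · intro j hj x
      rcases mem_insert.mp hj with rfl | hj'
      · rw [update_self]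
        exact h6 j x
      · rw [update_of_ne (by rintro rfl; exact hi hj')]
        exact h2 j hj' x
    · intro x
      rw [sum_insert hi, update_self,
        sum_congr rfl (fun j hj => by rw [update_of_ne (by rintro rfl; exact hi hj)]), h3]
      ring
    · intro j hj x u
      rcases mem_insert.mp hj with rfl | hj'
      · exact avg_update _ _ _ _
      · have hij : j ≠ i := by rintro rfl; exact hi hj'
        unfold avg
        congr 1
        refine sum_congr rfl (fun v _ => ?_)
        rw [update_comm hij, h4 j hj']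
    · unfold avg
      rw [← Finset.sum_div, sum_update, h5]
      field_simp
    · intro j x
      by_cases hij : j = i
      · subst hij
        have : avg j (avg j r) x = avg j r x := by
          rw [avg]
          simp only [avg_update, sum_const, card_univ, nsmul_eq_mul]
          field_simp
        rw [this, sub_self]
        exact hB0
      · have h7 : avg j (avg i r) x = avg i (avg j r) x := by
          simp only [avg, ← Finset.sum_div]
          rw [sum_comm]
          congr 2
          refine sum_congr rfl (fun v _ => sum_congr rfl (fun u _ => ?_))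
          rw [update_comm hij]
        rw [h7, avg, avg, ← sub_div, ← sum_sub_distrib, div_le_iff₀ hV]
        refine (sum_le_sum (fun u _ => h6 j (update x i u))).trans ?_
        simp [mul_comm]

theorem decomp [Nonempty V] (g : (ι → V) → ℝ) (B : ℝ) (hB0 : 0 ≤ B)
    (hB : ∀ i x, g x - avg i g x ≤ B) :
    ∃ δ : ι → (ι → V) → ℝ, (∀ i x, ∑ u, δ i (update x i u) = 0) ∧ (∀ i x, δ i x ≤ B) ∧
      ∀ x, ∑ i, δ i x = g x - (∑ y, g y) / Fintype.card (ι → V) := by
  obtain ⟨δ, r, h1, h2, h3, h4, h5, -⟩ := decomp_aux g B hB0 hB univ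
  refine ⟨δ, fun i => h1 i (mem_univ i), fun i => h2 i (mem_univ i), fun x => ?_⟩
  have h6 : ∀ s : Finset ι, ∀ x y : ι → V, (∀ i, i ∉ s → x i = y i) → r x = r y := by
    intro s
    induction s using Finset.induction_on with
    | empty =>
      intro x y h
      rw [funext (fun i => h i (notMem_empty i))]
    | insert i s hi ih =>
      intro x y h
      rw [← h4 i (mem_univ i) x (y i)]
      refine ih _ _ (fun j hj => ?_)
      by_cases hij : j = i
      · subst hij
        simp
      · rw [update_of_ne hij]
        exact h j (by simp [hij, hj])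
  have hX : (0 : ℝ) < Fintype.card (ι → V) := by exact_mod_cast Fintype.card_pos
  rw [h3, ← h5, sum_congr rfl (fun y _ => h6 univ y x (fun i hi => absurd (mem_univ i) hi))]
  simp only [sum_const, card_univ, nsmul_eq_mul]
  field_simp

end decomp

theorem frac_hall {W X J : Type} [Fintype W] [Fintype J] [DecidableEq X] (Good : W → Prop)
    (pt : W → J → X) (α : W → J → ℝ) (h0 : ∀ w j, 0 ≤ α w j)
    (h1 : ∀ w, Good w → 1 ≤ ∑ j, α w j)
    (h2 : ∀ x, ∑ p ∈ univ.filter (fun p : W × J => pt p.1 p.2 = x), α p.1 p.2 ≤ 1) :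
    ∃ g : {w // Good w} → X, Injective g ∧ ∀ w, ∃ j, g w = pt w.1 j := by
  classical
  let t : {w // Good w} → Finset X := fun w => univ.image (pt w.1)
  have h3 : ∀ s : Finset {w // Good w}, s.card ≤ (s.biUnion t).card := by
    intro s
    have h4 : (s.card : ℝ) ≤ ∑ p ∈ (s.image Subtype.val) ×ˢ (univ : Finset J), α p.1 p.2 := by
      rw [sum_product, sum_image (fun a _ b _ h => Subtype.ext h)]
      have := sum_le_sum (fun (w : {w // Good w}) (_ : w ∈ s) => h1 w.1 w.2)
      simpa using this
    have h5 : ∀ p ∈ (s.image Subtype.val) ×ˢ (univ : Finset J), pt p.1 p.2 ∈ s.biUnion t := by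
      intro p hp
      obtain ⟨w, hw, hw'⟩ := mem_image.mp (mem_product.mp hp).1
      exact mem_biUnion.mpr ⟨w, hw, mem_image.mpr ⟨p.2, mem_univ _, by rw [hw']⟩⟩
    rw [← sum_fiberwise_of_maps_to h5] at h4
    have h6 : ∀ x ∈ s.biUnion t, ∑ p ∈ ((s.image Subtype.val) ×ˢ (univ : Finset J)).filter
        (fun p => pt p.1 p.2 = x), α p.1 p.2 ≤ 1 := by
      intro x _
      refine le_trans (sum_le_sum_of_subset_of_nonneg ?_ (fun p _ _ => h0 p.1 p.2)) (h2 x)
      exact filter_subset_filter _ (subset_univ _)
    have h7 := h4.trans (sum_le_sum h6)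
    simp only [sum_const, nsmul_eq_mul, mul_one] at h7
    exact_mod_cast h7
  obtain ⟨g, hg, hg'⟩ := (Finset.all_card_le_biUnion_card_iff_exists_injective t).mp h3
  refine ⟨g, hg, fun w => ?_⟩
  obtain ⟨j, -, hj⟩ := mem_image.mp (hg' w)
  exact ⟨j, hj.symm⟩

end Pool.Agent.H447Z.HJ
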