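import Pool.Agent.H447Z.HJGen

/-!
The load that the lines with at least two moving coordinates put on a point, and the bound on its
one-coordinate increments.
-/

set_option autoImplicit false

open Finset Function

namespace Pool.Agent.H447Z.HJ

variable {ι V : Type} [Fintype ι] [DecidableEq ι] [Fintype V] [DecidableEq V]

def T (ρ : V → V) (x : ι → V) (k : V) : Finset ι := univ.filter (fun i => x i = k ∨ x i = ρ k)

def Z (ρ : V → V) (x : ι → V) : Finset V := univ.filter (fun k => k ≠ ρ k ∧ (T ρ x k).card = 0)

def M (ρ : V → V) (x : ι → V) : Finset V := univ.filter (fun k => k ≠ ρ k ∧ 2 ≤ (T ρ x k).card)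

noncomputable def load (ρ : V → V) (x : ι → V) : ℝ := (M ρ x).card / ((Z ρ x).card + 2)

theorem arith (a b c e n : ℝ) (ha : 0 < a) (hb : 0 ≤ b) (hc : 0 ≤ c) (he : 0 ≤ e) (he1 : e ≤ 1)
    (hca : c ≤ a) (hn : n = a + b + c + e) (v : ℝ)
    (hv : v = c / a ∨ v = (c + 2) / (a + 2) ∨ v = c / (a + 2)) :
    v - (a * (c / a) + b * ((c + 2) / (a + 2)) + (c + e) * (c / (a + 2))) / n ≤ 2 / n := by
  have hn0 : 0 < n := by linarith
  have h1 : a * (c / a) + b * ((c + 2) / (a + 2)) + (c + e) * (c / (a + 2)) =
      (c * (n + 2) + 2 * b) / (a + 2) := by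
    rw [hn]; field_simp; ring
  rw [h1, sub_le_iff_le_add, ← add_div, le_div_iff₀ hn0]
  have h2 : 2 + (c * (n + 2) + 2 * b) / (a + 2) = (2 * (a + 2) + (c * (n + 2) + 2 * b)) / (a + 2) := by
    field_simp
  rw [h2]
  rcases hv with rfl | rfl | rfl
  · rw [div_mul_eq_mul_div, div_le_div_iff₀ ha (by linarith), hn]
    have h3 : c * (b + c + e) ≤ a * (a + 2 + b) :=
      mul_le_mul hca (by linarith) (by linarith) ha.le
    nlinarith
  · rw [div_mul_eq_mul_div, div_le_div_iff_of_pos_right (by linarith), hn]
    nlinarith
  · rw [div_mul_eq_mul_div, div_le_div_iff_of_pos_right (by linarith), hn]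
    nlinarith

theorem load_bound (ρ : V → V) (hρ : Involutive ρ)
    (hF : (univ.filter (fun k => k = ρ k)).card ≤ 1)
    (hd : 2 * Fintype.card ι ≤ Fintype.card V) (i : ι) (x : ι → V) :
    load ρ x - avg i (load ρ) x ≤ 2 / Fintype.card V := by
  let m : V → ℕ := fun k => ((T ρ x k).erase i).card
  have hm : ∀ k, m (ρ k) = m k := by
    intro k
    simp only [m, T, hρ k, or_comm]
  have hT : ∀ u k, (T ρ (update x i u) k).card = m k + if u = k ∨ u = ρ k then 1 else 0 := by
    intro u k
    have h1 : (T ρ (update x i u) k).erase i = (T ρ x k).erase i := by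
      ext j
      simp only [T, mem_erase, mem_filter, mem_univ, true_and]
      refine and_congr_right (fun hj => ?_)
      rw [update_of_ne hj]
    have h2 : i ∈ T ρ (update x i u) k ↔ u = k ∨ u = ρ k := by simp [T]
    split_ifs with h
    · rw [← card_erase_add_one (h2.mpr h), h1]
    · rw [← erase_eq_of_notMem (fun h' => h (h2.mp h')), h1, add_zero]
  have hk : ∀ u k, (u = k ∨ u = ρ k) ↔ (k = u ∨ k = ρ u) := by
    intro u k
    constructor
    · rintro (rfl | rfl)
      · exact Or.inl rfl
      · exact Or.inr (hρ k).symm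
    · rintro (rfl | rfl)
      · exact Or.inl rfl
      · exact Or.inr (hρ u).symm
  have hne : ∀ u, u ≠ ρ u → ρ u ≠ ρ (ρ u) := fun u h h' => h (hρ.injective h')
  let A := univ.filter (fun k => k ≠ ρ k ∧ m k = 0)
  let B := univ.filter (fun k => k ≠ ρ k ∧ m k = 1)
  let C := univ.filter (fun k => k ≠ ρ k ∧ 2 ≤ m k)
  let F := univ.filter (fun k => k = ρ k)
  have hsum : ∀ f : V → ℝ, ∑ u, f u = ∑ u ∈ A, f u + ∑ u ∈ B, f u + ∑ u ∈ C, f u +
      ∑ u ∈ F, f u := by
    intro f
    simp only [A, B, C, F, sum_filter, ← sum_add_distrib]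
    refine sum_congr rfl (fun u _ => ?_)
    by_cases h : u = ρ u
    · simp [← h]
    · rcases Nat.lt_trichotomy (m u) 1 with h1 | h1 | h1
      · have : m u = 0 := by omega
        simp [h, this]
      · simp [h, h1]
      · have h2 : m u ≠ 0 := by omega
        have h3 : m u ≠ 1 := by omega
        have h4 : 2 ≤ m u := h1
        simp [h, h2, h3, h4]
  have hn : (Fintype.card V : ℝ) = A.card + B.card + C.card + F.card := by
    simpa using hsum (fun _ => 1)
  have hbc : (B.card : ℝ) + 2 * C.card ≤ 2 * (Fintype.card ι - 1) := by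
    have h1 : ∑ k, m k ≤ 2 * (Fintype.card ι - 1) := by
      have h2 : ∀ k, m k = ∑ j ∈ univ.erase i, if x j = k ∨ x j = ρ k then 1 else 0 := by
        intro k
        rw [← card_filter]
        simp only [m, T, filter_erase]
      simp only [h2]
      rw [sum_comm]
      have h3 : ∀ j ∈ univ.erase i, (∑ k, if x j = k ∨ x j = ρ k then 1 else 0) ≤ 2 := by
        intro j _
        rw [← card_filter]
        refine le_trans (card_le_card (t := {x j, ρ (x j)}) ?_) card_le_two
        intro k hk'
        simpa using (hk _ _).mp (mem_filter.mp hk').2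
      refine (sum_le_sum h3).trans ?_
      simp [mul_comm]
    have h4 : (∑ k, (m k : ℝ)) ≤ 2 * (Fintype.card ι - 1) := by
      have h5 : 1 ≤ Fintype.card ι := Fintype.card_pos_iff.mpr ⟨i⟩
      have h6 := (Nat.cast_le (α := ℝ)).mpr h1
      push_cast [Nat.cast_sub h5] at h6
      exact h6
    rw [hsum] at h4
    have h5 : ∑ u ∈ B, (m u : ℝ) = B.card := by
      rw [sum_congr rfl (g := fun _ => 1) (fun u hu => by rw [(mem_filter.mp hu).2.2]; simp)]
      simp
    have h6 : 2 * (C.card : ℝ) ≤ ∑ u ∈ C, (m u : ℝ) := by
      have := sum_le_sum (s := C) (f := fun _ => (2 : ℝ)) (g := fun u => (m u : ℝ))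
        (fun u hu => by exact_mod_cast (mem_filter.mp hu).2.2)
      simpa [mul_comm] using this
    have h7 : 0 ≤ ∑ u ∈ A, (m u : ℝ) := sum_nonneg (fun _ _ => by positivity)
    have h8 : 0 ≤ ∑ u ∈ F, (m u : ℝ) := sum_nonneg (fun _ _ => by positivity)
    linarith
  have hd' : 2 * (Fintype.card ι : ℝ) ≤ Fintype.card V := by exact_mod_cast hd
  have hF' : (F.card : ℝ) ≤ 1 := by exact_mod_cast hF
  have hA : ∀ u ∈ A, load ρ (update x i u) = C.card / A.card := by
    intro u hu
    obtain ⟨hu1, hu2⟩ := (mem_filter.mp hu).2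
    have h1 : M ρ (update x i u) = C := by
      ext k
      simp only [M, C, mem_filter, mem_univ, true_and, hT, hk u k]
      refine and_congr_right (fun _ => ?_)
      split_ifs with h
      · have : m k = 0 := by rcases h with rfl | rfl; exact hu2; rw [hm]; exact hu2
        omega
      · rw [add_zero]
    have h2 : Z ρ (update x i u) = A \ {u, ρ u} := by
      ext k
      simp only [Z, A, mem_filter, mem_univ, true_and, hT, hk u k, mem_sdiff, mem_insert,
        mem_singleton]
      split_ifs with h
      · simp [h]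
      · simp [h]
    have h3 : ({u, ρ u} : Finset V) ⊆ A := by
      intro k hk'
      rcases mem_insert.mp hk' with rfl | hk'
      · exact hu
      · rw [mem_singleton.mp hk']
        exact mem_filter.mpr ⟨mem_univ _, hne u hu1, by rw [hm]; exact hu2⟩
    have h4 := card_sdiff_add_card_eq_card h3
    rw [card_pair hu1] at h4
    rw [load, h1, h2, ← h4]
    push_cast
    rfl
  have hB : ∀ u ∈ B, load ρ (update x i u) = (C.card + 2) / (A.card + 2) := by
    intro u hu
    obtain ⟨hu1, hu2⟩ := (mem_filter.mp hu).2
    have h1 : M ρ (update x i u) = C ∪ {u, ρ u} := by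
      ext k
      simp only [M, C, mem_filter, mem_univ, true_and, hT, hk u k, mem_union, mem_insert,
        mem_singleton]
      split_ifs with h
      · have h2 : m k = 1 := by rcases h with rfl | rfl; exact hu2; rw [hm]; exact hu2
        have h3 : k ≠ ρ k := by rcases h with rfl | rfl; exact hu1; exact hne u hu1
        simp [h, h2, h3]
      · simp [h]
    have h2 : Z ρ (update x i u) = A := by
      ext k
      simp only [Z, A, mem_filter, mem_univ, true_and, hT, hk u k]
      refine and_congr_right (fun _ => ?_)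
      split_ifs with h
      · have : m k = 1 := by rcases h with rfl | rfl; exact hu2; rw [hm]; exact hu2
        simp [this]
      · rw [add_zero]
    have h3 : Disjoint C {u, ρ u} := by
      rw [disjoint_left]
      intro k hk1 hk2
      have h4 := (mem_filter.mp hk1).2.2
      rcases mem_insert.mp hk2 with rfl | hk2
      · omega
      · rw [mem_singleton.mp hk2, hm] at h4
        omega
    rw [load, h1, h2, card_union_of_disjoint h3, card_pair hu1]
    push_cast
    rfl
  have hC : ∀ u, (u ∈ C ∨ u ∈ F) → load ρ (update x i u) = C.card / (A.card + 2) := by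
    intro u hu
    have h0 : ∀ k, k ≠ ρ k → (k = u ∨ k = ρ u) → 2 ≤ m k := by
      intro k hk1 hk2
      rcases hu with hu | hu
      · have := (mem_filter.mp hu).2.2
        rcases hk2 with rfl | rfl
        · exact this
        · rw [hm]; exact this
      · have := (mem_filter.mp hu).2
        rcases hk2 with rfl | rfl
        · exact absurd this hk1
        · rw [← this] at hk1
          exact absurd this hk1
    have h1 : M ρ (update x i u) = C := by
      ext k
      simp only [M, C, mem_filter, mem_univ, true_and, hT, hk u k]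
      refine and_congr_right (fun hk1 => ?_)
      split_ifs with h
      · have := h0 k hk1 h
        omega
      · rw [add_zero]
    have h2 : Z ρ (update x i u) = A := by
      ext k
      simp only [Z, A, mem_filter, mem_univ, true_and, hT, hk u k]
      refine and_congr_right (fun hk1 => ?_)
      split_ifs with h
      · have := h0 k hk1 h
        have h3 : m k ≠ 0 := by omega
        simp [h3]
      · rw [add_zero]
    rw [load, h1, h2]
  have hc0 : (0 : ℝ) ≤ C.card := by positivity
  have hb0 : (0 : ℝ) ≤ B.card := by positivity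
  have key := arith A.card B.card C.card F.card (Fintype.card V) (by linarith) hb0 hc0
    (by positivity) hF' (by linarith) hn (load ρ x) ?_
  · rw [avg, hsum, sum_congr rfl hA, sum_congr rfl hB, sum_congr rfl (fun u hu => hC u (Or.inl hu)),
      sum_congr rfl (fun u hu => hC u (Or.inr hu))]
    simp only [sum_const, nsmul_eq_mul]
    rw [add_assoc _ (_ * _) (_ * _), ← add_mul]
    exact key
  · have h1 : load ρ x = load ρ (update x i (x i)) := by rw [update_eq_self]
    rw [h1]
    by_cases h : x i = ρ (x i)
    · exact Or.inr (Or.inr (hC _ (Or.inr (mem_filter.mpr ⟨mem_univ _, h⟩))))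
    · rcases Nat.lt_trichotomy (m (x i)) 1 with h1 | h1 | h1
      · exact Or.inl (hA _ (mem_filter.mpr ⟨mem_univ _, h, by omega⟩))
      · exact Or.inr (Or.inl (hB _ (mem_filter.mpr ⟨mem_univ _, h, h1⟩)))
      · exact Or.inr (Or.inr (hC _ (Or.inl (mem_filter.mpr ⟨mem_univ _, h, h1⟩))))

end Pool.Agent.H447Z.HJ
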