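import Pool.Agent.H447Z.HJLoad

/-!
Oriented lines of the board have a system of distinct representatives.
-/

set_option autoImplicit false

open Finset Function

namespace Pool.Agent.H447Z.HJ

variable {ι V : Type} [Fintype ι] [DecidableEq ι] [Fintype V] [DecidableEq V]

/-- The value of a coordinate of an oriented line at the parameter `k`. -/
def val (ρ : V → V) (k : V) : V ⊕ Bool → V
  | Sum.inl c => c
  | Sum.inr true => k
  | Sum.inr false => ρ k

def pt (ρ : V → V) (w : ι → V ⊕ Bool) (k : V) : ι → V := fun i => val ρ k (w i)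

def S (w : ι → V ⊕ Bool) : Finset ι := univ.filter (fun i => (w i).isRight = true)

def E (ρ : V → V) (w : ι → V ⊕ Bool) : Finset V :=
  univ.filter (fun k => k ≠ ρ k ∧ ∀ i, w i ≠ Sum.inl k ∧ w i ≠ Sum.inl (ρ k))

noncomputable def α (ρ : V → V) (γ : ι → (ι → V) → ℝ) (w : ι → V ⊕ Bool) (k : V) : ℝ :=
  (if (S w).card = 1 then ∑ i ∈ S w, γ i (pt ρ w k) else 0) +
    (if 2 ≤ (S w).card ∧ k ∈ E ρ w then (1 : ℝ) / (E ρ w).card else 0)

theorem α_nonneg (ρ : V → V) (γ : ι → (ι → V) → ℝ) (hγ : ∀ i x, 0 ≤ γ i x) (w : ι → V ⊕ Bool)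
    (k : V) : 0 ≤ α ρ γ w k := by
  unfold α
  refine add_nonneg ?_ ?_
  · split_ifs
    · exact sum_nonneg (fun i _ => hγ _ _)
    · exact le_rfl
  · split_ifs
    · positivity
    · exact le_rfl

theorem E_nonempty (ρ : V → V) (hρ : Involutive ρ)
    (hF : (univ.filter (fun k => k = ρ k)).card ≤ 1)
    (hd : 2 * Fintype.card ι ≤ Fintype.card V) (w : ι → V ⊕ Bool) (hw : 2 ≤ (S w).card) :
    (E ρ w).Nonempty := by
  by_contra h
  rw [not_nonempty_iff_eq_empty] at h
  let t : ι → Finset V := fun i => (w i).elim (fun c => {c, ρ c}) (fun _ => ∅)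
  have h1 : (univ : Finset V) ⊆ univ.filter (fun k => k = ρ k) ∪ (S w)ᶜ.biUnion t := by
    intro k _
    have h2 : k ∉ E ρ w := by rw [h]; exact notMem_empty k
    simp only [E, mem_filter, mem_univ, true_and, not_and, not_forall] at h2
    by_cases h3 : k = ρ k
    · exact mem_union_left _ (mem_filter.mpr ⟨mem_univ _, h3⟩)
    · obtain ⟨i, hi⟩ := h2 h3
      refine mem_union_right _ (mem_biUnion.mpr ⟨i, ?_, ?_⟩)
      · by_cases h4 : w i = Sum.inl k
        · simp [S, h4]
        · have h5 : w i = Sum.inl (ρ k) := by tauto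
          simp [S, h5]
      · by_cases h4 : w i = Sum.inl k
        · simp [t, h4]
        · have h5 : w i = Sum.inl (ρ k) := by tauto
          simp [t, h5, hρ k]
  have h2 : ((S w)ᶜ.biUnion t).card ≤ (S w)ᶜ.card * 2 := by
    refine card_biUnion_le_card_mul _ _ _ (fun i _ => ?_)
    simp only [t]
    cases w i with
    | inl c => exact card_le_two
    | inr b => simp
  have h3 := (card_le_card h1).trans (card_union_le _ _)
  rw [card_univ] at h3
  rw [card_compl] at h2
  have h4 := card_le_univ (S w)
  omega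

theorem sum_α (ρ : V → V) (hρ : Involutive ρ)
    (hF : (univ.filter (fun k => k = ρ k)).card ≤ 1)
    (hd : 2 * Fintype.card ι ≤ Fintype.card V) (γ : ι → (ι → V) → ℝ)
    (hγ : ∀ i x, ∑ u, γ i (update x i u) = 1) (w : ι → V ⊕ Bool) :
    ∑ k, α ρ γ w k = if (S w).Nonempty then 1 else 0 := by
  rcases Nat.lt_trichotomy (S w).card 1 with h | h | h
  · have h1 : S w = ∅ := card_eq_zero.mp (by omega)
    simp [α, h1]
  · obtain ⟨i, hi⟩ := card_eq_one.mp h
    have h1 : ∀ j, j ≠ i → ∃ c, w j = Sum.inl c := by
      intro j hj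
      have h2 : j ∉ S w := by rw [hi]; simpa using hj
      simp only [S, mem_filter, mem_univ, true_and] at h2
      cases h3 : w j with
      | inl c => exact ⟨c, rfl⟩
      | inr b => rw [h3] at h2; simp at h2
    have h2 : ∃ b, w i = Sum.inr b := by
      have h2 : i ∈ S w := by rw [hi]; simp
      simp only [S, mem_filter, mem_univ, true_and] at h2
      cases h3 : w i with
      | inl c => rw [h3] at h2; simp at h2
      | inr b => exact ⟨b, rfl⟩
    obtain ⟨b, hb⟩ := h2
    have hV : Nonempty V := by
      have : 1 ≤ Fintype.card ι := Fintype.card_pos_iff.mpr ⟨i⟩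
      exact Fintype.card_pos_iff.mp (by omega)
    obtain ⟨k₀⟩ := hV
    have h3 : ∀ k, pt ρ w k = update (pt ρ w k₀) i (val ρ k (Sum.inr b)) := by
      intro k
      funext j
      by_cases hj : j = i
      · subst hj
        simp [pt, hb]
      · obtain ⟨c, hc⟩ := h1 j hj
        simp [pt, update_of_ne hj, hc, val]
    simp only [α, hi, card_singleton, if_true, sum_singleton, singleton_nonempty]
    simp only [show ¬ (2 ≤ 1) by norm_num, false_and, if_false, add_zero]
    rw [sum_congr rfl (fun k _ => by rw [h3 k])]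
    cases b
    · exact (Equiv.sum_comp hρ.toPerm (fun u => γ i (update (pt ρ w k₀) i u))).trans (hγ _ _)
    · exact hγ _ _
  · have h1 : (S w).card ≠ 1 := by omega
    have h2 : 2 ≤ (S w).card := h
    have h3 : (S w).Nonempty := card_pos.mp (by omega)
    have h4 : ((E ρ w).card : ℝ) ≠ 0 := by
      exact_mod_cast (card_pos.mpr (E_nonempty ρ hρ hF hd w h2)).ne'
    simp only [α, h1, h2, h3, if_true, if_false, zero_add, true_and]
    rw [← sum_filter, filter_mem_eq_inter, univ_inter, sum_const, nsmul_eq_mul]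
    field_simp

def axis (x : ι → V) (i : ι) (b : Bool) : ι → V ⊕ Bool :=
  update (fun j => Sum.inl (x j)) i (Sum.inr b)

def full (ρ : V → V) (x : ι → V) (k : V) : ι → V ⊕ Bool :=
  fun i => if x i = k then Sum.inr true else if x i = ρ k then Sum.inr false else Sum.inl (x i)

omit [Fintype V] [DecidableEq V] in
theorem S_axis (x : ι → V) (i : ι) (b : Bool) : S (axis x i b) = {i} := by
  ext j
  by_cases hj : j = i
  · subst hj
    simp [S, axis]
  · simp [S, axis, hj]

theorem fiber_one (ρ : V → V) (hρ : Involutive ρ) (γ : ι → (ι → V) → ℝ) (x : ι → V) :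
    ∑ p ∈ univ.filter (fun p : (ι → V ⊕ Bool) × V => pt ρ p.1 p.2 = x),
      (if (S p.1).card = 1 then ∑ i ∈ S p.1, γ i (pt ρ p.1 p.2) else 0) = 2 * ∑ i, γ i x := by
  rw [← sum_filter, filter_filter]
  have h0 : ∀ (i : ι) (b : Bool), pt ρ (axis x i b) (if b = true then x i else ρ (x i)) = x := by
    intro i b
    funext j
    by_cases hj : j = i
    · subst hj
      cases b <;> simp [pt, axis, val, hρ (x j)]
    · simp [pt, axis, val, hj]
  have h1 : 2 * ∑ i, γ i x = ∑ q : ι × Bool, γ q.1 x := by
    rw [Fintype.sum_prod_type]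
    simp [mul_sum]
  rw [h1]
  symm
  refine sum_bij (fun q _ => (axis x q.1 q.2, if q.2 = true then x q.1 else ρ (x q.1)))
    ?_ ?_ ?_ ?_
  · intro q _
    simp only [mem_filter, mem_univ, true_and, S_axis, card_singleton, and_true]
    exact h0 _ _
  · rintro ⟨i, b⟩ _ ⟨j, c⟩ _ h
    have h2 : axis x i b = axis x j c := congrArg Prod.fst h
    have h3 : i = j := by
      have := congrArg S h2
      rw [S_axis, S_axis] at this
      exact singleton_injective this
    subst h3
    have h4 := congrFun h2 i
    simp only [axis, update_self, Sum.inr.injEq] at h4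
    rw [h4]
  · rintro ⟨w, k⟩ hp
    simp only [mem_filter, mem_univ, true_and] at hp
    obtain ⟨hp1, hp2⟩ := hp
    obtain ⟨i, hi⟩ := card_eq_one.mp hp2
    have h2 : ∃ b, w i = Sum.inr b := by
      have h2 : i ∈ S w := by rw [hi]; simp
      simp only [S, mem_filter, mem_univ, true_and] at h2
      cases h3 : w i with
      | inl c => rw [h3] at h2; simp at h2
      | inr b => exact ⟨b, rfl⟩
    obtain ⟨b, hb⟩ := h2
    refine ⟨(i, b), mem_univ _, Prod.ext ?_ ?_⟩
    · funext j
      by_cases hj : j = i
      · subst hj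
        simp [axis, hb]
      · have h2 : j ∉ S w := by rw [hi]; simpa using hj
        simp only [S, mem_filter, mem_univ, true_and] at h2
        cases h3 : w j with
        | inl c => simp [axis, hj, ← hp1, pt, h3, val]
        | inr b => rw [h3] at h2; simp at h2
    · cases b <;> simp [← hp1, pt, hb, val, hρ k]
  · intro q _
    simp only [S_axis, sum_singleton, h0]

theorem fiber_two (ρ : V → V) (hρ : Involutive ρ) (x : ι → V) :
    ∑ p ∈ univ.filter (fun p : (ι → V ⊕ Bool) × V => pt ρ p.1 p.2 = x),
      (if 2 ≤ (S p.1).card ∧ p.2 ∈ E ρ p.1 then (1 : ℝ) / (E ρ p.1).card else 0) = load ρ x := by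
  rw [← sum_filter, filter_filter]
  have h1 : load ρ x = ∑ _k ∈ M ρ x, (1 : ℝ) / ((Z ρ x).card + 2) := by
    rw [load, sum_const, nsmul_eq_mul, mul_one_div]
  have hS : ∀ k, S (full ρ x k) = T ρ x k := by
    intro k
    ext i
    simp only [S, T, full, mem_filter, mem_univ, true_and]
    split_ifs with h h' <;> simp [*]
  have hE : ∀ k, k ≠ ρ k → E ρ (full ρ x k) = Z ρ x ∪ {k, ρ k} := by
    intro k hk
    ext j
    simp only [E, Z, T, mem_filter, mem_univ, true_and, mem_union, mem_insert, mem_singleton,
      card_eq_zero, filter_eq_empty_iff, not_or, forall_const]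
    constructor
    · rintro ⟨h2, h3⟩
      by_cases h4 : j = k ∨ j = ρ k
      · exact Or.inr h4
      · left
        rw [not_or] at h4
        refine ⟨h2, fun i => ?_⟩
        have h5 := h3 i
        unfold full at h5
        split_ifs at h5 with h h'
        · rw [h]
          exact ⟨fun h6 => h4.1 h6.symm, fun h6 => h4.2 (by rw [h6, hρ j])⟩
        · rw [h']
          exact ⟨fun h6 => h4.2 h6.symm, fun h6 => h4.1 (hρ.injective h6).symm⟩
        · simpa using h5
    · rintro (⟨h2, h3⟩ | h2)
      · refine ⟨h2, fun i => ?_⟩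
        unfold full
        split_ifs with h h'
        · simp
        · simp
        · simpa using h3 (x := i)
      · refine ⟨?_, fun i => ?_⟩
        · rcases h2 with rfl | rfl
          · exact hk
          · exact fun h => hk (hρ.injective h)
        · unfold full
          split_ifs with h h'
          · simp
          · simp
          · rcases h2 with rfl | rfl
            · simp [h, h']
            · simp [h, h', hρ k]
  rw [h1]
  symm
  refine sum_bij (fun k _ => (full ρ x k, k)) ?_ ?_ ?_ ?_
  · intro k hk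
    obtain ⟨hk1, hk2⟩ := (mem_filter.mp hk).2
    simp only [mem_filter, mem_univ, true_and, hS, hE k hk1]
    refine ⟨?_, hk2, by simp⟩
    funext i
    simp only [pt, full]
    split_ifs with h h' <;> simp [val, *]
  · intro k _ j _ h
    exact congrArg Prod.snd h
  · rintro ⟨w, k⟩ hp
    simp only [mem_filter, mem_univ, true_and, E] at hp
    obtain ⟨hp1, hp2, hp3, hp4⟩ := hp
    have h2 : full ρ x k = w := by
      funext i
      have h3 := hp4 i
      simp only [full, ← hp1, pt]
      rcases h4 : w i with c | _ | _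
      · rw [h4] at h3
        simp only [ne_eq, Sum.inl.injEq] at h3
        simp [val, h3.1, h3.2]
      · simp [val, Ne.symm hp3]
      · simp [val]
    refine ⟨k, mem_filter.mpr ⟨mem_univ _, hp3, ?_⟩, by rw [h2]⟩
    rw [← hS, h2]
    exact hp2
  · intro k hk
    obtain ⟨hk1, hk2⟩ := (mem_filter.mp hk).2
    have h2 : Disjoint (Z ρ x) {k, ρ k} := by
      rw [disjoint_left]
      intro j hj1 hj2
      have h3 := (mem_filter.mp hj1).2.2
      rcases mem_insert.mp hj2 with rfl | hj2
      · omega
      · rw [mem_singleton.mp hj2] at h3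
        have : T ρ x (ρ k) = T ρ x k := by simp only [T, hρ k, or_comm]
        rw [this] at h3
        omega
    simp only [hE k hk1, card_union_of_disjoint h2, card_pair hk1]
    push_cast
    rfl

theorem fiber_α (ρ : V → V) (hρ : Involutive ρ) (γ : ι → (ι → V) → ℝ) (x : ι → V) :
    ∑ p ∈ univ.filter (fun p : (ι → V ⊕ Bool) × V => pt ρ p.1 p.2 = x), α ρ γ p.1 p.2 =
      2 * ∑ i, γ i x + load ρ x := by
  simp only [α]
  rw [sum_add_distrib, fiber_one ρ hρ, fiber_two ρ hρ]

omit [DecidableEq V] in
theorem card_good : ((univ.filter (fun w : ι → V ⊕ Bool => (S w).Nonempty)).card : ℝ) =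
    (Fintype.card V + 2) ^ Fintype.card ι - Fintype.card V ^ Fintype.card ι := by
  classical
  have h1 := card_filter_add_card_filter_not (s := (univ : Finset (ι → V ⊕ Bool)))
    (fun w => (S w).Nonempty)
  have h2 : (univ.filter (fun w : ι → V ⊕ Bool => ¬ (S w).Nonempty)) =
      univ.image (fun (x : ι → V) (i : ι) => (Sum.inl (x i) : V ⊕ Bool)) := by
    ext w
    simp only [mem_filter, mem_univ, true_and, not_nonempty_iff_eq_empty, mem_image, S,
      filter_eq_empty_iff, forall_const]
    constructor
    · intro h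
      have h3 : ∀ i, ∃ c, Sum.inl c = w i := by
        intro i
        have := h (x := i)
        cases h4 : w i with
        | inl c => exact ⟨c, rfl⟩
        | inr b => rw [h4] at this; simp at this
      choose x hx using h3
      exact ⟨x, funext hx⟩
    · rintro ⟨x, rfl⟩ i
      simp
  rw [h2, card_image_of_injective _ (fun x y h => funext (fun i =>
    Sum.inl_injective (congrFun h i))), card_univ, card_univ, Fintype.card_fun, Fintype.card_fun,
    Fintype.card_sum, Fintype.card_bool] at h1
  have h3 := congrArg (Nat.cast : ℕ → ℝ) h1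
  push_cast at h3
  linarith

theorem exists_sdr [Nonempty V] (ρ : V → V) (hρ : Involutive ρ)
    (hF : (univ.filter (fun k => k = ρ k)).card ≤ 1)
    (hd : 2 * Fintype.card ι ≤ Fintype.card V)
    (hc : (Fintype.card V + 2) ^ Fintype.card ι ≤ 2 * Fintype.card V ^ Fintype.card ι) :
    ∃ g : {w : ι → V ⊕ Bool // (S w).Nonempty} → (ι → V), Injective g ∧
      ∀ w, ∃ k, g w = pt ρ w.1 k := by
  have hV : (0 : ℝ) < Fintype.card V := by exact_mod_cast Fintype.card_pos
  have hX : (0 : ℝ) < Fintype.card (ι → V) := by exact_mod_cast Fintype.card_pos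
  obtain ⟨δ, h1, h2, h3⟩ := decomp (load ρ) (2 / Fintype.card V) (by positivity)
    (load_bound ρ hρ hF hd)
  have h4 : ∑ x : ι → V, (2 * (Fintype.card ι / Fintype.card V) + load ρ x) ≤
      Fintype.card (ι → V) := by
    have h5 := fun x => fiber_α (ι := ι) ρ hρ (fun _ _ => 1 / Fintype.card V) x
    simp only [sum_const, card_univ, nsmul_eq_mul, mul_one_div] at h5
    rw [← sum_congr rfl (fun x _ => h5 x), sum_fiberwise, Fintype.sum_prod_type,
      sum_congr rfl (fun w _ => sum_α ρ hρ hF hd _ (fun i x => by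
        simp only [sum_const, card_univ, nsmul_eq_mul]; field_simp) w), ← sum_filter,
      sum_const, nsmul_eq_mul, mul_one, card_good, Fintype.card_fun]
    have h6 := (Nat.cast_le (α := ℝ)).mpr hc
    push_cast at h6 ⊢
    linarith
  let γ : ι → (ι → V) → ℝ := fun i x => 1 / Fintype.card V - δ i x / 2
  refine frac_hall (fun w => (S w).Nonempty) (pt ρ) (α ρ γ) (α_nonneg ρ γ (fun i x => ?_))
    (fun w hw => ?_) (fun x => ?_)
  · have := h2 i x
    have h5 : 2 / (Fintype.card V : ℝ) = 2 * (1 / Fintype.card V) := by ring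
    simp only [γ]
    linarith
  · rw [sum_α ρ hρ hF hd γ (fun i x => ?_) w, if_pos hw]
    simp only [γ, sum_sub_distrib, ← Finset.sum_div, h1, sum_const, card_univ, nsmul_eq_mul]
    field_simp
    ring
  · rw [fiber_α ρ hρ]
    simp only [γ, sum_sub_distrib, ← Finset.sum_div, h3, sum_const, card_univ, nsmul_eq_mul]
    rw [sum_add_distrib, sum_const, card_univ, nsmul_eq_mul] at h4
    have h5 : (∑ y : ι → V, load ρ y) / Fintype.card (ι → V) ≤
        1 - 2 * (Fintype.card ι / Fintype.card V) := by
      rw [div_le_iff₀ hX]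
      linarith
    have h6 : (Fintype.card ι : ℝ) * 1 / Fintype.card V = Fintype.card ι / Fintype.card V := by
      ring
    rw [h6]
    linarith

end Pool.Agent.H447Z.HJ
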