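import Mathlib

/-!
Peierls bound: in a product probability space, for events `B c` indexed by the cells
`c : ℤ × ℤ × ℤ` that depend on pairwise disjoint finite sets of coordinates and have probability
at most `1 / 250`, a long chain of neighbouring cells whose events all occur is unlikely.
-/

set_option autoImplicit false

open MeasureTheory ProbabilityTheory Filter Topology
open scoped ENNReal

namespace Pool.Agent.H447Z.Maj

section indep

variable {ι : Type} [DecidableEq ι] {A : Type} [Fintype A] [MeasurableSpace A]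
  [DiscreteMeasurableSpace A]

/-- The set `s` depends only on the coordinates in `D`. -/
def Dep (s : Set (ι → A)) (D : Finset ι) : Prop :=
  ∀ x y : ι → A, (∀ i ∈ D, x i = y i) → x ∈ s → y ∈ s

omit [Fintype A] [MeasurableSpace A] [DiscreteMeasurableSpace A] in
theorem Dep.eq_preimage {s : Set (ι → A)} {D : Finset ι} (h : Dep s D) (x₀ : ι → A) :
    s = (fun x (i : D) => x i) ⁻¹' {z : D → A | Function.updateFinset x₀ D z ∈ s} := by
  ext x
  simp only [Set.mem_preimage, Set.mem_ofPred_eq]
  constructor
  · intro hx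
    refine h x _ (fun i hi => ?_) hx
    simp [Function.updateFinset, hi]
  · intro hx
    refine h _ x (fun i hi => ?_) hx
    simp [Function.updateFinset, hi]

theorem Dep.measurableSet {s : Set (ι → A)} {D : Finset ι} (h : Dep s D) : MeasurableSet s := by
  rcases isEmpty_or_nonempty (ι → A) with h0 | ⟨⟨x₀⟩⟩
  · exact Subsingleton.measurableSet
  · rw [h.eq_preimage x₀]
    exact (measurable_pi_lambda _ (fun i => measurable_pi_apply _)) MeasurableSet.of_discrete

omit [DecidableEq ι] [Fintype A] [MeasurableSpace A] [DiscreteMeasurableSpace A] in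
theorem Dep.compl {s : Set (ι → A)} {D : Finset ι} (h : Dep s D) : Dep sᶜ D :=
  fun x y hxy hx hy => hx (h y x (fun i hi => (hxy i hi).symm) hy)

theorem Dep.measure_inter (U : Measure A) [IsProbabilityMeasure U] {s t : Set (ι → A)}
    {D E : Finset ι} (hs : Dep s D) (ht : Dep t E) (hDE : Disjoint D E) :
    Measure.infinitePi (fun _ : ι => U) (s ∩ t) =
      Measure.infinitePi (fun _ : ι => U) s * Measure.infinitePi (fun _ : ι => U) t := by
  have hne : Nonempty A := by
    by_contra h
    rw [not_nonempty_iff] at h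
    have h1 : U Set.univ = 1 := measure_univ
    rw [Set.univ_eq_empty_iff.mpr h, measure_empty] at h1
    exact zero_ne_one h1
  obtain ⟨a⟩ := hne
  have h1 : iIndepFun (fun (i : ι) (ω : ι → A) => ω i) (Measure.infinitePi (fun _ : ι => U)) :=
    iIndepFun_infinitePi (X := fun _ a => a) (fun _ => measurable_id)
  have h2 := h1.indepFun_finset D E hDE (fun i => measurable_pi_apply i)
  have h3 := h2.measure_inter_preimage_eq_mul
    {z : D → A | Function.updateFinset (fun _ => a) D z ∈ s}
    {z : E → A | Function.updateFinset (fun _ => a) E z ∈ t}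
    MeasurableSet.of_discrete MeasurableSet.of_discrete
  rw [← hs.eq_preimage, ← ht.eq_preimage] at h3
  exact h3

theorem measure_biInter_le (U : Measure A) [IsProbabilityMeasure U] {C : Type} [DecidableEq C]
    (B : C → Set (ι → A)) (S : C → Finset ι) (hB : ∀ c, Dep (B c) (S c))
    (hS : ∀ c c', c ≠ c' → Disjoint (S c) (S c')) (p : ℝ≥0∞)
    (hp : ∀ c, Measure.infinitePi (fun _ : ι => U) (B c) ≤ p) (K : Finset C) :
    Measure.infinitePi (fun _ : ι => U) {ω | ∀ c ∈ K, ω ∈ B c} ≤ p ^ K.card := by
  induction K using Finset.induction_on with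
  | empty => simp
  | insert c K hc ih =>
    have h1 : {ω : ι → A | ∀ c' ∈ insert c K, ω ∈ B c'} = B c ∩ {ω | ∀ c' ∈ K, ω ∈ B c'} := by
      ext ω
      simp
    have h2 : Dep {ω : ι → A | ∀ c' ∈ K, ω ∈ B c'} (K.biUnion S) := by
      intro x y hxy hx c' hc'
      exact hB c' x y (fun i hi => hxy i (Finset.mem_biUnion.mpr ⟨c', hc', hi⟩)) (hx c' hc')
    have h3 : Disjoint (S c) (K.biUnion S) := by
      rw [Finset.disjoint_biUnion_right]
      intro c' hc'
      exact hS c c' (by rintro rfl; exact hc hc')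
    rw [h1, (hB c).measure_inter U h2 h3, Finset.card_insert_of_notMem hc, pow_succ']
    exact mul_le_mul' (hp c) ih

end indep

/-- Space-time cells: a time window and a block. -/
abbrev Cell : Type := ℤ × ℤ × ℤ

noncomputable def moves : Finset Cell := Finset.Icc (-2, -2, -2) (2, 2, 2)

theorem card_moves : moves.card = 125 := by
  simp [moves, Finset.Icc_prod_def]

noncomputable def paths : ℕ → Cell → Finset (List Cell)
  | 0, c => {[c]}
  | m + 1, c => moves.biUnion (fun v => (paths m (c + v)).image (fun l => c :: l))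

theorem card_paths (m : ℕ) (c : Cell) : (paths m c).card ≤ 125 ^ m := by
  induction m generalizing c with
  | zero => simp [paths]
  | succ m ih =>
    rw [paths]
    refine Finset.card_biUnion_le.trans ?_
    refine (Finset.sum_le_sum (fun v _ => Finset.card_image_le.trans (ih (c + v)))).trans ?_
    rw [Finset.sum_const, card_moves, smul_eq_mul, pow_succ']

theorem length_paths (m : ℕ) (c : Cell) (l : List Cell) (hl : l ∈ paths m c) :
    l.length = m + 1 := by
  induction m generalizing c l with
  | zero => simp [paths] at hl; simp [hl]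
  | succ m ih =>
    rw [paths, Finset.mem_biUnion] at hl
    obtain ⟨v, -, hv⟩ := hl
    obtain ⟨l', hl', rfl⟩ := Finset.mem_image.mp hv
    simp [ih _ _ hl']

/-- The graph of neighbouring cells of the set `Bad`. -/
def graph (Bad : Cell → Prop) : SimpleGraph Cell where
  Adj c c' := c ≠ c' ∧ c' - c ∈ moves ∧ Bad c ∧ Bad c'
  symm := ⟨by
    rintro c c' ⟨h1, h2, h3, h4⟩
    refine ⟨h1.symm, ?_, h4, h3⟩
    simp only [moves, Finset.mem_Icc, Prod.le_def, Prod.fst_sub, Prod.snd_sub] at h2 ⊢
    omega⟩
  loopless := ⟨fun c h => h.1 rfl⟩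

theorem walk_level (Bad : Cell → Prop) {c c' : Cell} (p : (graph Bad).Walk c c') :
    c.1 ≤ c'.1 + 2 * p.length := by
  induction p with
  | nil => simp
  | cons h p ih =>
    obtain ⟨-, h2, -, -⟩ := h
    simp only [moves, Finset.mem_Icc, Prod.le_def, Prod.fst_sub, Prod.snd_sub] at h2
    simp only [SimpleGraph.Walk.length_cons]
    push_cast
    omega

theorem walk_bad (Bad : Cell → Prop) {c c' : Cell} (p : (graph Bad).Walk c c') (hc : Bad c) :
    ∀ a ∈ p.support, Bad a := by
  induction p with
  | nil => simpa using hc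
  | cons h p ih =>
    intro a ha
    rw [SimpleGraph.Walk.support_cons, List.mem_cons] at ha
    rcases ha with rfl | ha
    · exact hc
    · exact ih h.2.2.2 a ha

theorem walk_take (Bad : Cell → Prop) (m : ℕ) {c c' : Cell} (p : (graph Bad).Walk c c')
    (hm : m ≤ p.length) : p.support.take (m + 1) ∈ paths m c := by
  induction m generalizing c with
  | zero =>
    cases p <;> simp [paths]
  | succ m ih =>
    cases p with
    | nil => simp at hm
    | @cons _ b _ h p =>
      rw [SimpleGraph.Walk.length_cons] at hm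
      rw [SimpleGraph.Walk.support_cons, List.take_succ_cons, paths, Finset.mem_biUnion]
      refine ⟨b - c, h.2.1, Finset.mem_image.mpr ⟨_, ?_, rfl⟩⟩
      have : c + (b - c) = b := by abel
      rw [this]
      exact ih p (by omega)

theorem exists_path (Bad : Cell → Prop) (m : ℕ) {c c' : Cell} (hc : Bad c)
    (h : (graph Bad).Reachable c c') (hm : c'.1 + 2 * m ≤ c.1) :
    ∃ l ∈ paths m c, l.Nodup ∧ ∀ a ∈ l, Bad a := by
  obtain ⟨p, hp⟩ := h.exists_isPath
  have h1 := walk_level Bad p
  refine ⟨p.support.take (m + 1), walk_take Bad m p (by omega), ?_, ?_⟩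
  · exact hp.support_nodup.sublist (List.take_sublist _ _)
  · intro a ha
    exact walk_bad Bad p hc a (List.mem_of_mem_take ha)

theorem peierls {ι : Type} [DecidableEq ι] {A : Type} [Fintype A] [MeasurableSpace A]
    [DiscreteMeasurableSpace A] (U : Measure A) [IsProbabilityMeasure U]
    (B : Cell → Set (ι → A)) (S : Cell → Finset ι) (hB : ∀ c, Dep (B c) (S c))
    (hS : ∀ c c', c ≠ c' → Disjoint (S c) (S c'))
    (hp : ∀ c, Measure.infinitePi (fun _ : ι => U) (B c) ≤ 250⁻¹) (m : ℕ) (c : Cell) :
    Measure.infinitePi (fun _ : ι => U)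
      {ω | ω ∈ B c ∧ ∃ c' : Cell, c'.1 + 2 * m ≤ c.1 ∧
        (graph (fun a => ω ∈ B a)).Reachable c c'} ≤ 2⁻¹ ^ m := by
  classical
  have h1 : {ω : ι → A | ω ∈ B c ∧ ∃ c' : Cell, c'.1 + 2 * m ≤ c.1 ∧
        (graph (fun a => ω ∈ B a)).Reachable c c'} ⊆
      ⋃ l ∈ (paths m c).filter (fun l => l.Nodup), {ω | ∀ a ∈ l.toFinset, ω ∈ B a} := by
    rintro ω ⟨h0, c', h1, h2⟩
    obtain ⟨l, hl, hl1, hl2⟩ := exists_path _ m h0 h2 h1
    simp only [Set.mem_iUnion]
    exact ⟨l, Finset.mem_filter.mpr ⟨hl, hl1⟩, fun a ha => hl2 a (List.mem_toFinset.mp ha)⟩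
  refine (measure_mono h1).trans ((measure_biUnion_finset_le _ _).trans ?_)
  have h2 : ∀ l ∈ (paths m c).filter (fun l => l.Nodup),
      Measure.infinitePi (fun _ : ι => U) {ω | ∀ a ∈ l.toFinset, ω ∈ B a} ≤ 250⁻¹ ^ m := by
    intro l hl
    obtain ⟨hl1, hl2⟩ := Finset.mem_filter.mp hl
    refine (measure_biInter_le U B S hB hS _ hp _).trans ?_
    rw [List.toFinset_card_of_nodup hl2, length_paths m c l hl1]
    exact pow_le_pow_right_of_le_one' (by simp) (Nat.le_succ m)
  refine (Finset.sum_le_sum h2).trans ?_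
  rw [Finset.sum_const, nsmul_eq_mul]
  have h3 : ((((paths m c).filter (fun l => l.Nodup)).card : ℕ) : ℝ≥0∞) ≤ 125 ^ m := by
    exact_mod_cast (Finset.card_filter_le _ _).trans (card_paths m c)
  refine (mul_le_mul_left h3 _).trans ?_
  rw [← mul_pow]
  refine pow_le_pow_left' (le_of_eq ?_) m
  rw [show (250 : ℝ≥0∞) = 125 * 2 by norm_num, ENNReal.mul_inv (by simp) (by simp), ← mul_assoc,
    ENNReal.mul_inv_cancel (by simp) (by simp), one_mul]

end Pool.Agent.H447Z.Maj
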