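import Pool.Agent.H447Z.MajSoft
import Pool.Agent.H447Z.MajPaths

/-!
The coupling of the noisy majority automaton started from two configurations by a common noise
field (`0`: keep, `1`: write `true`, `2`: write `false`), and the bound on the probability of a
disagreement.
-/

set_option autoImplicit false

open MeasureTheory ProbabilityTheory Filter Topology
open scoped ENNReal

namespace Pool.Agent.H447Z.Maj

def hh (a : Bool) (u : Fin 3) : Bool := if u = 1 then true else if u = 2 then false else a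

noncomputable def thetaOf (U : PMF (Fin 3)) (a : Bool) : PMF Bool := U.map (hh a)

abbrev Noise : Type := Site → Fin 3

variable (U : PMF (Fin 3))

noncomputable def P : Measure Noise := Measure.infinitePi (fun _ : Site => U.toMeasure)

instance : IsProbabilityMeasure (P U) := by unfold P; infer_instance

noncomputable def Q : Measure (ℤ → Noise) := Measure.infinitePi (fun _ : ℤ => P U)

instance : IsProbabilityMeasure (Q U) := by unfold Q; infer_instance

def step (z : Config × Noise) : Config := fun i => hh (majority z.1 i) (z.2 i)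

theorem measurable_step : Measurable step := by
  refine measurable_pi_lambda _ (fun i => ?_)
  have h1 : Measurable (fun z : Bool × Fin 3 => hh z.1 z.2) := measurable_of_countable _
  exact h1.comp (((measurable_majority i).comp measurable_fst).prodMk
    ((measurable_pi_apply i).comp measurable_snd))

theorem kernel_eq (x : Config) : kernel (thetaOf U) x = ((P U).map (Prod.mk x)).map step := by
  rw [Measure.map_map measurable_step measurable_prodMk_left]
  have h1 := Measure.infinitePi_map_pi (fun _ : Site => U.toMeasure)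
    (f := fun i u => hh (majority x i) u) (fun i => measurable_of_countable _)
  unfold kernel P
  refine Eq.trans ?_ h1.symm
  congr 1
  funext i
  rw [thetaOf, PMF.toMeasure_map _ _ (measurable_of_countable _)]

theorem measurable_kernel : Measurable (kernel (thetaOf U)) := by
  have : kernel (thetaOf U) = fun x => ((P U).map (Prod.mk x)).map step := funext (kernel_eq U)
  rw [this]
  exact (Measure.measurable_map _ measurable_step).comp Measurable.map_prodMk_left

theorem act_eq (m : Measure Config) [IsProbabilityMeasure m] :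
    act (thetaOf U) m = (m.prod (P U)).map step := by
  ext s hs
  rw [act, Measure.bind_apply hs (measurable_kernel U).aemeasurable,
    Measure.map_apply measurable_step hs, Measure.prod_apply (measurable_step hs)]
  congr 1
  funext x
  rw [kernel_eq, Measure.map_apply measurable_step hs,
    Measure.map_apply measurable_prodMk_left (measurable_step hs)]

def upd (n : ℤ) (z : (ℤ → Noise) × Noise) : ℤ → Noise := Function.update z.1 n z.2

theorem measurable_upd (n : ℤ) : Measurable (upd n) := measurable_update'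

theorem map_upd (n : ℤ) : ((Q U).prod (P U)).map (upd n) = Q U := by
  classical
  refine Measure.eq_infinitePi _ (fun s t ht => ?_)
  rw [Measure.map_apply (measurable_upd n) (MeasurableSet.pi s.countable_toSet (fun i _ => ht i))]
  by_cases hn : n ∈ s
  · have h1 : upd n ⁻¹' (Set.pi s t) = (Set.pi (s.erase n) t) ×ˢ t n := by
      ext z
      simp only [Set.mem_preimage, Set.mem_pi, Finset.mem_coe, Set.mem_prod, Finset.mem_erase, upd]
      constructor
      · intro h
        refine ⟨fun i hi => ?_, ?_⟩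
        · have := h i hi.2
          rwa [Function.update_of_ne hi.1] at this
        · have := h n hn
          rwa [Function.update_self] at this
      · rintro ⟨h1, h2⟩ i hi
        by_cases hi' : i = n
        · subst hi'
          rwa [Function.update_self]
        · rw [Function.update_of_ne hi']
          exact h1 i ⟨hi', hi⟩
    rw [h1, Measure.prod_prod, Q, Measure.infinitePi_pi _ (fun i _ => ht i),
      Finset.prod_erase_mul _ _ hn]
  · have h1 : upd n ⁻¹' (Set.pi s t) = (Set.pi s t) ×ˢ Set.univ := by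
      ext z
      simp only [Set.mem_preimage, Set.mem_pi, Finset.mem_coe, Set.mem_prod, upd, Set.mem_univ,
        and_true]
      refine forall_congr' (fun i => forall_congr' (fun hi => ?_))
      rw [Function.update_of_ne (by rintro rfl; exact hn hi)]
    rw [h1, Measure.prod_prod, Q, Measure.infinitePi_pi _ (fun i _ => ht i), measure_univ, mul_one]

def X (x₀ : Config) : ℕ → (ℤ → Noise) → Config
  | 0, _ => x₀
  | n + 1, ω => step (X x₀ n ω, ω n)

theorem measurable_X (x₀ : Config) (n : ℕ) : Measurable (X x₀ n) := by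
  induction n with
  | zero => exact measurable_const
  | succ n ih => exact measurable_step.comp (ih.prodMk (measurable_pi_apply _))

theorem X_upd (x₀ : Config) (n : ℕ) (m : ℤ) (hm : (n : ℤ) ≤ m) (z : (ℤ → Noise) × Noise) :
    X x₀ n (upd m z) = X x₀ n z.1 := by
  induction n with
  | zero => rfl
  | succ n ih =>
    have h1 : (n : ℤ) ≠ m := by push_cast at hm; omega
    simp only [X]
    rw [ih (by push_cast at hm; omega), upd, Function.update_of_ne h1]

theorem law_X (x₀ : Config) (n : ℕ) :
    (act (thetaOf U))^[n] (Measure.dirac x₀) = (Q U).map (X x₀ n) := by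
  induction n with
  | zero => simp [X]
  | succ n ih =>
    rw [Function.iterate_succ_apply', ih]
    have : IsProbabilityMeasure ((Q U).map (X x₀ n)) :=
      Measure.isProbabilityMeasure_map (measurable_X x₀ n).aemeasurable
    rw [act_eq]
    conv_rhs => rw [← map_upd U n]
    rw [Measure.map_map (measurable_X x₀ (n + 1)) (measurable_upd n)]
    have h2 : ((Q U).map (X x₀ n)).prod (P U) =
        ((Q U).prod (P U)).map (Prod.map (X x₀ n) id) := by
      rw [← Measure.map_prod_map _ _ (measurable_X x₀ n) measurable_id, Measure.map_id]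
    rw [h2, Measure.map_map measurable_step ((measurable_X x₀ n).prodMap measurable_id)]
    congr 1
    funext z
    simp only [Function.comp, X]
    rw [X_upd x₀ n n le_rfl, upd, Function.update_self]
    rfl

/-! ### Blocks and cells -/

noncomputable def block (b : ℤ × ℤ) : Finset Site :=
  Finset.Ico (2 * b.1) (2 * b.1 + 2) ×ˢ Finset.Ico (2 * b.2) (2 * b.2 + 2)

theorem mem_block {b : ℤ × ℤ} {i : Site} :
    i ∈ block b ↔ (2 * b.1 ≤ i.1 ∧ i.1 < 2 * b.1 + 2) ∧ (2 * b.2 ≤ i.2 ∧ i.2 < 2 * b.2 + 2) := by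
  simp [block, Finset.mem_product]

theorem card_block (b : ℤ × ℤ) : (block b).card = 4 := by
  simp [block]

noncomputable def window (L : ℕ) (k : ℤ) : Finset ℤ := Finset.Ico (k * L) (k * L + L)

theorem card_window (L : ℕ) (k : ℤ) : (window L k).card = L := by
  simp [window]

noncomputable def supp (L : ℕ) (c : Cell) : Finset (ℤ × Site) := window L c.1 ×ˢ block c.2

def Bad (L : ℕ) (c : Cell) : Set (ℤ × Site → Fin 3) :=
  {ω | ∃ p ∈ supp L c, ω p = 2} ∪ {ω | ∀ t ∈ window L c.1, ∃ i ∈ block c.2, ω (t, i) ≠ 1}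

theorem dep_Bad (L : ℕ) (c : Cell) : Dep (Bad L c) (supp L c) := by
  rintro x y hxy (⟨p, hp, hx⟩ | hx)
  · exact Or.inl ⟨p, hp, by rw [← hxy p hp, hx]⟩
  · refine Or.inr (fun t ht => ?_)
    obtain ⟨i, hi, hx⟩ := hx t ht
    refine ⟨i, hi, ?_⟩
    rwa [← hxy (t, i) (Finset.mem_product.mpr ⟨ht, hi⟩)]

theorem disjoint_supp (L : ℕ) (c c' : Cell) (h : c ≠ c') : Disjoint (supp L c) (supp L c') := by
  rw [Finset.disjoint_left]
  rintro ⟨t, i⟩ h1 h2
  apply h
  simp only [supp, window, Finset.mem_product, Finset.mem_Ico, mem_block] at h1 h2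
  obtain ⟨⟨h1, h1'⟩, h3⟩ := h1
  obtain ⟨⟨h2, h2'⟩, h4⟩ := h2
  have h5 : c.1 = c'.1 := by
    rcases lt_trichotomy c.1 c'.1 with h6 | h6 | h6
    · have : (c.1 + 1) * (L : ℤ) ≤ c'.1 * L := mul_le_mul_of_nonneg_right h6 (by positivity)
      nlinarith
    · exact h6
    · have : (c'.1 + 1) * (L : ℤ) ≤ c.1 * L := mul_le_mul_of_nonneg_right h6 (by positivity)
      nlinarith
  refine Prod.ext h5 (Prod.ext ?_ ?_) <;> omega

theorem measure_Bad (L : ℕ) (c : Cell) :
    Measure.infinitePi (fun _ : ℤ × Site => U.toMeasure) (Bad L c) ≤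
      (4 * L) * U 2 + (1 - U 1 ^ 4) ^ L := by
  classical
  refine (measure_union_le _ _).trans (add_le_add ?_ ?_)
  · have h1 : {ω : ℤ × Site → Fin 3 | ∃ p ∈ supp L c, ω p = 2} =
        ⋃ p ∈ supp L c, (fun ω : ℤ × Site → Fin 3 => ω p) ⁻¹' {2} := by
      ext ω
      simp
    rw [h1]
    refine (measure_biUnion_finset_le _ _).trans ?_
    have h2 : ∀ p : ℤ × Site, Measure.infinitePi (fun _ : ℤ × Site => U.toMeasure)
        ((fun ω : ℤ × Site → Fin 3 => ω p) ⁻¹' {2}) = U 2 := by
      intro p
      rw [(measurePreserving_eval_infinitePi (fun _ : ℤ × Site => U.toMeasure) p).measure_preimage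
        (MeasurableSet.of_discrete).nullMeasurableSet,
        PMF.toMeasure_apply_singleton _ _ MeasurableSet.of_discrete]
    simp only [h2]
    rw [Finset.sum_const, supp, Finset.card_product, card_window, card_block, nsmul_eq_mul]
    push_cast
    rw [mul_comm (L : ℝ≥0∞) 4]
  · have h1 := measure_biInter_le U.toMeasure
      (fun t : ℤ => {ω : ℤ × Site → Fin 3 | ∃ i ∈ block c.2, ω (t, i) ≠ 1})
      (fun t : ℤ => {t} ×ˢ block c.2) ?_ ?_ (1 - U 1 ^ 4) ?_ (window L c.1)
    · rw [card_window] at h1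
      exact h1
    · rintro t x y hxy ⟨i, hi, hx⟩
      refine ⟨i, hi, ?_⟩
      rwa [← hxy (t, i) (Finset.mem_product.mpr ⟨Finset.mem_singleton_self _, hi⟩)]
    · intro t t' h
      rw [Finset.disjoint_left]
      rintro ⟨s, i⟩ h1 h2
      simp only [Finset.mem_product, Finset.mem_singleton] at h1 h2
      exact h (h1.1.symm.trans h2.1)
    · intro t
      have h2 : {ω : ℤ × Site → Fin 3 | ∃ i ∈ block c.2, ω (t, i) ≠ 1} =
          (Set.pi (({t} ×ˢ block c.2 : Finset (ℤ × Site)) : Set (ℤ × Site))
            (fun _ => ({1} : Set (Fin 3))))ᶜ := by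
        ext ω
        simp only [Set.mem_ofPred_eq, Set.mem_compl_iff, Set.mem_pi, Finset.mem_coe,
          Finset.mem_product, Finset.mem_singleton, Set.mem_singleton_iff]
        constructor
        · rintro ⟨i, hi, h⟩ h'
          exact h (h' (t, i) ⟨rfl, hi⟩)
        · intro h
          by_contra h'
          apply h
          rintro ⟨s, i⟩ ⟨rfl, hi⟩
          by_contra h''
          exact h' ⟨i, hi, h''⟩
      rw [h2, prob_compl_eq_one_sub (MeasurableSet.pi (Finset.countable_toSet _)
        (fun _ _ => MeasurableSet.of_discrete)),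
        Measure.infinitePi_pi _ (fun _ _ => MeasurableSet.of_discrete), Finset.prod_const,
        Finset.card_product, Finset.card_singleton, card_block,
        PMF.toMeasure_apply_singleton _ _ MeasurableSet.of_discrete]

/-! ### The deterministic part -/

theorem majority_block (x : Config) (b : ℤ × ℤ) (hx : ∀ i ∈ block b, x i = true) (i : Site)
    (hi : i ∈ block b) : majority x i = true := by
  rw [majority_eq]
  have h0 : x (i + (0, 0)) = true := hx _ (by
    rw [mem_block] at hi ⊢; simp only [Prod.fst_add, Prod.snd_add]; omega)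
  rw [mem_block] at hi
  have h1 : x (i + (1, 0)) = true ∨ x (i + (-1, 0)) = true := by
    by_cases h : i.1 = 2 * b.1
    · left; apply hx; rw [mem_block]; simp only [Prod.fst_add, Prod.snd_add]; omega
    · right; apply hx; rw [mem_block]; simp only [Prod.fst_add, Prod.snd_add]; omega
  have h2 : x (i + (0, 1)) = true ∨ x (i + (0, -1)) = true := by
    by_cases h : i.2 = 2 * b.2
    · left; apply hx; rw [mem_block]; simp only [Prod.fst_add, Prod.snd_add]; omega
    · right; apply hx; rw [mem_block]; simp only [Prod.fst_add, Prod.snd_add]; omega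
  rw [h0]
  revert h1 h2
  cases x (i + (1, 0)) <;> cases x (i + (-1, 0)) <;>
    cases x (i + (0, 1)) <;> cases x (i + (0, -1)) <;> simp [maj5]

theorem frozen (L : ℕ) (ω : ℤ → Noise) (x : Config) (k : ℕ) (b : ℤ × ℤ)
    (h1 : (fun p : ℤ × Site => ω p.1 p.2) ∉ Bad L (k, b))
    (h2 : (fun p : ℤ × Site => ω p.1 p.2) ∉ Bad L (k + 1, b))
    (n : ℕ) (hn : (k + 1) * L ≤ n) (hn' : n ≤ (k + 2) * L) :
    ∀ i ∈ block b, X x n ω i = true := by
  simp only [Bad, Set.mem_union, Set.mem_ofPred_eq, not_or, not_exists, not_and, not_forall,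
    supp, window, Finset.mem_product, Finset.mem_Ico] at h1 h2
  obtain ⟨h1, t, ⟨ht1, ht2⟩, h3⟩ := h1
  obtain ⟨h2, -⟩ := h2
  have ht0 : 0 ≤ t := le_trans (by positivity) ht1
  obtain ⟨s, rfl⟩ := Int.eq_ofNat_of_zero_le ht0
  have hs1 : k * L ≤ s := by exact_mod_cast ht1
  have hs2 : s < k * L + L := by exact_mod_cast ht2
  have h4 : ∀ m : ℕ, s + 1 ≤ m → m ≤ (k + 2) * L → ∀ i ∈ block b, X x m ω i = true := by
    intro m hm
    induction m, hm using Nat.le_induction with
    | base =>
      intro _ i hi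
      have h5 : ω s i = 1 := by
        by_contra h5
        exact h3 i hi h5
      simp [X, step, hh, h5]
    | succ m hm ih =>
      intro hm' i hi
      have h5 : ω m i ≠ 2 := by
        by_cases h6 : m < k * L + L
        · refine h1 (m, i) ⟨⟨?_, ?_⟩, hi⟩
          · dsimp only
            exact_mod_cast (by omega : k * L ≤ m)
          · dsimp only
            exact_mod_cast h6
        · refine h2 (m, i) ⟨⟨?_, ?_⟩, hi⟩
          · have : (k + 1) * L ≤ m := by nlinarith
            dsimp only
            exact_mod_cast this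
          · have : m < (k + 1) * L + L := by nlinarith
            dsimp only
            exact_mod_cast this
      have h6 := majority_block _ b (ih (by omega)) i hi
      simp [X, step, hh, h5, h6]
  exact h4 n (by nlinarith) hn'

theorem exists_bad (L : ℕ) (hL : 0 < L) (ω : ℤ → Noise) (x y : Config) (n : ℕ) (hn : L ≤ n)
    (i : Site) (h : X x n ω i ≠ X y n ω i) :
    ∃ c : Cell, (fun p : ℤ × Site => ω p.1 p.2) ∈ Bad L c ∧ c.2 = (i.1 / 2, i.2 / 2) ∧
      (c.1 = (n / L : ℕ) ∨ c.1 + 1 = (n / L : ℕ)) := by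
  obtain ⟨k, hk⟩ : ∃ k, n / L = k + 1 := ⟨n / L - 1, by
    have := (Nat.one_le_div_iff hL).mpr hn
    omega⟩
  have h1 : (k + 1) * L ≤ n := by rw [← hk]; exact Nat.div_mul_le_self n L
  have h2 : n ≤ (k + 2) * L := by
    have := Nat.lt_div_mul_add (a := n) hL
    rw [hk] at this
    nlinarith
  have hi : i ∈ block (i.1 / 2, i.2 / 2) := by
    rw [mem_block]; simp only; omega
  by_cases h3 : (fun p : ℤ × Site => ω p.1 p.2) ∈ Bad L (k, (i.1 / 2, i.2 / 2))
  · exact ⟨_, h3, rfl, Or.inr (by rw [hk]; push_cast; rfl)⟩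
  by_cases h4 : (fun p : ℤ × Site => ω p.1 p.2) ∈ Bad L (k + 1, (i.1 / 2, i.2 / 2))
  · exact ⟨_, h4, rfl, Or.inl (by rw [hk]; push_cast; rfl)⟩
  exact absurd ((frozen L ω x k _ h3 h4 n h1 h2 i hi).trans
    (frozen L ω y k _ h3 h4 n h1 h2 i hi).symm) h

theorem exists_parent (ω : ℤ → Noise) (x y : Config) (n : ℕ) (i : Site)
    (h : X x (n + 1) ω i ≠ X y (n + 1) ω i) :
    ∃ j : Site, X x n ω j ≠ X y n ω j ∧ i.1 - 1 ≤ j.1 ∧ j.1 ≤ i.1 + 1 ∧ i.2 - 1 ≤ j.2 ∧
      j.2 ≤ i.2 + 1 := by
  by_contra h1
  apply h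
  have h2 : ∀ j : Site, i.1 - 1 ≤ j.1 → j.1 ≤ i.1 + 1 → i.2 - 1 ≤ j.2 → j.2 ≤ i.2 + 1 →
      X x n ω j = X y n ω j := by
    intro j a b c d
    by_contra h3
    exact h1 ⟨j, h3, a, b, c, d⟩
  simp only [X, step]
  rw [majority_eq, majority_eq, h2 (i + (0, 0)), h2 (i + (1, 0)), h2 (i + (-1, 0)),
    h2 (i + (0, 1)), h2 (i + (0, -1))] <;>
  simp only [Prod.fst_add, Prod.snd_add] <;> omega

theorem exists_chain (L : ℕ) (hL : 0 < L) (ω : ℤ → Noise) (x y : Config) (n : ℕ) (hn : L ≤ n)
    (i : Site) (h : X x n ω i ≠ X y n ω i) :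
    ∃ c : Cell, (fun p : ℤ × Site => ω p.1 p.2) ∈ Bad L c ∧ c.2 = (i.1 / 2, i.2 / 2) ∧
      (c.1 = (n / L : ℕ) ∨ c.1 + 1 = (n / L : ℕ)) ∧ ∃ c' : Cell, c'.1 ≤ 1 ∧
        (graph (fun a => (fun p : ℤ × Site => ω p.1 p.2) ∈ Bad L a)).Reachable c c' := by
  induction n, hn using Nat.le_induction generalizing i with
  | base =>
    obtain ⟨c, h1, h2, h3⟩ := exists_bad L hL ω x y L le_rfl i h
    refine ⟨c, h1, h2, h3, c, ?_, SimpleGraph.Reachable.refl c⟩
    rw [Nat.div_self hL] at h3
    omega
  | succ n hn ih =>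
    obtain ⟨c, h1, h2, h3⟩ := exists_bad L hL ω x y (n + 1) (by omega) i h
    obtain ⟨j, hj, hj1, hj2, hj3, hj4⟩ := exists_parent ω x y n i h
    obtain ⟨d, h4, h5, h6, c', h7, h8⟩ := ih j hj
    refine ⟨c, h1, h2, h3, c', h7, SimpleGraph.Reachable.trans ?_ h8⟩
    by_cases hcd : c = d
    · rw [hcd]
    · refine SimpleGraph.Adj.reachable ⟨hcd, ?_, h1, h4⟩
      have h9 : (n + 1) / L = n / L ∨ (n + 1) / L = n / L + 1 := by
        rw [Nat.succ_div]
        split_ifs
        · exact Or.inr rfl
        · exact Or.inl rfl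
      have h10 : c.2.1 = i.1 / 2 := by rw [h2]
      have h11 : c.2.2 = i.2 / 2 := by rw [h2]
      have h12 : d.2.1 = j.1 / 2 := by rw [h5]
      have h13 : d.2.2 = j.2 / 2 := by rw [h5]
      simp only [moves, Finset.mem_Icc, Prod.le_def, Prod.fst_sub, Prod.snd_sub]
      generalize (n + 1) / L = a at h3 h9
      generalize n / L = b at h6 h9
      omega

theorem disagree_le (L : ℕ) (hL : 0 < L)
    (hp : (4 * L) * U 2 + (1 - U 1 ^ 4) ^ L ≤ 250⁻¹) (x y : Config) (n : ℕ) (i : Site) :
    Q U {ω | X x n ω i ≠ X y n ω i} ≤ 2 * 2⁻¹ ^ ((n / L - 2) / 2) := by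
  classical
  by_cases hn : n / L < 2
  · have : (n / L - 2) / 2 = 0 := by omega
    rw [this, pow_zero, mul_one]
    exact prob_le_one.trans (by norm_num)
  have hn' : L ≤ n := (Nat.one_le_div_iff hL).mp (by omega)
  set m := (n / L - 2) / 2 with hm
  let E : Cell → Set (ℤ × Site → Fin 3) := fun c =>
    {ω | ω ∈ Bad L c ∧ ∃ c' : Cell, c'.1 + 2 * m ≤ c.1 ∧
        (graph (fun a => ω ∈ Bad L a)).Reachable c c'}
  have hE : ∀ c, Measure.infinitePi (fun _ : ℤ × Site => U.toMeasure) (E c) ≤ 2⁻¹ ^ m :=
    fun c => peierls U.toMeasure (Bad L) (supp L) (dep_Bad L) (disjoint_supp L)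
      (fun c => (measure_Bad U L c).trans hp) m c
  have h1 : {ω : ℤ → Noise | X x n ω i ≠ X y n ω i} ⊆
      (MeasurableEquiv.curry ℤ Site (Fin 3)).symm ⁻¹'
        (E (((n / L : ℕ) : ℤ), (i.1 / 2, i.2 / 2)) ∪
          E (((n / L : ℕ) : ℤ) - 1, (i.1 / 2, i.2 / 2))) := by
    intro ω hω
    obtain ⟨c, h1, h2, h3, c', h4, h5⟩ := exists_chain L hL ω x y n hn' i hω
    have h6 : c'.1 + 2 * m ≤ c.1 := by
      generalize n / L = a at h3 hm hn
      omega
    rcases h3 with h3 | h3
    · left
      have : c = (((n / L : ℕ) : ℤ), (i.1 / 2, i.2 / 2)) := Prod.ext h3 h2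
      rw [← this]
      exact ⟨h1, c', h6, h5⟩
    · right
      have : c = (((n / L : ℕ) : ℤ) - 1, (i.1 / 2, i.2 / 2)) :=
        Prod.ext (by simp only; omega) h2
      rw [← this]
      exact ⟨h1, c', h6, h5⟩
  refine (measure_mono h1).trans ?_
  rw [← MeasurableEquiv.map_apply, Q, P,
    Measure.infinitePi_map_curry_symm (fun (_ : ℤ) (_ : Site) => U.toMeasure), two_mul]
  exact (measure_union_le _ _).trans (add_le_add (hE _) (hE _))

theorem ergodic_of_small (L : ℕ) (hL : 0 < L)
    (hp : (4 * L) * U 2 + (1 - U 1 ^ 4) ^ L ≤ 250⁻¹) : IsErgodic (thetaOf U) := by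
  refine ergodic_of_osc _ (measurable_kernel U)
    (fun D n => D.card * (2 * 2⁻¹ ^ ((n / L - 2) / 2))) (fun D => ?_) (fun D u n x y => ?_)
  · have h1 : Tendsto (fun n : ℕ => (n / L - 2) / 2) atTop atTop := by
      refine tendsto_atTop.mpr (fun b => eventually_atTop.mpr ⟨(2 * b + 2) * L, fun n hn => ?_⟩)
      have := (Nat.le_div_iff_mul_le hL).mpr hn
      omega
    have h2 := (ENNReal.tendsto_pow_atTop_nhds_zero_of_lt_one
      (r := 2⁻¹) (by norm_num)).comp h1
    have h3 := ENNReal.Tendsto.const_mul (a := 2) h2 (Or.inr (by simp))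
    have h4 := ENNReal.Tendsto.const_mul (a := (D.card : ℝ≥0∞)) h3 (Or.inr (by simp))
    simpa using h4
  · rw [law_X, law_X, Measure.map_apply (measurable_X x n) (measurableSet_cyl D u),
      Measure.map_apply (measurable_X y n) (measurableSet_cyl D u)]
    have h1 : X x n ⁻¹' cyl D u ⊆ X y n ⁻¹' cyl D u ∪ ⋃ i ∈ D, {ω | X x n ω i ≠ X y n ω i} := by
      intro ω hω
      by_cases h : ∃ i ∈ D, X x n ω i ≠ X y n ω i
      · right
        obtain ⟨i, hi, h⟩ := h
        simp only [Set.mem_iUnion]
        exact ⟨i, hi, h⟩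
      · left
        intro i hi
        have h2 : X x n ω i = X y n ω i := by
          by_contra h2
          exact h ⟨i, hi, h2⟩
        rw [← h2]
        exact hω i hi
    refine (measure_mono h1).trans ((measure_union_le _ _).trans (add_le_add le_rfl ?_))
    refine (measure_biUnion_finset_le _ _).trans ?_
    refine (Finset.sum_le_sum (fun i _ => disagree_le U L hL hp x y n i)).trans ?_
    rw [Finset.sum_const, nsmul_eq_mul]

end Pool.Agent.H447Z.Maj
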