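import Mathlib

/-!
The nearest-neighbour majority cellular automaton on `ℤ²` perturbed by a zero-range noise.
The symbol `1` is `true` and the symbol `0` is `false`.
-/

set_option autoImplicit false

open MeasureTheory Filter Topology

namespace Pool.Agent.H447Z.Maj

/-- Sites of the square lattice. -/
abbrev Site : Type := ℤ × ℤ

/-- Configurations, with the product topology and the product sigma-algebra. -/
abbrev Config : Type := Site → Bool

/-- The neighbourhood `N`: the origin and its four nearest neighbours. -/
def nbhd : Finset Site := {(0, 0), (1, 0), (-1, 0), (0, 1), (0, -1)}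

/-- The majority automaton `F`: `F(x)_i = 1` exactly when at least three of the five sites of
`i + N` hold the symbol `1`. -/
def majority (x : Config) : Config :=
  fun i => decide (3 ≤ (nbhd.filter (fun u => x (i + u) = true)).card)

/-- The transition kernel of the perturbation by the noise `θ`: independently at each site `i`
the symbol `F(x)_i` is replaced by `b` with probability `θ (F(x)_i) b`. -/
noncomputable def kernel (θ : Bool → PMF Bool) (x : Config) : Measure Config :=
  Measure.infinitePi (fun i : Site => (θ (majority x i)).toMeasure)

/-- The action `μ ↦ μ Φ_θ` on measures. -/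
noncomputable def act (θ : Bool → PMF Bool) (μ : Measure Config) : Measure Config :=
  μ.bind (kernel θ)

/-- `π` is an invariant probability measure of `Φ_θ`. -/
def IsInvariant (θ : Bool → PMF Bool) (π : Measure Config) : Prop :=
  IsProbabilityMeasure π ∧ act θ π = π

/-- `Φ_θ` is ergodic: it has a unique invariant probability measure `π`, and `μ Φ_θ^t → π`
weakly for every initial probability measure `μ`. -/
def IsErgodic (θ : Bool → PMF Bool) : Prop :=
  ∃ π : Measure Config, IsInvariant θ π ∧ (∀ π', IsInvariant θ π' → π' = π) ∧
    ∀ μ : Measure Config, IsProbabilityMeasure μ →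
      ∀ f : BoundedContinuousFunction Config ℝ,
        Tendsto (fun t : ℕ => ∫ x, f x ∂((act θ)^[t] μ)) atTop (𝓝 (∫ x, f x ∂π))

end Pool.Agent.H447Z.Maj
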