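import Pool.Agent.H447Z.MajCore

/-!
Choice of the strongly biased noise.
-/

set_option autoImplicit false

open MeasureTheory ProbabilityTheory Filter Topology
open scoped ENNReal NNReal

namespace Pool.Agent.H447Z.Maj

noncomputable def wt (e d : ℝ≥0) (u : Fin 3) : ℝ≥0∞ :=
  if u = 1 then e else if u = 2 then d else ((1 - e - d : ℝ≥0) : ℝ≥0∞)

theorem wt_sum (e d : ℝ≥0) (h : e + d ≤ 1) : ∑ u, wt e d u = 1 := by
  rw [Fin.sum_univ_three]
  simp only [wt, if_true, show (0 : Fin 3) ≠ 1 by decide, show (0 : Fin 3) ≠ 2 by decide,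
    show (2 : Fin 3) ≠ 1 by decide, if_false]
  norm_cast
  rw [add_assoc, tsub_tsub, tsub_add_cancel_of_le h]

noncomputable def noise (e d : ℝ≥0) (h : e + d ≤ 1) : PMF (Fin 3) :=
  PMF.ofFintype (wt e d) (wt_sum e d h)

theorem thetaOf_apply (U : PMF (Fin 3)) (a b : Bool) :
    thetaOf U a b = (if b = a then U 0 else 0) + (if b = true then U 1 else 0) +
      (if b = false then U 2 else 0) := by
  rw [thetaOf, PMF.map_apply, tsum_fintype, Fin.sum_univ_three]
  cases a <;> cases b <;> simp [hh]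

theorem main (ε₀ : ℝ) (hε : 0 < ε₀) :
    ∃ θ : Bool → PMF Bool, (∀ a b, 0 < θ a b) ∧ (∀ a, 1 - (θ a a).toReal ≤ ε₀) ∧ IsErgodic θ := by
  obtain ⟨e, he0, he1, he2⟩ : ∃ e : ℝ≥0, 0 < e ∧ e ≤ 1 / 2 ∧ (e : ℝ) ≤ ε₀ :=
    ⟨min (1 / 2) ⟨ε₀, hε.le⟩, lt_min (by norm_num) hε, min_le_left _ _,
      NNReal.coe_le_coe.mpr (min_le_right _ _)⟩
  have h1 : (1 - (e : ℝ≥0∞) ^ 4) < 1 :=
    ENNReal.sub_lt_self (by simp) (by simp) (pow_ne_zero _ (by simpa using he0.ne'))
  have h2 : ∀ᶠ n : ℕ in atTop, (1 - (e : ℝ≥0∞) ^ 4) ^ n ≤ 500⁻¹ :=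
    (ENNReal.tendsto_pow_atTop_nhds_zero_of_lt_one h1).eventually
      (ge_mem_nhds (a := (500⁻¹ : ℝ≥0∞)) (ENNReal.inv_pos.mpr (by simp)))
  obtain ⟨L, hL1, hL2⟩ := (h2.and (eventually_gt_atTop 0)).exists
  obtain ⟨d, hd0, hd1, hd2⟩ : ∃ d : ℝ≥0, 0 < d ∧ d ≤ e ∧ 4 * L * d ≤ 500⁻¹ := by
    have hL : (0 : ℝ≥0) < L := by exact_mod_cast hL2
    refine ⟨min e (500⁻¹ / (4 * L)), lt_min he0 (by positivity), min_le_left _ _, ?_⟩
    refine (mul_le_mul_right (min_le_right _ _) _).trans (le_of_eq ?_)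
    field_simp
  have h3 : e + d ≤ 1 := by
    refine (add_le_add he1 (hd1.trans he1)).trans (le_of_eq ?_)
    norm_num
  have u0 : noise e d h3 0 = ((1 - e - d : ℝ≥0) : ℝ≥0∞) := by simp [noise, wt]
  have u1 : noise e d h3 1 = e := by simp [noise, wt]
  have u2 : noise e d h3 2 = d := by simp [noise, wt]
  have hc : ((1 - e - d : ℝ≥0) : ℝ) = 1 - e - d := by
    rw [tsub_tsub, NNReal.coe_sub h3]
    push_cast
    ring
  refine ⟨thetaOf (noise e d h3), fun a b => ?_, fun a => ?_, ergodic_of_small _ L hL2 ?_⟩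
  · rw [thetaOf_apply, u1, u2]
    cases b
    · refine lt_of_lt_of_le ?_ le_add_self
      simpa using hd0
    · refine lt_of_lt_of_le ?_ (le_add_self.trans le_self_add)
      simpa using he0
  · rw [thetaOf_apply, u0, u1, u2]
    have hd3 : (d : ℝ) ≤ e := hd1
    cases a
    · simp only [if_true, Bool.false_eq_true, if_false, add_zero]
      rw [← ENNReal.coe_add, ENNReal.coe_toReal, NNReal.coe_add, hc]
      linarith
    · simp only [if_true, Bool.true_eq_false, if_false, add_zero]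
      rw [← ENNReal.coe_add, ENNReal.coe_toReal, NNReal.coe_add, hc]
      linarith
  · rw [u1, u2]
    have h4 : (4 * L : ℝ≥0∞) * d ≤ 500⁻¹ := by
      have h5 := ENNReal.coe_le_coe.mpr hd2
      rw [ENNReal.coe_inv (by norm_num)] at h5
      push_cast at h5
      exact h5
    refine (add_le_add h4 hL1).trans (le_of_eq ?_)
    rw [← two_mul, show (500 : ℝ≥0∞) = 2 * 250 by norm_num, ENNReal.mul_inv (by simp) (by simp),
      ← mul_assoc, ENNReal.mul_inv_cancel (by simp) (by simp), one_mul]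

end Pool.Agent.H447Z.Maj
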