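import Pool.Agent.H447Z.MajDefs

/-!
If the laws at time `t` started from any two configurations give asymptotically the same mass to
every cylinder, uniformly in the two configurations, then the noisy automaton is ergodic.
-/

set_option autoImplicit false

open MeasureTheory ProbabilityTheory Filter Topology
open scoped ENNReal

namespace Pool.Agent.H447Z.Maj

variable (θ : Bool → PMF Bool)

instance kernel_prob (x : Config) : IsProbabilityMeasure (kernel θ x) := by
  unfold kernel; infer_instance

theorem act_prob (hk : Measurable (kernel θ)) (m : Measure Config) [IsProbabilityMeasure m] :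
    IsProbabilityMeasure (act θ m) := by
  constructor
  rw [act, Measure.bind_apply MeasurableSet.univ hk.aemeasurable]
  simp

theorem iter_prob (hk : Measurable (kernel θ)) (t : ℕ) (μ : Measure Config)
    [IsProbabilityMeasure μ] : IsProbabilityMeasure ((act θ)^[t] μ) := by
  induction t with
  | zero => assumption
  | succ t ih => rw [Function.iterate_succ_apply']; exact act_prob θ hk _

/-- The transfer operator. -/
noncomputable def T (g : Config → ℝ≥0∞) (x : Config) : ℝ≥0∞ := ∫⁻ y, g y ∂(kernel θ x)

theorem measurable_T (hk : Measurable (kernel θ)) {g : Config → ℝ≥0∞} (hg : Measurable g) :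
    Measurable (T θ g) :=
  (Measure.measurable_lintegral hg).comp hk

theorem measurable_iter_T (hk : Measurable (kernel θ)) {g : Config → ℝ≥0∞} (hg : Measurable g)
    (t : ℕ) : Measurable ((T θ)^[t] g) := by
  induction t with
  | zero => exact hg
  | succ t ih => rw [Function.iterate_succ_apply']; exact measurable_T θ hk ih

theorem lintegral_iter (hk : Measurable (kernel θ)) (t : ℕ) (μ : Measure Config)
    {g : Config → ℝ≥0∞} (hg : Measurable g) :
    ∫⁻ y, g y ∂((act θ)^[t] μ) = ∫⁻ x, ((T θ)^[t] g) x ∂μ := by
  induction t generalizing g with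
  | zero => rfl
  | succ t ih =>
    rw [Function.iterate_succ_apply', act, Measure.lintegral_bind hk.aemeasurable hg.aemeasurable,
      Function.iterate_succ_apply, ← ih (measurable_T θ hk hg)]
    rfl

theorem iter_apply (hk : Measurable (kernel θ)) (t : ℕ) (μ : Measure Config) {s : Set Config}
    (hs : MeasurableSet s) :
    (act θ)^[t] μ s = ∫⁻ x, ((T θ)^[t] (s.indicator 1)) x ∂μ := by
  rw [← lintegral_iter θ hk t μ (measurable_one.indicator hs), lintegral_indicator_one hs]

theorem iter_dirac (hk : Measurable (kernel θ)) (t : ℕ) (x : Config) {s : Set Config}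
    (hs : MeasurableSet s) :
    (act θ)^[t] (Measure.dirac x) s = ((T θ)^[t] (s.indicator 1)) x := by
  rw [iter_apply θ hk t _ hs,
    lintegral_dirac' _ (measurable_iter_T θ hk (measurable_one.indicator hs) t)]

/-- The cylinder of configurations equal to `u` on the finite set `D`. -/
def cyl (D : Finset Site) (u : Config) : Set Config := {x | ∀ i ∈ D, x i = u i}

theorem cyl_eq_pi (D : Finset Site) (u : Config) : cyl D u = Set.pi D (fun i => {u i}) := by
  ext x
  simp [cyl]

theorem measurableSet_cyl (D : Finset Site) (u : Config) : MeasurableSet (cyl D u) := by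
  rw [cyl_eq_pi]
  exact MeasurableSet.pi D.countable_toSet (fun _ _ => MeasurableSet.of_discrete)

theorem isClopen_cyl (D : Finset Site) (u : Config) : IsClopen (cyl D u) := by
  rw [cyl_eq_pi]
  exact ⟨isClosed_set_pi (fun _ _ => isClosed_discrete _),
    isOpen_set_pi D.finite_toSet (fun _ _ => isOpen_discrete _)⟩

theorem kernel_cyl (x : Config) (D : Finset Site) (u : Config) :
    kernel θ x (cyl D u) = ∏ i ∈ D, θ (majority x i) (u i) := by
  rw [cyl_eq_pi, kernel, Measure.infinitePi_pi _ (fun _ _ => MeasurableSet.of_discrete)]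
  refine Finset.prod_congr rfl (fun i _ => ?_)
  rw [PMF.toMeasure_apply_singleton _ _ MeasurableSet.of_discrete]

/-- The majority of five symbols. -/
def maj5 (z : Bool × Bool × Bool × Bool × Bool) : Bool :=
  decide (3 ≤ z.1.toNat + z.2.1.toNat + z.2.2.1.toNat + z.2.2.2.1.toNat + z.2.2.2.2.toNat)

theorem majority_eq (x : Config) (i : Site) :
    majority x i = maj5 (x (i + (0, 0)), x (i + (1, 0)), x (i + (-1, 0)), x (i + (0, 1)),
      x (i + (0, -1))) := by
  unfold majority maj5 nbhd
  rw [Finset.card_filter, Finset.sum_insert (by decide), Finset.sum_insert (by decide),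
    Finset.sum_insert (by decide), Finset.sum_insert (by decide), Finset.sum_singleton]
  cases x (i + (0, 0)) <;> cases x (i + (1, 0)) <;> cases x (i + (-1, 0)) <;>
    cases x (i + (0, 1)) <;> cases x (i + (0, -1)) <;> rfl

theorem continuous_majority (i : Site) : Continuous (fun x : Config => majority x i) := by
  simp only [majority_eq]
  exact (continuous_of_discreteTopology (f := maj5)).comp (by fun_prop)

theorem measurable_majority (i : Site) : Measurable (fun x : Config => majority x i) :=
  (continuous_majority i).measurable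

theorem weak_of_cyl (μs : ℕ → Measure Config) (hμ : ∀ t, IsProbabilityMeasure (μs t))
    (ν : Measure Config) [IsProbabilityMeasure ν]
    (h : ∀ (D : Finset Site) (u : Config), Tendsto (fun t => μs t (cyl D u)) atTop
      (𝓝 (ν (cyl D u)))) (f : BoundedContinuousFunction Config ℝ) :
    Tendsto (fun t : ℕ => ∫ x, f x ∂(μs t)) atTop (𝓝 (∫ x, f x ∂ν)) := by
  classical
  let S : Set (Set Config) := {s | ∃ D u, s = cyl D u}
  have hS : IsPiSystem S := by
    rintro _ ⟨D, u, rfl⟩ _ ⟨E, v, rfl⟩ ⟨w, hw1, hw2⟩
    refine ⟨D ∪ E, w, ?_⟩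
    ext x
    simp only [cyl, Set.mem_inter_iff, Set.mem_ofPred_eq, Finset.mem_union]
    constructor
    · rintro ⟨h1, h2⟩ i (hi | hi)
      · rw [h1 i hi, hw1 i hi]
      · rw [h2 i hi, hw2 i hi]
    · intro h1
      exact ⟨fun i hi => by rw [h1 i (Or.inl hi), hw1 i hi],
        fun i hi => by rw [h1 i (Or.inr hi), hw2 i hi]⟩
  have h1 := hS.tendsto_probabilityMeasure_of_tendsto_of_mem
    (μ := fun t : ℕ => (⟨μs t, hμ t⟩ : ProbabilityMeasure _))
    (ν := ⟨ν, inferInstance⟩) (l := atTop) ?_ ?_ ?_
  · exact ProbabilityMeasure.tendsto_iff_forall_integral_tendsto.mp h1 f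
  · rintro _ ⟨D, u, rfl⟩
    exact measurableSet_cyl D u
  · intro U hU x hx
    obtain ⟨I, v, h2, h3⟩ := isOpen_pi_iff.mp hU x hx
    refine ⟨cyl I x, ⟨I, x, rfl⟩, (isClopen_cyl I x).isOpen.mem_nhds (fun _ _ => rfl), ?_⟩
    intro y hy
    apply h3
    intro i hi
    rw [hy i hi]
    exact (h2 i hi).2
  · rintro _ ⟨D, u, rfl⟩
    exact (ENNReal.tendsto_toNNReal (measure_ne_top ν _)).comp (h D u)

/-- The function `x ↦ Φ(x, C)` for a cylinder `C`, as a bounded continuous function. -/
noncomputable def kerFun (D : Finset Site) (u : Config) : BoundedContinuousFunction Config ℝ :=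
  BoundedContinuousFunction.mkOfCompact
    ⟨fun x => ∏ i ∈ D, (θ (majority x i) (u i)).toReal,
      continuous_finsetProd _ (fun i _ =>
        (continuous_of_discreteTopology (f := fun a : Bool => (θ a (u i)).toReal)).comp
          (continuous_majority i))⟩

theorem integral_kerFun (hk : Measurable (kernel θ)) (D : Finset Site) (u : Config)
    (m : Measure Config) [IsProbabilityMeasure m] :
    ∫ x, kerFun θ D u x ∂m = (act θ m (cyl D u)).toReal := by
  rw [act, Measure.bind_apply (measurableSet_cyl D u) hk.aemeasurable,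
    ← integral_toReal (f := fun a => kernel θ a (cyl D u))
      (((Measure.measurable_coe (measurableSet_cyl D u)).comp hk).aemeasurable)
      (Eventually.of_forall (fun x => measure_lt_top _ _))]
  congr 1
  funext x
  simp only [kernel_cyl, ENNReal.toReal_prod]
  rfl

theorem ergodic_of_osc (hk : Measurable (kernel θ)) (η : Finset Site → ℕ → ℝ≥0∞)
    (hη : ∀ D, Tendsto (η D) atTop (𝓝 0))
    (h : ∀ (D : Finset Site) (u : Config) (t : ℕ) (x y : Config),
      (act θ)^[t] (Measure.dirac x) (cyl D u) ≤ (act θ)^[t] (Measure.dirac y) (cyl D u) + η D t) :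
    IsErgodic θ := by
  have h2 : ∀ (D : Finset Site) (u : Config) (t : ℕ) (μ ν : Measure Config),
      IsProbabilityMeasure μ → IsProbabilityMeasure ν →
      (act θ)^[t] μ (cyl D u) ≤ (act θ)^[t] ν (cyl D u) + η D t := by
    intro D u t μ ν hμ hν
    have hs := measurableSet_cyl D u
    have hm := measurable_iter_T θ hk (measurable_one.indicator hs) t
    have h' := h D u t
    simp only [iter_dirac θ hk _ _ hs] at h'
    rw [iter_apply θ hk t μ hs, iter_apply θ hk t ν hs]
    have h3 : ∀ x, (T θ)^[t] ((cyl D u).indicator 1) x ≤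
        ∫⁻ y, (T θ)^[t] ((cyl D u).indicator 1) y ∂ν + η D t := by
      intro x
      have h4 := lintegral_mono (μ := ν) (fun y => h' x y)
      rw [lintegral_const, measure_univ, mul_one, lintegral_add_right _ measurable_const,
        lintegral_const, measure_univ, mul_one] at h4
      exact h4
    refine (lintegral_mono h3).trans ?_
    rw [lintegral_const, measure_univ, mul_one]
  let x₀ : Config := fun _ => false
  let μs : ℕ → ProbabilityMeasure Config :=
    fun t => ⟨(act θ)^[t] (Measure.dirac x₀), iter_prob θ hk t _⟩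
  obtain ⟨π, -, hπ⟩ := isCompact_univ.exists_mapClusterPt (f := atTop) (u := μs) (by simp)
  obtain ⟨F, hF, hFπ⟩ := mapClusterPt_iff_ultrafilter.mp hπ
  have h3 : ∀ (D : Finset Site) (u : Config) (ν : Measure Config), IsProbabilityMeasure ν →
      Tendsto (fun t => (act θ)^[t] ν (cyl D u)) atTop (𝓝 ((π : Measure Config) (cyl D u))) := by
    intro D u ν hν
    have h4 := ProbabilityMeasure.tendsto_measure_of_isClopen_of_tendsto hFπ (isClopen_cyl D u)
    have h5 : Tendsto (fun s => (act θ)^[s] (Measure.dirac x₀) (cyl D u)) F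
        (𝓝 ((π : Measure Config) (cyl D u))) := by
      have h6 := ENNReal.tendsto_coe.mpr h4
      simp only [ProbabilityMeasure.ennreal_coeFn_eq_coeFn_toMeasure] at h6
      exact h6
    have h6 : ∀ t : ℕ, ∀ᶠ s in (F : Filter ℕ), ∃ ρ : Measure Config, IsProbabilityMeasure ρ ∧
        (act θ)^[s] (Measure.dirac x₀) = (act θ)^[t] ρ := by
      intro t
      refine hF (eventually_atTop.mpr ⟨t, fun s hs => ?_⟩)
      refine ⟨(act θ)^[s - t] (Measure.dirac x₀), iter_prob θ hk _ _, ?_⟩
      rw [← Function.iterate_add_apply, Nat.add_sub_cancel' hs]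
    have h7 : ∀ t : ℕ, (act θ)^[t] ν (cyl D u) ≤ (π : Measure Config) (cyl D u) + η D t := by
      intro t
      refine ge_of_tendsto (h5.add_const (η D t)) ?_
      filter_upwards [h6 t] with s hs
      obtain ⟨ρ, hρ, hs⟩ := hs
      rw [hs]
      exact h2 D u t ν ρ hν hρ
    have h8 : ∀ t : ℕ, (π : Measure Config) (cyl D u) - η D t ≤ (act θ)^[t] ν (cyl D u) := by
      intro t
      rw [tsub_le_iff_right]
      refine le_of_tendsto h5 ?_
      filter_upwards [h6 t] with s hs
      obtain ⟨ρ, hρ, hs⟩ := hs
      rw [hs]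
      exact h2 D u t ρ ν hρ hν
    refine tendsto_of_tendsto_of_tendsto_of_le_of_le ?_ ?_ h8 h7
    · have := ENNReal.Tendsto.sub (tendsto_const_nhds (x := (π : Measure Config) (cyl D u)))
        (hη D) (Or.inl (measure_ne_top _ _))
      simpa using this
    · simpa using (hη D).const_add ((π : Measure Config) (cyl D u))
  have key : ∀ μ : Measure Config, IsProbabilityMeasure μ →
      ∀ f : BoundedContinuousFunction Config ℝ,
        Tendsto (fun t : ℕ => ∫ x, f x ∂((act θ)^[t] μ)) atTop
          (𝓝 (∫ x, f x ∂(π : Measure Config))) :=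
    fun μ hμ f => weak_of_cyl _ (fun t => iter_prob θ hk t μ) _ (fun D u => h3 D u μ hμ) f
  have hact := act_prob θ hk (π : Measure Config)
  have hinv : act θ (π : Measure Config) = π := by
    refine ext_of_forall_integral_eq_of_IsFiniteMeasure (fun f => ?_)
    have h4 := (key (Measure.dirac x₀) inferInstance f).comp (tendsto_add_atTop_nat 1)
    refine tendsto_nhds_unique ?_ h4
    refine weak_of_cyl (fun t => (act θ)^[t + 1] (Measure.dirac x₀))
      (fun t => iter_prob θ hk _ _) _ (fun D u => ?_) f
    have h5 := key (Measure.dirac x₀) inferInstance (kerFun θ D u)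
    rw [integral_kerFun θ hk] at h5
    have h6 : ∀ t : ℕ, ∫ x, kerFun θ D u x ∂((act θ)^[t] (Measure.dirac x₀)) =
        ((act θ)^[t + 1] (Measure.dirac x₀) (cyl D u)).toReal := by
      intro t
      have := iter_prob θ hk t (Measure.dirac x₀)
      rw [integral_kerFun θ hk, Function.iterate_succ_apply']
    simp only [h6] at h5
    refine (ENNReal.tendsto_toReal_iff (fun t => ?_) (measure_ne_top _ _)).mp h5
    have := iter_prob θ hk (t + 1) (Measure.dirac x₀)
    exact measure_ne_top _ _
  refine ⟨π, ⟨inferInstance, hinv⟩, fun π' hπ' => ?_, key⟩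
  have := hπ'.1
  refine ext_of_forall_integral_eq_of_IsFiniteMeasure (fun f => ?_)
  have h1 := key π' inferInstance f
  simp only [Function.iterate_fixed hπ'.2] at h1
  exact tendsto_nhds_unique tendsto_const_nhds h1

end Pool.Agent.H447Z.Maj
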