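import Pool.Agent.H447Z.RvSwitch

set_option autoImplicit false

namespace H447Z.Rv

open Finset Equiv

variable {α : Type} [Fintype α] [DecidableEq α]

/-- probability of no meeting before time `t` -/
noncomputable def pr (x y : ℕ → α) (t : ℕ) : ℝ :=
  ((av x y t).card : ℝ) / ((Fintype.card α).factorial : ℝ)

omit [DecidableEq α] in
lemma fac_pos : (0 : ℝ) < ((Fintype.card α).factorial : ℝ) := by
  exact_mod_cast Nat.factorial_pos _

lemma pr_nonneg (x y : ℕ → α) (t : ℕ) : 0 ≤ pr x y t := by unfold pr; positivity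

lemma pr_le_one (x y : ℕ → α) (t : ℕ) : pr x y t ≤ 1 := by
  unfold pr
  rw [div_le_one fac_pos, ← Fintype.card_perm]
  exact_mod_cast Finset.card_le_univ _

lemma pr_zero (x y : ℕ → α) : pr x y 0 = 1 := by
  unfold pr
  have : av x y 0 = univ := by ext π; simp [mem_av]
  rw [this, Finset.card_univ, Fintype.card_perm, div_self fac_pos.ne']

lemma pr_symm (x y : ℕ → α) (t : ℕ) : pr x y t = pr y x t := by
  unfold pr; rw [card_av_symm]

lemma pr_mono (x y : ℕ → α) {t t' : ℕ} (h : t ≤ t') : pr x y t' ≤ pr x y t := by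
  unfold pr
  refine div_le_div_of_nonneg_right ?_ fac_pos.le
  have : av x y t' ⊆ av x y t := by
    intro π hπ; rw [mem_av] at hπ ⊢; exact fun u hu => hπ u (by omega)
  exact_mod_cast Finset.card_le_card this

lemma pr_union (x y : ℕ → α) (t : ℕ) : 1 - (t : ℝ) / Fintype.card α ≤ pr x y t := by
  have hn : (0 : ℝ) < Fintype.card α := by
    exact_mod_cast Fintype.card_pos_iff.2 ⟨x 0⟩
  induction t with
  | zero => simp [pr_zero]
  | succ t ih =>
    have h1 := card_av_split x y t
    have h2 : ((av x y t).filter fun π => π (y t) = x t).card ≤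
        (univ.filter fun π : Perm α => π (y t) = x t).card :=
      Finset.card_le_card (Finset.filter_subset_filter _ (Finset.subset_univ _))
    have h3 := one_point (y t) (x t)
    have h4 : (((av x y t).filter fun π => π (y t) = x t).card : ℝ) * Fintype.card α ≤
        (Fintype.card α).factorial := by
      exact_mod_cast (Nat.mul_le_mul_right _ h2).trans h3
    have h5 : pr x y t ≤ pr x y (t + 1) + 1 / Fintype.card α := by
      unfold pr
      rw [h1]; push_cast
      rw [add_div]
      refine add_le_add le_rfl ?_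
      rw [div_le_div_iff₀ fac_pos hn]; linarith
    push_cast
    rw [add_div]; linarith

lemma pr_match (x y : ℕ → α) (t : ℕ) (hx : ∀ u < t, ∀ v < u, x v ≠ x u)
    (hy : ∀ u < t, ∀ v < u, y v ≠ y u) : (1 - 1 / (Fintype.card α : ℝ)) ^ t ≤ pr x y t := by
  have hn1 : 1 ≤ Fintype.card α := Fintype.card_pos_iff.2 ⟨x 0⟩
  have hn : (1 : ℝ) ≤ Fintype.card α := by exact_mod_cast hn1
  induction t with
  | zero => simp [pr_zero]
  | succ t ih =>
    have h1 := ih (fun u hu => hx u (by omega)) (fun u hu => hy u (by omega))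
    have h2 := switch_lower x y t (hx t (by omega)) (hy t (by omega))
    have h3 : ((av x y t).card : ℝ) * (Fintype.card α - 1) ≤
        (av x y (t + 1)).card * Fintype.card α := by
      have : ((Fintype.card α - 1 : ℕ) : ℝ) = Fintype.card α - 1 := by
        rw [Nat.cast_sub hn1]; simp
      rw [← this]; exact_mod_cast h2
    have h4 : pr x y t * (1 - 1 / (Fintype.card α : ℝ)) ≤ pr x y (t + 1) := by
      unfold pr
      rw [div_mul_eq_mul_div]
      refine div_le_div_of_nonneg_right ?_ fac_pos.le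
      have : (1 - 1 / (Fintype.card α : ℝ)) = (Fintype.card α - 1) / Fintype.card α := by
        field_simp
      rw [this, ← mul_div_assoc, div_le_iff₀ (by linarith)]; exact h3
    have h5 : 0 ≤ 1 - 1 / (Fintype.card α : ℝ) := by
      rw [sub_nonneg, div_le_one (by linarith)]; exact hn
    rw [pow_succ]
    exact (mul_le_mul_of_nonneg_right h1 h5).trans h4

lemma pr_step (x y : ℕ → α) (t : ℕ) (hnew : ∀ u < t, ¬ (x u = x t ∧ y u = y t))
    (D : Finset α) (hD : ∀ z ∈ D, ∃ u < t, x u = x t ∧ y u = z) (h2 : 2 ≤ Fintype.card α)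
    (e : ℝ) (he : (t : ℝ) ≤ e * (Fintype.card α * (Fintype.card α - 1))) :
    (D.card : ℝ) + 1 ≤ Fintype.card α ∧
      pr x y (t + 1) * (Fintype.card α - D.card) ≤
        pr x y t * (Fintype.card α - D.card - 1) + e := by
  obtain ⟨b, hb1, hb2, hb3⟩ := switch_upper x y t hnew D hD
  refine ⟨by exact_mod_cast hb2, ?_⟩
  have hn : (2 : ℝ) ≤ Fintype.card α := by exact_mod_cast h2
  have e1 : ((Fintype.card α * Fintype.card α - Fintype.card α : ℕ) : ℝ) =
      Fintype.card α * (Fintype.card α - 1) := by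
    rw [Nat.cast_sub (Nat.le_mul_self _)]; push_cast; ring
  have e2 : ((Fintype.card α - D.card : ℕ) : ℝ) = Fintype.card α - D.card := by
    rw [Nat.cast_sub (by omega)]
  have e3 : ((Fintype.card α - D.card - 1 : ℕ) : ℝ) = Fintype.card α - D.card - 1 := by
    rw [Nat.cast_sub (by omega), e2]; simp
  have c1 : (b : ℝ) * (Fintype.card α * (Fintype.card α - 1)) ≤
      t * (Fintype.card α).factorial := by
    rw [← e1]; exact_mod_cast hb1
  have c3 : ((av x y (t + 1)).card : ℝ) * (Fintype.card α - D.card) ≤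
      (av x y t).card * (Fintype.card α - D.card - 1) + b := by
    rw [← e3, ← e2]; exact_mod_cast hb3
  have hpos : (0 : ℝ) < Fintype.card α * (Fintype.card α - 1) := by
    apply mul_pos <;> linarith
  have c4 : (b : ℝ) ≤ e * (Fintype.card α).factorial := by
    have : (b : ℝ) * (Fintype.card α * (Fintype.card α - 1)) ≤
        (e * (Fintype.card α).factorial) * (Fintype.card α * (Fintype.card α - 1)) := by
      have := mul_le_mul_of_nonneg_right he (fac_pos (α := α)).le
      nlinarith
    exact le_of_mul_le_mul_right this hpos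
  unfold pr
  rw [div_mul_eq_mul_div, div_mul_eq_mul_div, div_add' _ _ _ fac_pos.ne']
  exact div_le_div_of_nonneg_right (by linarith) fac_pos.le

lemma slot_tt (x y : ℕ → α) (t0 h : ℕ)
    (hnew : ∀ s < h, ∀ u < t0 + s, ¬ (x u = x (t0 + s) ∧ y u = y (t0 + s)))
    (h2 : 2 ≤ Fintype.card α) (e : ℝ)
    (he : ((t0 + h : ℕ) : ℝ) ≤ e * (Fintype.card α * (Fintype.card α - 1))) :
    ∀ s ≤ h, pr x y (t0 + s) ≤
      pr x y t0 * (1 - 1 / (Fintype.card α : ℝ)) ^ s + s * (e / Fintype.card α) := by
  have hn : (2 : ℝ) ≤ Fintype.card α := by exact_mod_cast h2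
  have he0 : 0 ≤ e := by
    have hpos : (0 : ℝ) < Fintype.card α * (Fintype.card α - 1) := by
      apply mul_pos <;> linarith
    have : (0 : ℝ) ≤ ((t0 + h : ℕ) : ℝ) := by positivity
    by_contra hc
    nlinarith
  intro s
  induction s with
  | zero => simp
  | succ s ih =>
    intro hs
    have h1 := ih (by omega)
    have h3 := (pr_step x y (t0 + s) (hnew s (by omega)) ∅ (by simp) h2 e
      (le_trans (by exact_mod_cast (by omega)) he)).2
    simp only [card_empty, Nat.cast_zero, sub_zero] at h3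
    have h5 : 0 ≤ 1 - 1 / (Fintype.card α : ℝ) := by
      rw [sub_nonneg, div_le_one (by linarith)]; linarith
    have h6 : 1 - 1 / (Fintype.card α : ℝ) ≤ 1 := by
      have : 0 ≤ 1 / (Fintype.card α : ℝ) := by positivity
      linarith
    have h4 : pr x y (t0 + s + 1) ≤
        pr x y (t0 + s) * (1 - 1 / (Fintype.card α : ℝ)) + e / Fintype.card α := by
      have : pr x y (t0 + s) * (1 - 1 / (Fintype.card α : ℝ)) + e / Fintype.card α =
          (pr x y (t0 + s) * (Fintype.card α - 1) + e) / Fintype.card α := by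
        field_simp
      rw [this, le_div_iff₀ (by linarith)]; exact h3
    have h7 : 0 ≤ (s : ℝ) * (e / Fintype.card α) := by positivity
    rw [← add_assoc, pow_succ]
    push_cast
    have h8 := mul_le_mul_of_nonneg_right h1 h5
    nlinarith

lemma slot_st (x y : ℕ → α) (t0 h : ℕ) (a : α) (hx : ∀ s < h, x (t0 + s) = a)
    (hnew : ∀ s < h, ∀ u < t0 + s, ¬ (x u = x (t0 + s) ∧ y u = y (t0 + s)))
    (D0 : Finset α) (hD0 : ∀ z ∈ D0, ∃ u < t0, x u = a ∧ y u = z)
    (h2 : 2 ≤ Fintype.card α) (e : ℝ)
    (he : ((t0 + h : ℕ) : ℝ) ≤ e * (Fintype.card α * (Fintype.card α - 1))) :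
    ∀ s ≤ h, pr x y (t0 + s) * (Fintype.card α - D0.card) ≤
      pr x y t0 * (Fintype.card α - D0.card - s) + e * s := by
  have hDs : ∀ s ≤ h, ∃ D : Finset α, D.card = D0.card + s ∧
      ∀ z ∈ D, ∃ u < t0 + s, x u = a ∧ y u = z := by
    intro s
    induction s with
    | zero => intro _; exact ⟨D0, rfl, hD0⟩
    | succ s ih =>
      intro hs
      obtain ⟨D, hc, hD⟩ := ih (by omega)
      have hy : y (t0 + s) ∉ D := by
        intro hz
        obtain ⟨u, hu, e1, e2⟩ := hD _ hz
        exact hnew s (by omega) u hu ⟨by rw [e1, hx s (by omega)], e2⟩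
      refine ⟨insert (y (t0 + s)) D, by rw [Finset.card_insert_of_notMem hy, hc]; ring, ?_⟩
      intro z hz
      rcases Finset.mem_insert.1 hz with hz | hz
      · exact ⟨t0 + s, by omega, hx s (by omega), hz.symm⟩
      · obtain ⟨u, hu, e1, e2⟩ := hD z hz
        exact ⟨u, by omega, e1, e2⟩
  intro s
  induction s with
  | zero => simp
  | succ s ih =>
    intro hs
    have h1 := ih (by omega)
    obtain ⟨D, hc, hD⟩ := hDs s (by omega)
    obtain ⟨h3, h4⟩ := pr_step x y (t0 + s) (hnew s (by omega)) D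
      (by rw [hx s (by omega)]; exact hD) h2 e (le_trans (by exact_mod_cast (by omega)) he)
    rw [hc] at h3 h4
    push_cast at h3 h4 ⊢
    set M : ℝ := (Fintype.card α : ℝ) - D0.card with hM
    have e1 : (Fintype.card α : ℝ) - (D0.card + s) = M - s := by rw [hM]; ring
    rw [e1] at h4
    have hMs : 1 ≤ M - s := by rw [hM]; linarith
    have hs0 : (0 : ℝ) ≤ s := by positivity
    have h5 : (pr x y (t0 + s + 1) * M) * (M - s) ≤
        (pr x y t0 * (M - (s + 1)) + e * (s + 1)) * (M - s) := by
      have a1 := mul_le_mul_of_nonneg_right h4 (show 0 ≤ M by linarith)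
      have a2 := mul_le_mul_of_nonneg_right h1 (show 0 ≤ M - s - 1 by linarith)
      nlinarith
    rw [← add_assoc]
    exact le_of_mul_le_mul_right h5 (by linarith)

end H447Z.Rv
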