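import Pool.Agent.H447Z.RvBlock
import Pool.Agent.H447Z.RvSlot

set_option autoImplicit false

namespace H447Z.Rv

open MeasureTheory ENNReal Finset Equiv

variable {n L : ℕ} [NeZero L]

lemma upper_fmeas {ι : Type} [Fintype ι] (w : ι → ℝ) (b : ι → Fin L → Fin n)
    (hw : ∀ i, 0 ≤ w i) (hs : ∑ i, w i = 1) (K : ℝ)
    (h : ∀ π, 0 < 1 - rsurv w b π L ∧ ∑ s ∈ range L, rsurv w b π s ≤ K * (1 - rsurv w b π L)) :
    expTime (blockStrategy L (fmeas w b)) ≤ ENNReal.ofReal K := by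
  rw [expTime_fmeas w b hw hs]
  refine ENNReal.div_le_of_le_mul ?_
  calc _ ≤ ∑ _π : Perm (Fin n), ENNReal.ofReal K := by
        refine Finset.sum_le_sum fun π _ => ?_
        obtain ⟨h1, h2⟩ := h π
        rw [← ENNReal.ofReal_inv_of_pos h1, ← ENNReal.ofReal_mul (by positivity)]
        refine ENNReal.ofReal_le_ofReal ?_
        rw [inv_mul_le_iff₀ h1]; linarith
    _ = _ := by simp [Fintype.card_perm, mul_comm]

lemma lower_fmeas {ι : Type} [Fintype ι] (w : ι → ℝ) (b : ι → Fin L → Fin n)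
    (hw : ∀ i, 0 ≤ w i) (hs : ∑ i, w i = 1) (K : ℝ) (hK : 0 ≤ K) (S : Finset (Perm (Fin n)))
    (h : ∀ π ∈ S, 0 < ∑ s ∈ range L, rsurv w b π s ∧
      K * (1 - rsurv w b π L) ≤ ∑ s ∈ range L, rsurv w b π s) :
    ENNReal.ofReal (K * (S.card / n.factorial)) ≤ expTime (blockStrategy L (fmeas w b)) := by
  rw [expTime_fmeas w b hw hs]
  have hf : (0 : ℝ) < n.factorial := by exact_mod_cast Nat.factorial_pos n
  rw [← mul_div_assoc, ENNReal.ofReal_div_of_pos hf, ENNReal.ofReal_natCast]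
  refine ENNReal.div_le_div_right ?_ _
  calc ENNReal.ofReal (K * S.card) = ∑ _π ∈ S, ENNReal.ofReal K := by
        rw [ENNReal.ofReal_mul hK]; simp [mul_comm]
    _ ≤ ∑ π ∈ S, (ENNReal.ofReal (1 - rsurv w b π L))⁻¹ *
          ENNReal.ofReal (∑ s ∈ range L, rsurv w b π s) := by
        refine Finset.sum_le_sum fun π hπ => ?_
        obtain ⟨h1, h2⟩ := h π hπ
        by_cases h3 : 0 < 1 - rsurv w b π L
        · rw [← ENNReal.ofReal_inv_of_pos h3, ← ENNReal.ofReal_mul (by positivity)]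
          refine ENNReal.ofReal_le_ofReal ?_
          rw [le_inv_mul_iff₀ h3]; linarith
        · rw [ENNReal.ofReal_of_nonpos (not_lt.1 h3), ENNReal.inv_zero,
            ENNReal.top_mul (by simpa using h1)]
          exact le_top
    _ ≤ _ := Finset.sum_le_sum_of_subset (Finset.subset_univ _)

lemma sum_perm (x y : Fin L → Fin n) (π : Perm (Fin n)) (s : ℕ) (hs : s ≤ L) :
    ∑ ρ : Perm (Fin n), ri (∀ t : Fin L, (t : ℕ) < s → x t ≠ π (ρ (y t))) =
      n.factorial * pr (fun u => x (Fin.ofNat L u)) (fun u => y (Fin.ofNat L u)) s := by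
  have hf : (0 : ℝ) < n.factorial := by exact_mod_cast Nat.factorial_pos n
  unfold pr ri
  rw [Fintype.card_fin, mul_div_cancel₀ _ hf.ne',
    @Finset.sum_boole _ _ _ _ (fun _ => Classical.propDecidable _)]
  congr 1
  refine Finset.card_bij (fun ρ _ => π * ρ) ?_ ?_ ?_
  · intro ρ hρ
    simp only [mem_filter, mem_univ, true_and] at hρ
    rw [mem_av]
    intro u hu
    refine hρ _ ?_
    have : ((Fin.ofNat L u : Fin L) : ℕ) = u % L := rfl
    rw [this, Nat.mod_eq_of_lt (by omega)]; exact hu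
  · intro a _ b _ h; exact mul_left_cancel h
  · intro ρ hρ
    refine ⟨π⁻¹ * ρ, ?_, by simp⟩
    rw [mem_av] at hρ
    simp only [mem_filter, mem_univ, true_and]
    intro t ht
    have := hρ t ht
    have e : Fin.ofNat L (t : ℕ) = t := by
      ext; simp [Fin.ofNat, Nat.mod_eq_of_lt t.2]
    simp only [e] at this
    simpa using this

section AW

variable (N : ℕ) [NeZero N]

noncomputable def awW (θ : ℝ) : Option (Perm (Fin N)) → ℝ
  | none => θ
  | some _ => (1 - θ) / N.factorial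

def awB : Option (Perm (Fin N)) → Fin N → Fin N
  | none => fun _ => 0
  | some σ => fun t => σ t

lemma awBlock_eq (θ : ℝ) : awBlock N θ = fmeas (awW N θ) (awB N) := by
  have hf : (0 : ℝ) < N.factorial := by exact_mod_cast Nat.factorial_pos N
  unfold awBlock fmeas
  rw [Fintype.sum_option]
  simp only [awW, awB, ENNReal.ofReal_div_of_pos hf, ENNReal.ofReal_natCast]

omit [NeZero N] in
lemma awW_nonneg {θ : ℝ} (h : θ ∈ Set.Icc (0 : ℝ) 1) : ∀ i, 0 ≤ awW N θ i := by
  rintro (_ | σ)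
  · exact h.1
  · have := h.2
    exact div_nonneg (by linarith) (by positivity)

omit [NeZero N] in
lemma awW_sum (θ : ℝ) : ∑ i, awW N θ i = 1 := by
  have hf : (0 : ℝ) < N.factorial := by exact_mod_cast Nat.factorial_pos N
  rw [Fintype.sum_option]
  simp only [awW, Finset.sum_const, Finset.card_univ, Fintype.card_perm, Fintype.card_fin,
    nsmul_eq_mul]
  field_simp; ring

lemma aw_rsurv (θ : ℝ) (π : Perm (Fin N)) (s : ℕ) (hs : s ≤ N) :
    rsurv (awW N θ) (awB N) π s =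
      θ ^ 2 * ri (∀ t : Fin N, (t : ℕ) < s → (0 : Fin N) ≠ π 0) +
      θ * (1 - θ) * pr (fun _ => (0 : Fin N)) (fun u => Fin.ofNat N u) s +
      θ * (1 - θ) * pr (fun _ => π 0) (fun u => Fin.ofNat N u) s +
      (1 - θ) ^ 2 / N.factorial * ∑ σ : Perm (Fin N),
        pr (fun u => σ (Fin.ofNat N u)) (fun u => Fin.ofNat N u) s := by
  have hf : (0 : ℝ) < N.factorial := by exact_mod_cast Nat.factorial_pos N
  unfold rsurv
  simp only [Fintype.sum_option, awW, awB, Finset.sum_add_distrib, ← Finset.mul_sum]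
  have e1 := sum_perm (fun _ : Fin N => (0 : Fin N)) (fun t => t) π s hs
  have e2 := sum_perm (fun _ : Fin N => π 0) (fun t => t) 1 s hs
  have e3 := fun σ : Perm (Fin N) => sum_perm (fun t : Fin N => σ t) (fun t => t) π s hs
  simp only [Perm.coe_one, id_eq, ne_comm (a := π 0)] at e2
  simp only [e1, e2, e3, ← Finset.mul_sum]
  field_simp
  ring

lemma ofNat_inj {u v : ℕ} (hu : u < N) (hv : v < u) : Fin.ofNat N v ≠ Fin.ofNat N u := by
  intro h
  have := congrArg Fin.val h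
  simp only [Fin.ofNat, Nat.mod_eq_of_lt hu, Nat.mod_eq_of_lt (hv.trans hu)] at this
  omega

/-- ideal survival function of a block -/
noncomputable def gs (θ : ℝ) (s : ℕ) : ℝ :=
  θ ^ 2 + 2 * θ * (1 - θ) * (1 - s / N) + (1 - θ) ^ 2 * (1 - 1 / N) ^ s

lemma aw_lower {θ : ℝ} (h : θ ∈ Set.Icc (0 : ℝ) 1) (π : Perm (Fin N)) (hπ : 0 ≠ π 0) (s : ℕ)
    (hs : s ≤ N) : gs N θ s ≤ rsurv (awW N θ) (awB N) π s := by
  have hf : (0 : ℝ) < N.factorial := by exact_mod_cast Nat.factorial_pos N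
  rw [aw_rsurv N θ π s hs, ri_pos (fun _ _ => hπ)]
  have h1 := pr_union (fun _ => (0 : Fin N)) (fun u => Fin.ofNat N u) s
  have h2 := pr_union (fun _ => π 0) (fun u => Fin.ofNat N u) s
  have h3 : N.factorial * (1 - 1 / (N : ℝ)) ^ s ≤ ∑ σ : Perm (Fin N),
      pr (fun u => σ (Fin.ofNat N u)) (fun u => Fin.ofNat N u) s := by
    calc _ = ∑ _σ : Perm (Fin N), (1 - 1 / (N : ℝ)) ^ s := by simp [Fintype.card_perm]
      _ ≤ _ := by
        refine Finset.sum_le_sum fun σ _ => ?_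
        have := pr_match (fun u => σ (Fin.ofNat N u)) (fun u => Fin.ofNat N u) s
          (fun u hu v hv h => ofNat_inj N (by omega) hv (σ.injective h))
          (fun u hu v hv => ofNat_inj N (by omega) hv)
        simpa using this
  rw [Fintype.card_fin] at h1 h2
  have h4 : 0 ≤ θ * (1 - θ) := mul_nonneg h.1 (by linarith [h.2])
  have h5 : (1 - θ) ^ 2 * (1 - 1 / (N : ℝ)) ^ s ≤ (1 - θ) ^ 2 / N.factorial * ∑ σ : Perm (Fin N),
      pr (fun u => σ (Fin.ofNat N u)) (fun u => Fin.ofNat N u) s := by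
    have := mul_le_mul_of_nonneg_left h3 (show 0 ≤ (1 - θ) ^ 2 / N.factorial by positivity)
    refine le_trans (le_of_eq ?_) this
    field_simp
  unfold gs
  nlinarith [mul_le_mul_of_nonneg_left h1 h4, mul_le_mul_of_nonneg_left h2 h4]

lemma aw_upper {θ : ℝ} (h : θ ∈ Set.Icc (0 : ℝ) 1) (π : Perm (Fin N)) (h2 : 2 ≤ N) (s : ℕ)
    (hs : s ≤ N) : rsurv (awW N θ) (awB N) π s ≤ gs N θ s + 1 / (N - 1) := by
  have hf : (0 : ℝ) < N.factorial := by exact_mod_cast Nat.factorial_pos N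
  have hN : (2 : ℝ) ≤ N := by exact_mod_cast h2
  have hsN : (s : ℝ) ≤ N := by exact_mod_cast hs
  set e : ℝ := 1 / (N - 1) with he
  have he0 : 0 ≤ e := by rw [he]; exact div_nonneg zero_le_one (by linarith)
  have he1 : ((0 + N : ℕ) : ℝ) ≤ e * (Fintype.card (Fin N) * (Fintype.card (Fin N) - 1)) := by
    rw [Fintype.card_fin, he, zero_add]
    have : (N : ℝ) - 1 ≠ 0 := by linarith
    field_simp; rfl
  have hst : ∀ a : Fin N, pr (fun _ => a) (fun u => Fin.ofNat N u) s ≤ 1 - s / N + e := by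
    intro a
    have := slot_st (fun _ => a) (fun u => Fin.ofNat N u) 0 N a (fun _ _ => rfl)
      (fun s hs u hu h => ofNat_inj N (by omega) hu h.2) ∅ (by simp) (by simpa using h2) e he1 s hs
    simp only [zero_add, Fintype.card_fin, card_empty, Nat.cast_zero, sub_zero, pr_zero,
      one_mul] at this
    have h3 : 1 - s / N + e = (N - s + e * N) / N := by field_simp
    rw [h3, le_div_iff₀ (by linarith)]
    nlinarith
  have h3 : ∑ σ : Perm (Fin N), pr (fun u => σ (Fin.ofNat N u)) (fun u => Fin.ofNat N u) s ≤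
      N.factorial * ((1 - 1 / (N : ℝ)) ^ s + e) := by
    calc _ ≤ ∑ _σ : Perm (Fin N), ((1 - 1 / (N : ℝ)) ^ s + e) := by
          refine Finset.sum_le_sum fun σ _ => ?_
          have := slot_tt (fun u => σ (Fin.ofNat N u)) (fun u => Fin.ofNat N u) 0 N
            (fun s hs u hu h => ofNat_inj N (by omega) hu h.2) (by simpa using h2) e he1 s hs
          simp only [zero_add, Fintype.card_fin, pr_zero, one_mul] at this
          have h4 : (s : ℝ) * (e / N) ≤ e := by
            rw [← mul_div_assoc, div_le_iff₀ (by linarith)]; nlinarith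
          linarith
      _ = _ := by simp [Fintype.card_perm]; ring
  rw [aw_rsurv N θ π s hs]
  have h4 : 0 ≤ θ * (1 - θ) := mul_nonneg h.1 (by linarith [h.2])
  have h5 : (1 - θ) ^ 2 / N.factorial * ∑ σ : Perm (Fin N),
      pr (fun u => σ (Fin.ofNat N u)) (fun u => Fin.ofNat N u) s ≤
      (1 - θ) ^ 2 * ((1 - 1 / (N : ℝ)) ^ s + e) := by
    have := mul_le_mul_of_nonneg_left h3 (show 0 ≤ (1 - θ) ^ 2 / N.factorial by positivity)
    refine le_trans this (le_of_eq ?_)
    field_simp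
  have h6 : θ ^ 2 * ri (∀ t : Fin N, (t : ℕ) < s → (0 : Fin N) ≠ π 0) ≤ θ ^ 2 :=
    mul_le_of_le_one_right (by positivity) (ri_le_one _)
  have h7 : 0 ≤ θ ^ 2 * e := by positivity
  unfold gs
  nlinarith [mul_le_mul_of_nonneg_left (hst 0) h4, mul_le_mul_of_nonneg_left (hst (π 0)) h4]

lemma gs_sum (θ : ℝ) : ∑ s ∈ range N, gs N θ s =
    N * (θ + (1 - θ) ^ 2 * (1 - (1 - 1 / N) ^ N)) + θ * (1 - θ) := by
  have hN : (0 : ℝ) < N := by exact_mod_cast NeZero.pos N
  have e1 : ∀ m : ℕ, ∑ s ∈ range m, gs N θ s = m * θ ^ 2 +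
      2 * θ * (1 - θ) * (m - m * (m - 1) / (2 * N)) + (1 - θ) ^ 2 * N * (1 - (1 - 1 / N) ^ m) := by
    intro m
    induction m with
    | zero => simp
    | succ m ih =>
      rw [Finset.sum_range_succ, ih, gs, pow_succ (1 - 1 / (N : ℝ))]
      push_cast
      field_simp
      ring
  rw [e1]
  field_simp
  ring

lemma gs_end (θ : ℝ) : gs N θ N = θ ^ 2 + (1 - θ) ^ 2 * (1 - 1 / N) ^ N := by
  have hN : (0 : ℝ) < N := by exact_mod_cast NeZero.pos N
  unfold gs
  rw [div_self hN.ne']; ring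

end AW

end H447Z.Rv
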