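import Pool.Agent.H447Z.RvDefs

set_option autoImplicit false

namespace H447Z.Rv

open MeasureTheory ENNReal Finset

variable {n : ℕ}

open Classical in
noncomputable def ind (π : Equiv.Perm (Fin n)) (t : ℕ) (x y : ℕ → Fin n) : ℝ≥0∞ :=
  if ∀ u < t, x u ≠ π (y u) then 1 else 0

lemma meetTime_eq (x y : ℕ → Fin n) (π : Equiv.Perm (Fin n)) :
    meetTime x y π = ∑' t, ind π t x y := by
  classical
  by_cases h : ∃ t, x t = π (y t)
  · set m := Nat.find h with hm
    have h1 : meetTime x y π = ((m + 1 : ℕ) : ℝ≥0∞) := by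
      apply le_antisymm
      · exact iInf₂_le m (Nat.find_spec h)
      · refine le_iInf₂ fun t ht => ?_
        have : m ≤ t := Nat.find_min' h ht
        exact_mod_cast Nat.succ_le_succ this
    rw [h1, tsum_eq_sum (s := range (m + 1))]
    · rw [Finset.sum_congr rfl (g := fun _ => (1 : ℝ≥0∞))]
      · simp
      · intro t ht
        rw [Finset.mem_range] at ht
        unfold ind
        rw [if_pos]
        intro u hu
        exact Nat.find_min h (by omega)
    · intro t ht
      rw [Finset.mem_range] at ht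
      unfold ind
      rw [if_neg]
      intro hc
      exact hc m (by omega) (Nat.find_spec h)
  · push Not at h
    have h1 : meetTime x y π = ⊤ := by
      unfold meetTime
      simp [h]
    have h2 : ∀ t, ind π t x y = 1 := by
      intro t; unfold ind; rw [if_pos]; exact fun u _ => h u
    rw [h1]
    simp only [h2]
    exact (ENNReal.tsum_const_eq_top_of_ne_zero one_ne_zero).symm

lemma measurable_ind (π : Equiv.Perm (Fin n)) (t : ℕ) :
    Measurable fun p : (ℕ → Fin n) × (ℕ → Fin n) => ind π t p.1 p.2 := by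
  unfold ind
  refine Measurable.ite ?_ measurable_const measurable_const
  have : {p : (ℕ → Fin n) × (ℕ → Fin n) | ∀ u < t, p.1 u ≠ π (p.2 u)} =
      ⋂ u : ℕ, ⋂ _ : u < t, (fun p : (ℕ → Fin n) × (ℕ → Fin n) => (p.1 u, p.2 u)) ⁻¹'
        {q : Fin n × Fin n | q.1 ≠ π q.2} := by
    ext p; simp
  rw [this]
  refine MeasurableSet.iInter fun u => MeasurableSet.iInter fun _ => ?_
  exact (by fun_prop : Measurable fun p : (ℕ → Fin n) × (ℕ → Fin n) => (p.1 u, p.2 u))
    (Set.toFinite _).measurableSet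

noncomputable def surv (D : Measure (ℕ → Fin n)) (π : Equiv.Perm (Fin n)) (t : ℕ) : ℝ≥0∞ :=
  ∫⁻ x, ∫⁻ y, ind π t x y ∂D ∂D

lemma expTime_eq (D : Measure (ℕ → Fin n)) [SFinite D] :
    expTime D = (∑ π : Equiv.Perm (Fin n), ∑' t, surv D π t) / (n.factorial : ℝ≥0∞) := by
  have m1 : ∀ π t (x : ℕ → Fin n), Measurable fun y => ind π t x y := fun π t x =>
    (measurable_ind π t).comp (measurable_const.prodMk measurable_id)
  have m2 : ∀ π t, Measurable fun x : ℕ → Fin n => ∫⁻ y, ind π t x y ∂D := fun π t =>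
    (measurable_ind π t).lintegral_prod_right'
  unfold expTime surv
  simp only [meetTime_eq, div_eq_mul_inv]
  have e1 : ∀ x : ℕ → Fin n, ∫⁻ y, (∑ π : Equiv.Perm (Fin n), ∑' t, ind π t x y) *
      (n.factorial : ℝ≥0∞)⁻¹ ∂D = (∑ π : Equiv.Perm (Fin n), ∑' t, ∫⁻ y, ind π t x y ∂D) *
      (n.factorial : ℝ≥0∞)⁻¹ := by
    intro x
    rw [lintegral_mul_const _ (Finset.measurable_fun_sum _ fun π _ =>
      Measurable.tsum fun t => m1 π t x),
      lintegral_finsetSum _ fun π _ => Measurable.tsum fun t => m1 π t x]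
    congr 1
    refine Finset.sum_congr rfl fun π _ => ?_
    exact lintegral_tsum fun t => (m1 π t x).aemeasurable
  simp only [e1]
  rw [lintegral_mul_const _ (Finset.measurable_fun_sum _ fun π _ =>
      Measurable.tsum fun t => m2 π t),
      lintegral_finsetSum _ fun π _ => Measurable.tsum fun t => m2 π t]
  congr 1
  refine Finset.sum_congr rfl fun π _ => ?_
  exact lintegral_tsum fun t => (m2 π t).aemeasurable

lemma prod_int {X : Type} [MeasurableSpace X] (μ : Measure X) [IsProbabilityMeasure μ]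
    (s : Finset ℕ) (f : ℕ → X → ℝ≥0∞) (hf : ∀ i, Measurable (f i)) :
    ∫⁻ ω, ∏ i ∈ s, f i (ω i) ∂(Measure.infinitePi fun _ : ℕ => μ) = ∏ i ∈ s, ∫⁻ b, f i b ∂μ := by
  refine (ProbabilityTheory.lintegral_prod_eq_prod_lintegral_of_indepFun
    (μ := Measure.infinitePi fun _ : ℕ => μ) s (fun (i : ℕ) (ω : ℕ → X) => f i (ω i))
    (ProbabilityTheory.iIndepFun_infinitePi hf)
    (fun i => (hf i).comp (measurable_pi_apply i))).trans ?_
  refine Finset.prod_congr rfl fun i _ => ?_
  exact (measurePreserving_eval_infinitePi (fun _ : ℕ => μ) i).lintegral_comp (hf i)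

variable {L : ℕ} [NeZero L]

open Classical in
noncomputable def bind (π : Equiv.Perm (Fin n)) (s : ℕ) (b b' : Fin L → Fin n) : ℝ≥0∞ :=
  if ∀ j : Fin L, (j : ℕ) < s → b j ≠ π (b' j) then 1 else 0

noncomputable def bsurv (μ : Measure (Fin L → Fin n)) (π : Equiv.Perm (Fin n)) (s : ℕ) : ℝ≥0∞ :=
  ∫⁻ b, ∫⁻ b', bind π s b b' ∂μ ∂μ

lemma ind_block (π : Equiv.Perm (Fin n)) (k : ℕ) (s : Fin L) (ω ω' : ℕ → Fin L → Fin n) :
    ind π (k * L + s) (fun t => ω (t / L) (Fin.ofNat L t)) (fun t => ω' (t / L) (Fin.ofNat L t)) =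
      ∏ i ∈ range (k + 1), bind π (if i < k then L else s) (ω i) (ω' i) := by
  have hL : 0 < L := NeZero.pos L
  unfold ind
  split_ifs with h
  · symm
    refine Finset.prod_eq_one fun i hi => ?_
    rw [Finset.mem_range] at hi
    unfold bind
    rw [if_pos]
    intro j hj
    have hlt : i * L + j < k * L + s := by
      split_ifs at hj with hik
      · have : (i + 1) * L ≤ k * L := Nat.mul_le_mul_right _ hik
        have := j.2
        nlinarith
      · have : i = k := by omega
        subst this; omega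
    have := h (i * L + j) hlt
    have e1 : (i * L + j) / L = i := by
      rw [mul_comm, Nat.mul_add_div hL, Nat.div_eq_of_lt j.2]; simp
    have e2 : Fin.ofNat L (i * L + j) = j := by
      ext; simp [Fin.ofNat, Nat.mod_eq_of_lt j.2]
    simp only [e1, e2] at this
    exact this
  · symm
    push Not at h
    obtain ⟨u, hu, h⟩ := h
    have hd := Nat.div_add_mod u L
    have hm := Nat.mod_lt u hL
    have hk : u / L ≤ k := by
      have : u < (k + 1) * L := by have := s.2; nlinarith
      have := (Nat.div_lt_iff_lt_mul hL).2 this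
      omega
    refine Finset.prod_eq_zero (i := u / L) (by rw [Finset.mem_range]; omega) ?_
    unfold bind
    rw [if_neg]
    intro hc
    refine hc (Fin.ofNat L u) ?_ h
    have e : ((Fin.ofNat L u : Fin L) : ℕ) = u % L := rfl
    rw [e]
    split_ifs with hik
    · exact hm
    · have : u / L = k := by omega
      rw [this] at hd
      nlinarith

lemma measurable_sched : Measurable fun (ω : ℕ → Fin L → Fin n) (t : ℕ) =>
    ω (t / L) (Fin.ofNat L t) := by fun_prop

instance (μ : Measure (Fin L → Fin n)) [IsProbabilityMeasure μ] :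
    IsProbabilityMeasure (blockStrategy L μ) :=
  Measure.isProbabilityMeasure_map measurable_sched.aemeasurable

lemma surv_block (μ : Measure (Fin L → Fin n)) [IsProbabilityMeasure μ]
    (π : Equiv.Perm (Fin n)) (k : ℕ) (s : Fin L) :
    surv (blockStrategy L μ) π (k * L + s) = bsurv μ π L ^ k * bsurv μ π s := by
  have m1 : ∀ t (x : ℕ → Fin n), Measurable fun y => ind π t x y := fun t x =>
    (measurable_ind π t).comp (measurable_const.prodMk measurable_id)
  have m2 : ∀ t, Measurable fun x : ℕ → Fin n => ∫⁻ y, ind π t x y ∂(blockStrategy L μ) :=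
    fun t => (measurable_ind π t).lintegral_prod_right'
  unfold surv
  refine (lintegral_map (m2 _) measurable_sched).trans ?_
  have e1 : ∀ ω : ℕ → Fin L → Fin n,
      ∫⁻ y, ind π (k * L + s) (fun t => ω (t / L) (Fin.ofNat L t)) y ∂(blockStrategy L μ) =
      ∏ i ∈ range (k + 1), ∫⁻ b', bind π (if i < k then L else s) (ω i) b' ∂μ := by
    intro ω
    rw [blockStrategy, lintegral_map (m1 _ _) measurable_sched]
    simp only [ind_block]
    exact prod_int μ _ (fun i b' => bind π (if i < k then L else s) (ω i) b')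
      (fun i => measurable_of_finite _)
  simp only [e1]
  rw [prod_int μ _ (fun i b => ∫⁻ b', bind π (if i < k then L else s) b b' ∂μ)
      (fun i => measurable_of_finite _), Finset.prod_range_succ, if_neg (lt_irrefl k)]
  congr 1
  rw [Finset.prod_congr rfl (g := fun _ => bsurv μ π L)]
  · simp
  · intro i hi
    rw [if_pos (Finset.mem_range.1 hi)]; rfl

theorem expTime_block (μ : Measure (Fin L → Fin n)) [IsProbabilityMeasure μ] :
    expTime (blockStrategy L μ) = (∑ π : Equiv.Perm (Fin n),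
      (1 - bsurv μ π L)⁻¹ * ∑ s ∈ range L, bsurv μ π s) / (n.factorial : ℝ≥0∞) := by
  rw [expTime_eq]
  congr 1
  refine Finset.sum_congr rfl fun π _ => ?_
  rw [← (Nat.divModEquiv L).symm.tsum_eq, ENNReal.tsum_prod']
  have : ∀ (k : ℕ) (s : Fin L), surv (blockStrategy L μ) π ((Nat.divModEquiv L).symm (k, s)) =
      bsurv μ π L ^ k * bsurv μ π s := fun k s => surv_block μ π k s
  simp only [this, tsum_fintype, ← Finset.mul_sum]
  rw [ENNReal.tsum_mul_right, ENNReal.tsum_geometric, Finset.sum_range]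

/-- finitely supported block law -/
noncomputable def fmeas {ι : Type} [Fintype ι] (w : ι → ℝ) (b : ι → Fin L → Fin n) :
    Measure (Fin L → Fin n) := ∑ i, ENNReal.ofReal (w i) • Measure.dirac (b i)

omit [NeZero L] in
lemma fmeas_prob {ι : Type} [Fintype ι] (w : ι → ℝ) (b : ι → Fin L → Fin n) (hw : ∀ i, 0 ≤ w i)
    (hs : ∑ i, w i = 1) : IsProbabilityMeasure (fmeas w b) := by
  constructor
  simp only [fmeas, Measure.coe_finsetSum, Finset.sum_apply, Measure.smul_apply, measure_univ,
    smul_eq_mul, mul_one]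
  rw [← ENNReal.ofReal_sum_of_nonneg fun i _ => hw i, hs, ENNReal.ofReal_one]

open Classical in
noncomputable def ri (P : Prop) : ℝ := if P then 1 else 0

lemma ri_nonneg (P : Prop) : 0 ≤ ri P := by unfold ri; split_ifs <;> simp

lemma ri_le_one (P : Prop) : ri P ≤ 1 := by unfold ri; split_ifs <;> simp

lemma ri_pos {P : Prop} (h : P) : ri P = 1 := by unfold ri; rw [if_pos h]

lemma ri_neg {P : Prop} (h : ¬ P) : ri P = 0 := by unfold ri; rw [if_neg h]

noncomputable def rsurv {ι : Type} [Fintype ι] (w : ι → ℝ) (b : ι → Fin L → Fin n)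
    (π : Equiv.Perm (Fin n)) (s : ℕ) : ℝ :=
  ∑ i, ∑ j, w i * w j * ri (∀ t : Fin L, (t : ℕ) < s → b i t ≠ π (b j t))

omit [NeZero L] in
lemma rsurv_nonneg {ι : Type} [Fintype ι] (w : ι → ℝ) (b : ι → Fin L → Fin n) (hw : ∀ i, 0 ≤ w i)
    (π : Equiv.Perm (Fin n)) (s : ℕ) : 0 ≤ rsurv w b π s := by
  unfold rsurv
  refine Finset.sum_nonneg fun i _ => Finset.sum_nonneg fun j _ => ?_
  exact mul_nonneg (mul_nonneg (hw i) (hw j)) (ri_nonneg _)

omit [NeZero L] in
lemma bsurv_fmeas {ι : Type} [Fintype ι] (w : ι → ℝ) (b : ι → Fin L → Fin n) (hw : ∀ i, 0 ≤ w i)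
    (π : Equiv.Perm (Fin n)) (s : ℕ) :
    bsurv (fmeas w b) π s = ENNReal.ofReal (rsurv w b π s) := by
  have key : ∀ f : (Fin L → Fin n) → ℝ≥0∞,
      ∫⁻ c, f c ∂(fmeas w b) = ∑ i, ENNReal.ofReal (w i) * f (b i) := by
    intro f
    simp [fmeas, lintegral_smul_measure, lintegral_dirac]
  unfold bsurv rsurv
  simp only [key]
  rw [ENNReal.ofReal_sum_of_nonneg]
  · refine Finset.sum_congr rfl fun i _ => ?_
    rw [ENNReal.ofReal_sum_of_nonneg, Finset.mul_sum]
    · refine Finset.sum_congr rfl fun j _ => ?_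
      unfold bind
      split_ifs with hh
      · simp [ENNReal.ofReal_mul (hw i), ri_pos hh]
      · simp [ri_neg hh]
    · intro j _
      exact mul_nonneg (mul_nonneg (hw i) (hw j)) (ri_nonneg _)
  · intro i _
    refine Finset.sum_nonneg fun j _ => ?_
    exact mul_nonneg (mul_nonneg (hw i) (hw j)) (ri_nonneg _)

theorem expTime_fmeas {ι : Type} [Fintype ι] (w : ι → ℝ) (b : ι → Fin L → Fin n)
    (hw : ∀ i, 0 ≤ w i) (hs : ∑ i, w i = 1) :
    expTime (blockStrategy L (fmeas w b)) = (∑ π : Equiv.Perm (Fin n),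
      (ENNReal.ofReal (1 - rsurv w b π L))⁻¹ * ENNReal.ofReal (∑ s ∈ range L, rsurv w b π s)) /
        (n.factorial : ℝ≥0∞) := by
  have := fmeas_prob w b hw hs
  rw [expTime_block]
  congr 1
  refine Finset.sum_congr rfl fun π _ => ?_
  simp only [bsurv_fmeas w b hw]
  rw [ENNReal.ofReal_sum_of_nonneg fun s _ => rsurv_nonneg w b hw π s,
    ENNReal.ofReal_sub _ (rsurv_nonneg w b hw π L), ENNReal.ofReal_one]

end H447Z.Rv
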