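import Mathlib

set_option autoImplicit false

namespace H447Z.Rv

open MeasureTheory ENNReal

/-- Meeting time of the schedules `x`, `y` (where `x t` is the label visited at step `t + 1`)
when the labellings differ by `π`; it is `∞` if the players never meet. -/
noncomputable def meetTime {n : ℕ} (x y : ℕ → Fin n) (π : Equiv.Perm (Fin n)) : ℝ≥0∞ :=
  ⨅ (t : ℕ) (_ : x t = π (y t)), ((t + 1 : ℕ) : ℝ≥0∞)

/-- Expected meeting time when both players sample independently from `D` and `π` is uniform. -/
noncomputable def expTime {n : ℕ} (D : Measure (ℕ → Fin n)) : ℝ≥0∞ :=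
  ∫⁻ x, ∫⁻ y, (∑ π : Equiv.Perm (Fin n), meetTime x y π) / (n.factorial : ℝ≥0∞) ∂D ∂D

/-- The strategy made of independent blocks of `L` steps, each block with law `μ`. -/
noncomputable def blockStrategy {n : ℕ} (L : ℕ) [NeZero L] (μ : Measure (Fin L → Fin n)) :
    Measure (ℕ → Fin n) :=
  (Measure.infinitePi fun _ : ℕ => μ).map fun ω t => ω (t / L) (Fin.ofNat L t)

/-- One Anderson-Weber block: with probability `θ` stay at the first label, otherwise visit all
labels in a uniformly random order. -/
noncomputable def awBlock (n : ℕ) [NeZero n] (θ : ℝ) : Measure (Fin n → Fin n) :=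
  ENNReal.ofReal θ • Measure.dirac (fun _ => 0) +
    ∑ σ : Equiv.Perm (Fin n),
      (ENNReal.ofReal (1 - θ) / (n.factorial : ℝ≥0∞)) • Measure.dirac (fun t => σ t)

/-- The best expected meeting time of an Anderson-Weber strategy on `n` locations. -/
noncomputable def awTime (n : ℕ) [NeZero n] : ℝ≥0∞ :=
  ⨅ θ ∈ Set.Icc (0 : ℝ) 1, expTime (blockStrategy n (awBlock n θ))

end H447Z.Rv
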