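import Pool.Agent.H447Z.RvOut

set_option autoImplicit false

namespace H447Z.Rv

open Finset Equiv

def star (P Q : ℕ → Option Bool) (r : ℕ) (j : Bool) (st : ℚ × ℚ) : ℚ × ℚ :=
  if ∃ k < r, P k = none ∧ Q k = some j then (st.1, st.2 + st.1 / 2)
  else if ∃ k < r, P k = none ∧ Q k = some (!j) then
    (1 / 10 ^ 6 * st.1 + 1 / 10 ^ 6, st.2 + ((1 / 4 + 1 / 10 ^ 6) * st.1 + 1 / 10 ^ 6))
  else ((1 / 2 + 1 / 10 ^ 6) * st.1 + 1 / 10 ^ 6, st.2 + ((3 / 8 + 1 / 10 ^ 6) * st.1 + 1 / 10 ^ 6))

def stp (P Q : ℕ → Option Bool) (r : ℕ) (st : ℚ × ℚ) : ℚ × ℚ :=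
  match P r, Q r with
  | none, none => (st.1, st.2 + st.1 / 2)
  | some _, some _ => (60654 / 100000 * st.1 + 1 / 10 ^ 6,
      st.2 + ((1 - 60652 / 100000) * st.1 + 1 / 10 ^ 6))
  | none, some j => star P Q r j st
  | some j, none => star Q P r j st

def ev (P Q : ℕ → Option Bool) : ℕ → ℚ × ℚ
  | 0 => (1, 0)
  | r + 1 => stp P Q r (ev P Q r)

variable {h : ℕ} [Fact h.Prime]

def base (P : ℕ → Option Bool) (s : ZMod h) (t : ℕ) : Option (Bool × ZMod h) :=
  (P (t / h)).map fun j => (j, ((t % h : ℕ) : ZMod h) + ((t / h : ℕ) : ZMod h) * s)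

lemma hpos : 0 < h := (Fact.out : h.Prime).pos

lemma card_lb : Fintype.card (Option (Bool × ZMod h)) = 2 * h + 1 := by
  simp [ZMod.card]

lemma dm1 (r : ℕ) {u : ℕ} (hu : u < h) : (r * h + u) / h = r := by
  rw [mul_comm, Nat.mul_add_div hpos, Nat.div_eq_of_lt hu]; simp

omit [Fact h.Prime] in
lemma dm2 (r : ℕ) {u : ℕ} (hu : u < h) : (r * h + u) % h = u := by
  rw [mul_comm, Nat.mul_add_mod, Nat.mod_eq_of_lt hu]

lemma cast_inj {a b : ℕ} (ha : a < h) (hb : b < h) (e : (a : ZMod h) = b) : a = b := by
  have := congrArg ZMod.val e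
  rwa [ZMod.val_cast_of_lt ha, ZMod.val_cast_of_lt hb] at this

lemma base_some {P : ℕ → Option Bool} {s : ZMod h} {t : ℕ} {j : Bool} {z : ZMod h}
    (e : base P s t = some (j, z)) :
    P (t / h) = some j ∧ ((t % h : ℕ) : ZMod h) + ((t / h : ℕ) : ZMod h) * s = z := by
  unfold base at e
  rcases hP : P (t / h) with _ | i
  · simp [hP] at e
  · simp only [hP, Option.map_some, Option.some.injEq, Prod.mk.injEq] at e
    exact ⟨by rw [e.1], e.2⟩

lemma base_none {P : ℕ → Option Bool} {s : ZMod h} {t : ℕ} (e : base P s t = none) :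
    P (t / h) = none := by
  unfold base at e
  simpa using e

lemma base_at (P : ℕ → Option Bool) (s : ZMod h) (r : ℕ) {u : ℕ} (hu : u < h) :
    base P s (r * h + u) = (P r).map fun j => (j, (u : ZMod h) + (r : ZMod h) * s) := by
  unfold base; rw [dm1 r hu, dm2 r hu]

lemma div_le_of {r u v : ℕ} (hu : u < h) (hv : v < r * h + u) : v / h ≤ r := by
  have : v < (r + 1) * h := by nlinarith
  have := (Nat.div_lt_iff_lt_mul hpos).2 this
  omega

lemma same_slot {r u v : ℕ} (hu : u < h) (hv : v < r * h + u) (e1 : v / h = r)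
    (e2 : ((v % h : ℕ) : ZMod h) = u) : False := by
  have := cast_inj (Nat.mod_lt v hpos) hu e2
  have h2 := Nat.div_add_mod v h
  rw [e1, this] at h2
  nlinarith

lemma new_tt (P Q : ℕ → Option Bool) (s s' : ZMod h) (hs : s ≠ s') (r : ℕ) (hr : r < h)
    {i j : Bool} (hP : P r = some i) (hQ : Q r = some j) :
    ∀ u < h, ∀ v < r * h + u,
      ¬ (base P s v = base P s (r * h + u) ∧ base Q s' v = base Q s' (r * h + u)) := by
  rintro u hu v hv ⟨e1, e2⟩
  rw [base_at _ _ _ hu, hP] at e1
  rw [base_at _ _ _ hu, hQ] at e2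
  have a1 := (base_some e1).2
  have a2 := (base_some e2).2
  have a3 : (((v / h : ℕ) : ZMod h) - r) * (s - s') = 0 := by linear_combination a1 - a2
  have a4 : ((v / h : ℕ) : ZMod h) = r := by
    rcases mul_eq_zero.1 a3 with a | a
    · exact sub_eq_zero.1 a
    · exact absurd (sub_eq_zero.1 a) hs
  have a5 := div_le_of hu hv
  have a6 := cast_inj (by omega) hr a4
  refine same_slot hu hv a6 ?_
  rw [a4] at a1
  exact add_right_cancel a1

lemma new_st (P Q : ℕ → Option Bool) (s s' : ZMod h) (r : ℕ)
    {j : Bool} (hP : P r = none) (hQ : Q r = some j) (hn : ¬ ∃ k < r, P k = none ∧ Q k = some j) :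
    ∀ u < h, ∀ v < r * h + u,
      ¬ (base P s v = base P s (r * h + u) ∧ base Q s' v = base Q s' (r * h + u)) := by
  rintro u hu v hv ⟨e1, e2⟩
  rw [base_at _ _ _ hu, hP] at e1
  rw [base_at _ _ _ hu, hQ] at e2
  have a1 := base_none e1
  obtain ⟨a2, a3⟩ := base_some e2
  have a5 := div_le_of hu hv
  have a6 : v / h = r := by
    by_contra hc
    exact hn ⟨v / h, by omega, a1, a2⟩
  refine same_slot hu hv a6 ?_
  rw [a6] at a3
  exact add_right_cancel a3

lemma star_sound (hb : Big h) (P Q : ℕ → Option Bool) (s s' : ZMod h) (r : ℕ) (hr : r < 6)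
    {j : Bool} (hP : P r = none) (hQ : Q r = some j) (st : ℚ × ℚ)
    (hF : pr (base P s) (base Q s') (r * h) ≤ st.1) :
    pr (base P s) (base Q s') (r * h + h) ≤ (star P Q r j st).1 ∧
      ∑ u ∈ range h, pr (base P s) (base Q s') (r * h + u) ≤
        (2 * h + 1) * ((star P Q r j st).2 - st.2) := by
  have ht : r * h + h ≤ 6 * h := by nlinarith
  have hx : ∀ u < h, base P s (r * h + u) = none := by
    intro u hu; rw [base_at _ _ _ hu, hP]; rfl
  unfold star
  split_ifs with c1 c2
  · have := out_ss (base P s) (base Q s') (r * h) h _ hF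
    simpa using this
  · obtain ⟨k, hk, p1, p2⟩ := c2
    have := out_st1 (base P s) (base Q s') (r * h) h hb card_lb ht none hx
      (new_st P Q s s' r hP hQ c1) (univ.image fun z : ZMod h => some (!j, z)) ?_ ?_ _ hF
    · push_cast
      refine ⟨this.1, this.2.trans (le_of_eq ?_)⟩
      ring
    · intro z hz
      obtain ⟨z, -, rfl⟩ := Finset.mem_image.1 hz
      have hv : (z - k * s').val < h := ZMod.val_lt _
      refine ⟨k * h + (z - k * s').val, by nlinarith, ?_, ?_⟩
      · rw [base_at _ _ _ hv, p1]; rfl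
      · rw [base_at _ _ _ hv, p2]; simp
    · rw [Finset.card_image_of_injective _ (fun a b e => by simpa using e)]
      simp [ZMod.card]
  · have := out_st0 (base P s) (base Q s') (r * h) h hb card_lb ht none hx
      (new_st P Q s s' r hP hQ c1) _ hF
    push_cast
    refine ⟨this.1, this.2.trans (le_of_eq ?_)⟩
    ring

lemma ev_sound (hb : Big h) (P Q : ℕ → Option Bool) (s s' : ZMod h) (hs : s ≠ s') :
    ∀ r ≤ 6, pr (base P s) (base Q s') (r * h) ≤ (ev P Q r).1 ∧
      ∑ t ∈ range (r * h), pr (base P s) (base Q s') t ≤ (2 * h + 1) * (ev P Q r).2 := by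
  intro r
  induction r with
  | zero => intro _; simp [ev, pr_zero]
  | succ r ih =>
    intro hr
    obtain ⟨h1, h2⟩ := ih (by omega)
    have key : pr (base P s) (base Q s') (r * h + h) ≤ (stp P Q r (ev P Q r)).1 ∧
        ∑ u ∈ range h, pr (base P s) (base Q s') (r * h + u) ≤
          (2 * h + 1) * ((stp P Q r (ev P Q r)).2 - (ev P Q r).2) := by
      unfold stp
      rcases hP : P r with _ | i <;> rcases hQ : Q r with _ | j
      · have := out_ss (base P s) (base Q s') (r * h) h _ h1
        simpa using this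
      · exact star_sound hb P Q s s' r (by omega) hP hQ _ h1
      · simp only [pr_symm (base P s)] at h1 ⊢
        exact star_sound hb Q P s' s r (by omega) hQ hP _ h1
      · have := out_tt (base P s) (base Q s') (r * h) h hb card_lb (by nlinarith)
          (new_tt P Q s s' hs r (by have := hb.1; omega) hP hQ) _ h1
        push_cast
        refine ⟨this.1.trans (le_of_eq (by ring)), this.2.trans (le_of_eq (by ring))⟩
    rw [add_mul, one_mul, Finset.sum_range_add, ev]
    exact ⟨key.1, by linarith [key.2]⟩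

def tyL : Fin 9 → List (Option Bool) :=
  ![[some false, some true, some false, some true, some false, some true],
    [some false, some true, some false, some true, none, none],
    [none, none, some false, some true, some true, some false],
    [some false, some true, none, none, some false, some true],
    [none, none, none, none, some false, some true],
    [none, none, some false, some true, none, none],
    [some false, some true, none, none, none, none],
    [none, none, none, none, none, none],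
    [some false, none, none, some true, none, some true]]

def ty (i : Fin 9) (r : ℕ) : Option Bool := (tyL i).getD r none

def W : Fin 9 → ℚ :=
  ![4257 / 10000, 1400 / 10000, 1391 / 10000, 1390 / 10000, 449 / 10000, 436 / 10000,
    388 / 10000, 149 / 10000, 140 / 10000]

lemma W_sum : ∑ i, W i = 1 := by decide +kernel

lemma W_nonneg : ∀ i, 0 ≤ W i := by decide +kernel

lemma W_F : ∑ i, ∑ j, W i * W j * (ev (ty i) (ty j) 6).1 ≤ 19337 / 1000000 := by decide +kernel

lemma W_T : ∑ i, ∑ j, W i * W j * (ev (ty i) (ty j) 6).2 ≤ 812754 / 1000000 := by decide +kernel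

end H447Z.Rv
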