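import Pool.Agent.H447Z.RvAW

set_option autoImplicit false

namespace H447Z.Rv

open MeasureTheory ENNReal Finset Equiv Filter Topology

noncomputable def num (θ u : ℝ) : ℝ := θ + (1 - θ) ^ 2 * (1 - u)
noncomputable def den (θ u : ℝ) : ℝ := 1 - θ ^ 2 - (1 - θ) ^ 2 * u
noncomputable def cAW : ℝ :=
  sInf ((fun θ => num θ (Real.exp (-1)) / den θ (Real.exp (-1))) '' Set.Ico (0 : ℝ) 1)

lemma den_pos {θ : ℝ} (h : θ ∈ Set.Ico (0 : ℝ) 1) : 0 < den θ (Real.exp (-1)) := by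
  have h1 := Real.exp_neg_one_lt_d9
  have h2 := Real.exp_neg_one_gt_d9
  obtain ⟨h3, h4⟩ := h
  have : den θ (Real.exp (-1)) = (1 - θ) * (1 + θ - (1 - θ) * Real.exp (-1)) := by
    unfold den; ring
  rw [this]
  apply _root_.mul_pos (by linarith)
  nlinarith

lemma low_quad (θ : ℝ) : 0.82885 * den θ (Real.exp (-1)) ≤ num θ (Real.exp (-1)) := by
  have h1 := Real.exp_neg_one_lt_d9
  unfold num den
  have h2 : (1 - θ) ^ 2 * Real.exp (-1) ≤ (1 - θ) ^ 2 * 0.3678794412 :=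
    mul_le_mul_of_nonneg_left h1.le (sq_nonneg _)
  nlinarith [sq_nonneg (θ - 0.2475)]

lemma cAW_bdd : ∀ y ∈ ((fun θ => num θ (Real.exp (-1)) / den θ (Real.exp (-1))) ''
    Set.Ico (0 : ℝ) 1), 0.82885 ≤ y := by
  rintro y ⟨θ, hθ, rfl⟩
  exact (le_div_iff₀ (den_pos hθ)).2 (low_quad θ)

lemma cAW_ge : 0.82885 ≤ cAW :=
  le_csInf ⟨_, 0, by simp, rfl⟩ cAW_bdd

lemma cAW_mul {θ : ℝ} (h : θ ∈ Set.Icc (0 : ℝ) 1) :
    cAW * den θ (Real.exp (-1)) ≤ num θ (Real.exp (-1)) := by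
  rcases eq_or_lt_of_le h.2 with h1 | h1
  · subst h1; simp [num, den]
  · have h2 : θ ∈ Set.Ico (0 : ℝ) 1 := ⟨h.1, h1⟩
    exact (le_div_iff₀ (den_pos h2)).1 (csInf_le ⟨_, cAW_bdd⟩ ⟨θ, h2, rfl⟩)

lemma cAW_le : cAW ≤ 1 := by
  have h := cAW_mul (θ := 0) (by simp)
  have h1 := Real.exp_neg_one_lt_d9
  simp only [num, den] at h
  nlinarith

lemma tendsto_u : Tendsto (fun n : ℕ => (1 - 1 / ((n + 1 : ℕ) : ℝ)) ^ (n + 1)) atTop
    (𝓝 (Real.exp (-1))) := by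
  have := (Real.tendsto_one_add_div_pow_exp (-1)).comp (tendsto_add_atTop_nat 1)
  refine this.congr fun n => ?_
  simp only [Function.comp]
  congr 1
  ring

lemma aw_ev_lower (c : ℝ) (h0 : 0 ≤ c) (hc : c < cAW) :
    ∀ᶠ n : ℕ in atTop, ENNReal.ofReal (c * ((n + 1 : ℕ) : ℝ)) ≤ awTime (n + 1) := by
  set c2 := (c + cAW) / 2 with hc2
  have hle := cAW_le
  have hη : 0 < (cAW - c2) / 8 := by rw [hc2]; linarith
  have e1 := (Metric.tendsto_nhds.1 tendsto_u) _ hη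
  have e2 : ∀ᶠ n : ℕ in atTop, 1 / (c2 - c) ≤ (n : ℝ) :=
    tendsto_natCast_atTop_atTop.eventually_ge_atTop _
  filter_upwards [e1, e2] with n h1 h2
  set N := n + 1 with hN
  set u := (1 - 1 / (N : ℝ)) ^ N with hu
  rw [Real.dist_eq, abs_lt] at h1
  have hN0 : (0 : ℝ) < N := by positivity
  have hc20 : 0 ≤ c2 := by rw [hc2]; linarith
  refine le_iInf₂ fun θ hθ => ?_
  rw [awBlock_eq]
  have hq : c2 * den θ u ≤ num θ u ∧ 0 < num θ u := by
    have a1 := cAW_mul hθ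
    have a2 := Real.exp_neg_one_lt_d9
    have a3 := Real.exp_neg_one_gt_d9
    obtain ⟨t0, t1⟩ := hθ
    have a4 : 1 / 2 ≤ num θ (Real.exp (-1)) := by
      unfold num
      have : (1 - θ) ^ 2 * Real.exp (-1) ≤ (1 - θ) ^ 2 * 0.3678794412 :=
        mul_le_mul_of_nonneg_left a2.le (sq_nonneg _)
      nlinarith [sq_nonneg (θ - 0.2)]
    have a5 : (cAW - c2) / 4 ≤ num θ (Real.exp (-1)) - c2 * den θ (Real.exp (-1)) := by
      by_cases hd : 1 / 4 ≤ den θ (Real.exp (-1))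
      · nlinarith
      · have : c2 * den θ (Real.exp (-1)) ≤ 1 / 4 := by nlinarith
        nlinarith
    have a6 : (1 - θ) ^ 2 ≤ 1 := by nlinarith
    have a7 : 0 ≤ (1 - θ) ^ 2 := sq_nonneg _
    have a8 : num θ u - c2 * den θ u = num θ (Real.exp (-1)) - c2 * den θ (Real.exp (-1)) -
        ((1 - θ) ^ 2 * (1 - c2)) * (u - Real.exp (-1)) := by unfold num den; ring
    have a9 : 0 ≤ (1 - θ) ^ 2 * (1 - c2) := mul_nonneg a7 (by linarith)
    have a10 : (1 - θ) ^ 2 * (1 - c2) ≤ 1 := by nlinarith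
    have a11 : num θ u = num θ (Real.exp (-1)) - (1 - θ) ^ 2 * (u - Real.exp (-1)) := by
      unfold num; ring
    constructor
    · nlinarith
    · nlinarith
  refine le_trans (ENNReal.ofReal_le_ofReal ?_) (lower_fmeas (awW N θ) (awB N) (awW_nonneg N hθ)
    (awW_sum N θ) (c2 * N) (by positivity) (av (fun _ => (0 : Fin N)) (fun _ => 0) 1) ?_)
  · have := pr_union (fun _ => (0 : Fin N)) (fun _ => 0) 1
    unfold pr at this
    rw [Fintype.card_fin] at this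
    have h3 : c2 * N * (1 - ((1 : ℕ) : ℝ) / N) = c2 * N - c2 := by field_simp; simp
    have h4 := mul_le_mul_of_nonneg_left this (show 0 ≤ c2 * N by positivity)
    have h5 : 0 < c2 - c := by rw [hc2]; linarith
    rw [div_le_iff₀ h5] at h2
    have h6 : (N : ℝ) = n + 1 := by rw [hN]; push_cast; ring
    nlinarith
  · intro π hπ
    rw [mem_av] at hπ
    have hπ0 : (0 : Fin N) ≠ π 0 := hπ 0 (by omega)
    have b1 : ∑ s ∈ range N, gs N θ s ≤ ∑ s ∈ range N, rsurv (awW N θ) (awB N) π s :=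
      Finset.sum_le_sum fun s hs => aw_lower N hθ π hπ0 s (Finset.mem_range.1 hs).le
    have b2 := aw_lower N hθ π hπ0 N le_rfl
    rw [gs_sum] at b1
    rw [gs_end] at b2
    have b3 : 0 ≤ θ * (1 - θ) := mul_nonneg hθ.1 (by linarith [hθ.2])
    have b4 : N * num θ u ≤ ∑ s ∈ range N, rsurv (awW N θ) (awB N) π s := by
      unfold num; linarith
    have b5 : 1 - rsurv (awW N θ) (awB N) π N ≤ den θ u := by unfold den; linarith
    have b6 := mul_le_mul_of_nonneg_left b5 (show 0 ≤ c2 * N by positivity)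
    have b7 := mul_le_mul_of_nonneg_left hq.1 hN0.le
    have b8 := _root_.mul_pos hN0 hq.2
    constructor
    · linarith
    · nlinarith

lemma aw_ev_upper (c : ℝ) (hc : cAW < c) :
    ∀ᶠ n : ℕ in atTop, awTime (n + 1) ≤ ENNReal.ofReal (c * ((n + 1 : ℕ) : ℝ)) := by
  obtain ⟨y, ⟨θ, hθ, rfl⟩, hy⟩ := exists_lt_of_csInf_lt
    (s := (fun θ => num θ (Real.exp (-1)) / den θ (Real.exp (-1))) '' Set.Ico (0 : ℝ) 1)
    ⟨_, 0, by simp, rfl⟩ hc
  have hd := den_pos hθ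
  have hy' : num θ (Real.exp (-1)) < c * den θ (Real.exp (-1)) := (div_lt_iff₀ hd).1 hy
  have hc0 : 0 ≤ c := by linarith [cAW_ge]
  have t0 : Tendsto (fun n : ℕ => 1 / (n : ℝ)) atTop (𝓝 0) := tendsto_one_div_atTop_nhds_zero_nat
  have t1 : Tendsto (fun n : ℕ => den θ ((1 - 1 / ((n + 1 : ℕ) : ℝ)) ^ (n + 1)) - 1 / (n : ℝ))
      atTop (𝓝 (den θ (Real.exp (-1)) - 0)) := by
    unfold den
    exact (tendsto_const_nhds.sub (tendsto_u.const_mul _)).sub t0
  have t2 : Tendsto (fun n : ℕ => num θ ((1 - 1 / ((n + 1 : ℕ) : ℝ)) ^ (n + 1)) + 3 * (1 / (n : ℝ))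
      - c * (den θ ((1 - 1 / ((n + 1 : ℕ) : ℝ)) ^ (n + 1)) - 1 / (n : ℝ)))
      atTop (𝓝 (num θ (Real.exp (-1)) + 3 * 0 - c * (den θ (Real.exp (-1)) - 0))) := by
    refine Tendsto.sub (Tendsto.add ?_ (t0.const_mul _)) (t1.const_mul _)
    unfold num
    exact tendsto_const_nhds.add ((tendsto_const_nhds.sub tendsto_u).const_mul _)
  have e1 := t1.eventually_const_lt (show 0 < den θ (Real.exp (-1)) - 0 by linarith)
  have e2 := t2.eventually_lt_const
    (show num θ (Real.exp (-1)) + 3 * 0 - c * (den θ (Real.exp (-1)) - 0) < 0 by linarith)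
  filter_upwards [e1, e2, eventually_ge_atTop 1] with n h1 h2 h3
  set N := n + 1 with hN
  set u := (1 - 1 / (N : ℝ)) ^ N with hu
  have hθ' : θ ∈ Set.Icc (0 : ℝ) 1 := ⟨hθ.1, hθ.2.le⟩
  refine le_trans (iInf₂_le θ hθ') ?_
  rw [awBlock_eq]
  have h6 : (N : ℝ) - 1 = n := by rw [hN]; push_cast; ring
  have hn : (1 : ℝ) ≤ n := by exact_mod_cast h3
  refine upper_fmeas _ _ (awW_nonneg N hθ') (awW_sum N θ) _ fun π => ?_
  have b1 : ∑ s ∈ range N, rsurv (awW N θ) (awB N) π s ≤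
      ∑ s ∈ range N, (gs N θ s + 1 / (N - 1)) :=
    Finset.sum_le_sum fun s hs => aw_upper N hθ' π (by omega) s (Finset.mem_range.1 hs).le
  have b2 := aw_upper N hθ' π (by omega) N le_rfl
  rw [Finset.sum_add_distrib, gs_sum, Finset.sum_const, Finset.card_range, nsmul_eq_mul, h6] at b1
  rw [gs_end, h6] at b2
  have b5 : den θ u - 1 / n ≤ 1 - rsurv (awW N θ) (awB N) π N := by unfold den; linarith
  have hN0 : (0 : ℝ) < N := by positivity
  have b3 : θ * (1 - θ) ≤ 1 := by nlinarith [hθ.1, hθ.2]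
  have b4 : (1 : ℝ) ≤ N * (1 / n) := by
    rw [mul_one_div, le_div_iff₀ (by linarith)]; linarith
  have b6 := mul_le_mul_of_nonneg_left b5 (show 0 ≤ c * N by positivity)
  have b7 := mul_le_mul_of_nonneg_left h2.le hN0.le
  have b8 : ∑ s ∈ range N, rsurv (awW N θ) (awB N) π s ≤ N * num θ u + 2 * (N * (1 / n)) := by
    unfold num; linarith
  constructor
  · linarith
  · nlinarith

theorem aw_tendsto : Tendsto (fun n : ℕ => awTime (n + 1) / ((n + 1 : ℕ) : ℝ≥0∞)) atTop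
    (𝓝 (ENNReal.ofReal cAW)) := by
  have key : ∀ (r : ℝ) (n : ℕ), 0 ≤ r → ENNReal.ofReal (r * ((n + 1 : ℕ) : ℝ)) =
      ENNReal.ofReal r * ((n + 1 : ℕ) : ℝ≥0∞) := by
    intro r n hr
    rw [ENNReal.ofReal_mul hr, ENNReal.ofReal_natCast]
  refine tendsto_order.2 ⟨fun a ha => ?_, fun a ha => ?_⟩
  · obtain ⟨r, r0, r1, r2⟩ := ENNReal.lt_iff_exists_real_btwn.1 ha
    have r3 : r < cAW := (ENNReal.ofReal_lt_ofReal_iff_of_nonneg r0).1 r2
    filter_upwards [aw_ev_lower r r0 r3] with n hn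
    refine r1.trans_le ?_
    rw [ENNReal.le_div_iff_mul_le (by simp) (by simp), ← key r n r0]
    exact hn
  · obtain ⟨r, r0, r1, r2⟩ := ENNReal.lt_iff_exists_real_btwn.1 ha
    have r3 : cAW < r := (ENNReal.ofReal_lt_ofReal_iff_of_nonneg (by linarith [cAW_ge])).1 r1
    filter_upwards [aw_ev_upper r r3] with n hn
    refine lt_of_le_of_lt ?_ r2
    refine ENNReal.div_le_of_le_mul ?_
    rw [← key r n r0]
    exact hn

end H447Z.Rv
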