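import Pool.Agent.H447Z.RvEval
import Pool.Agent.H447Z.RvLimit

set_option autoImplicit false

namespace H447Z.Rv

open MeasureTheory Finset Equiv Filter Topology

lemma sum_diag {β : Type} [Fintype β] [DecidableEq β] (f : β → β → ℝ) (a c : ℝ) (ha : 0 ≤ a)
    (h1 : ∀ s s', s ≠ s' → f s s' ≤ a) (h2 : ∀ s, f s s ≤ c) :
    ∑ s, ∑ s', f s s' ≤ (Fintype.card β : ℝ) ^ 2 * a + Fintype.card β * c := by
  calc _ ≤ ∑ s : β, ∑ s' : β, (a + if s = s' then c else 0) := by
        refine Finset.sum_le_sum fun s _ => Finset.sum_le_sum fun s' _ => ?_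
        split_ifs with e
        · subst e; linarith [h2 s]
        · linarith [h1 s s' e]
    _ = _ := by
        simp only [Finset.sum_add_distrib, Finset.sum_ite_eq, mem_univ, if_true, Finset.sum_const,
          Finset.card_univ, nsmul_eq_mul]
        ring

variable {h : ℕ} [Fact h.Prime]

instance : NeZero (6 * h) := ⟨by have := hpos (h := h); omega⟩

noncomputable def eqv (h : ℕ) [Fact h.Prime] : Option (Bool × ZMod h) ≃ Fin (2 * h + 1) :=
  Fintype.equivFinOfCardEq card_lb

noncomputable def nW (h : ℕ) (p : Fin 9 × ZMod h × Perm (Fin (2 * h + 1))) : ℝ :=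
  (W p.1 : ℝ) / (h * (2 * h + 1).factorial)

noncomputable def nB (h : ℕ) [Fact h.Prime] (p : Fin 9 × ZMod h × Perm (Fin (2 * h + 1)))
    (t : Fin (6 * h)) : Fin (2 * h + 1) :=
  p.2.2 (eqv h (base (ty p.1) p.2.1 t))

omit [Fact h.Prime] in
lemma nW_nonneg (p : Fin 9 × ZMod h × Perm (Fin (2 * h + 1))) : 0 ≤ nW h p := by
  unfold nW
  have : (0 : ℝ) ≤ W p.1 := by exact_mod_cast W_nonneg p.1
  positivity

lemma nW_sum : ∑ p, nW h p = 1 := by
  have hf : (0 : ℝ) < (2 * h + 1).factorial := by exact_mod_cast Nat.factorial_pos _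
  have hh : (0 : ℝ) < h := by exact_mod_cast hpos
  have hw : ∑ i, (W i : ℝ) = 1 := by exact_mod_cast W_sum
  simp only [Fintype.sum_prod_type, nW, Finset.sum_const, Finset.card_univ, Fintype.card_perm,
    Fintype.card_fin, ZMod.card, nsmul_eq_mul, Fintype.card_prod]
  rw [← hw]
  refine Finset.sum_congr rfl fun i _ => ?_
  push_cast
  field_simp

lemma new_rsurv (π : Perm (Fin (2 * h + 1))) (t : ℕ) (ht : t ≤ 6 * h) :
    rsurv (nW h) (nB h) π t = ∑ i, ∑ j, (W i : ℝ) * W j *
      ((∑ s : ZMod h, ∑ s' : ZMod h, pr (base (ty i) s) (base (ty j) s') t) / (h : ℝ) ^ 2) := by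
  have hf : (0 : ℝ) < (2 * h + 1).factorial := by exact_mod_cast Nat.factorial_pos _
  have hh : (0 : ℝ) < h := by exact_mod_cast hpos
  have key : ∀ (i j : Fin 9) (s s' : ZMod h) (ρ : Perm (Fin (2 * h + 1))),
      ∑ ρ' : Perm (Fin (2 * h + 1)), ri (∀ u : Fin (6 * h), (u : ℕ) < t →
        nB h (i, s, ρ) u ≠ π (nB h (j, s', ρ') u)) =
      (2 * h + 1).factorial * pr (base (ty i) s) (base (ty j) s') t := by
    intro i j s s' ρ
    have := sum_perm (nB h (i, s, ρ)) (fun u => eqv h (base (ty j) s' u)) π t ht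
    refine this.trans ?_
    congr 1
    rw [← pr_equiv ((eqv h).trans ρ) (eqv h) (base (ty i) s) (base (ty j) s') t]
    have e : ∀ u < t, ((Fin.ofNat (6 * h) u : Fin (6 * h)) : ℕ) = u := by
      intro u hu
      exact Nat.mod_eq_of_lt (by omega)
    refine pr_congr (fun u hu => ?_) (fun u hu => ?_)
    · simp only [nB, e u hu, Equiv.trans_apply]
    · simp only [e u hu]
  unfold rsurv
  simp only [Fintype.sum_prod_type, nW, ← Finset.mul_sum, key]
  refine Finset.sum_congr rfl fun i _ => ?_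
  simp only [Finset.sum_const, Finset.card_univ, Fintype.card_perm, Fintype.card_fin,
    nsmul_eq_mul]
  simp only [Finset.mul_sum, Finset.sum_div]
  rw [Finset.sum_comm]
  refine Finset.sum_congr rfl fun j _ => Finset.sum_congr rfl fun s _ =>
    Finset.sum_congr rfl fun s' _ => ?_
  field_simp

theorem new_upper (hb : Big h) :
    expTime (blockStrategy (6 * h) (fmeas (nW h) (nB h))) ≤
      ENNReal.ofReal (0.8288 * ((2 * h + 1 : ℕ) : ℝ)) := by
  have hh : (3000000 : ℝ) ≤ h := by exact_mod_cast hb.1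
  have hW : ∀ i, (0 : ℝ) ≤ W i := fun i => by exact_mod_cast W_nonneg i
  have hw : ∑ i, (W i : ℝ) = 1 := by exact_mod_cast W_sum
  have hww : ∀ c : ℝ, ∑ i, ∑ j, (W i : ℝ) * W j * c = c := by
    intro c
    simp only [← Finset.sum_mul, ← Finset.mul_sum, hw, mul_one, one_mul]
  have two : ∃ s s' : ZMod h, s ≠ s' := ⟨0, 1, zero_ne_one⟩
  refine upper_fmeas _ _ nW_nonneg nW_sum _ fun π => ?_
  have b1 : rsurv (nW h) (nB h) π (6 * h) ≤ 19337 / 1000000 + 1 / h := by
    rw [new_rsurv π _ le_rfl]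
    have hF : ∑ i, ∑ j, (W i : ℝ) * W j * ((ev (ty i) (ty j) 6).1 : ℝ) ≤ 19337 / 1000000 := by
      have := (Rat.cast_le (K := ℝ)).2 W_F
      push_cast at this
      exact this
    calc _ ≤ ∑ i, ∑ j, ((W i : ℝ) * W j * ((ev (ty i) (ty j) 6).1 : ℝ) + W i * W j * (1 / h)) := by
          refine Finset.sum_le_sum fun i _ => Finset.sum_le_sum fun j _ => ?_
          rw [← mul_add]
          refine mul_le_mul_of_nonneg_left ?_ (mul_nonneg (hW i) (hW j))
          obtain ⟨s0, s1, h01⟩ := two
          have := sum_diag (fun s s' : ZMod h => pr (base (ty i) s) (base (ty j) s') (6 * h))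
            ((ev (ty i) (ty j) 6).1 : ℝ) 1
            ((pr_nonneg _ _ _).trans (ev_sound hb _ _ s0 s1 h01 6 le_rfl).1)
            (fun s s' hs => (ev_sound hb _ _ s s' hs 6 le_rfl).1) (fun s => pr_le_one _ _ _)
          rw [ZMod.card] at this
          rw [div_le_iff₀ (by positivity)]
          refine this.trans (le_of_eq ?_)
          field_simp
      _ ≤ _ := by
          simp only [Finset.sum_add_distrib, hww]
          linarith
  have b2 : ∑ t ∈ range (6 * h), rsurv (nW h) (nB h) π t ≤ (2 * h + 1) * (812754 / 1000000) + 6 := by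
    rw [Finset.sum_congr rfl fun t ht => new_rsurv π t (Finset.mem_range.1 ht).le]
    have hT : ∑ i, ∑ j, (W i : ℝ) * W j * ((ev (ty i) (ty j) 6).2 : ℝ) ≤ 812754 / 1000000 := by
      have := (Rat.cast_le (K := ℝ)).2 W_T
      push_cast at this
      exact this
    calc _ = ∑ i, ∑ j, (W i : ℝ) * W j * ((∑ s : ZMod h, ∑ s' : ZMod h,
            ∑ t ∈ range (6 * h), pr (base (ty i) s) (base (ty j) s') t) / (h : ℝ) ^ 2) := by
          rw [Finset.sum_comm]
          refine Finset.sum_congr rfl fun i _ => ?_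
          rw [Finset.sum_comm]
          refine Finset.sum_congr rfl fun j _ => ?_
          rw [← Finset.mul_sum, ← Finset.sum_div, Finset.sum_comm]
          congr 2
          refine Finset.sum_congr rfl fun s _ => ?_
          rw [Finset.sum_comm]
      _ ≤ ∑ i, ∑ j, ((2 * h + 1) * ((W i : ℝ) * W j * ((ev (ty i) (ty j) 6).2 : ℝ)) +
            W i * W j * 6) := by
          refine Finset.sum_le_sum fun i _ => Finset.sum_le_sum fun j _ => ?_
          rw [mul_left_comm, ← mul_add]
          refine mul_le_mul_of_nonneg_left ?_ (mul_nonneg (hW i) (hW j))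
          obtain ⟨s0, s1, h01⟩ := two
          have := sum_diag (fun s s' : ZMod h =>
            ∑ t ∈ range (6 * h), pr (base (ty i) s) (base (ty j) s') t)
            ((2 * h + 1) * ((ev (ty i) (ty j) 6).2 : ℝ)) (6 * h)
            ((Finset.sum_nonneg fun t _ => pr_nonneg _ _ _).trans
              (ev_sound hb _ _ s0 s1 h01 6 le_rfl).2)
            (fun s s' hs => (ev_sound hb _ _ s s' hs 6 le_rfl).2)
            (fun s => (Finset.sum_le_sum fun t _ => pr_le_one _ _ t).trans (by simp))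
          rw [ZMod.card] at this
          rw [div_le_iff₀ (by positivity)]
          refine this.trans (le_of_eq ?_)
          ring
      _ ≤ _ := by
          simp only [Finset.sum_add_distrib, hww, ← Finset.mul_sum]
          have := mul_le_mul_of_nonneg_left hT (show (0 : ℝ) ≤ 2 * h + 1 by positivity)
          linarith
  have b3 : (1 : ℝ) / h ≤ 1 / 3000000 := one_div_le_one_div_of_le (by norm_num) hh
  push_cast
  constructor
  · linarith
  · have b4 : 1 - 19337 / 1000000 - 1 / 3000000 ≤ 1 - rsurv (nW h) (nB h) π (6 * h) := by linarith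
    have := mul_le_mul_of_nonneg_left b4 (show (0 : ℝ) ≤ 0.8288 * (2 * h + 1) by positivity)
    nlinarith

omit [Fact h.Prime] in
lemma big_ev : ∀ᶠ h : ℕ in atTop, Big h := by
  have t := tendsto_u.comp (tendsto_id.const_mul_atTop' (show 0 < 2 by norm_num))
  have e1 := t.eventually_const_lt (lt_trans (show (0.36787 : ℝ) < 0.36787944116 by norm_num)
    Real.exp_neg_one_gt_d9)
  have e2 := t.eventually_lt_const (lt_trans Real.exp_neg_one_lt_d9
    (show (0.3678794412 : ℝ) < 0.36788 by norm_num))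
  filter_upwards [e1, e2, eventually_ge_atTop 3000000] with h h1 h2 h3
  simp only [Function.comp, id] at h1 h2
  push_cast at h1 h2
  have hh : (3000000 : ℝ) ≤ h := by exact_mod_cast h3
  set a : ℝ := 1 - 1 / (2 * (h : ℝ) + 1) with ha
  have a1 : 1 / (2 * (h : ℝ) + 1) ≤ 1 / 6000000 := one_div_le_one_div_of_le (by norm_num) (by linarith)
  have a2 : 0 < 1 / (2 * (h : ℝ) + 1) := by positivity
  have a3 : a ^ (2 * h + 1) = (a ^ h) ^ 2 * a := by ring
  have a4 : 0 ≤ a ^ h := pow_nonneg (by linarith) _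
  rw [a3] at h1 h2
  refine ⟨h3, ?_, ?_⟩
  · by_contra hc
    push Not at hc
    have : (a ^ h) ^ 2 ≤ 0.60652 ^ 2 := pow_le_pow_left₀ a4 hc.le 2
    nlinarith [sq_nonneg (a ^ h)]
  · by_contra hc
    push Not at hc
    have : 0.60654 ^ 2 ≤ (a ^ h) ^ 2 := pow_le_pow_left₀ (by norm_num) hc.le 2
    nlinarith

omit [Fact h.Prime] in
theorem new_freq : ∃ᶠ n : ℕ in atTop, ∃ D : Measure (ℕ → Fin (n + 1)), IsProbabilityMeasure D ∧
    expTime D ≤ ENNReal.ofReal (0.8288 * ((n + 1 : ℕ) : ℝ)) := by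
  obtain ⟨H, hH⟩ := eventually_atTop.1 big_ev
  refine frequently_atTop.2 fun a => ?_
  obtain ⟨p, hp1, hp2⟩ := Nat.exists_infinite_primes (max a H)
  have : Fact p.Prime := ⟨hp2⟩
  have := fmeas_prob (nW p) (nB p) nW_nonneg nW_sum
  exact ⟨2 * p, by omega, blockStrategy (6 * p) (fmeas (nW p) (nB p)), inferInstance,
    new_upper (hH p (by omega))⟩

end H447Z.Rv
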