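import Pool.Agent.H447Z.RvSlot

set_option autoImplicit false

namespace H447Z.Rv

open Finset Equiv

variable {α : Type} [Fintype α] [DecidableEq α]

lemma pr_congr {x y x' y' : ℕ → α} {t : ℕ} (hx : ∀ u < t, x u = x' u) (hy : ∀ u < t, y u = y' u) :
    pr x y t = pr x' y' t := by
  unfold pr
  congr 3
  ext π
  simp only [mem_av]
  exact forall₂_congr fun u hu => by rw [hx u hu, hy u hu]

lemma pr_equiv {β : Type} [Fintype β] [DecidableEq β] (e1 e2 : α ≃ β) (x y : ℕ → α) (t : ℕ) :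
    pr (fun u => e1 (x u)) (fun u => e2 (y u)) t = pr x y t := by
  unfold pr
  rw [Fintype.card_congr e1]
  congr 2
  refine Finset.card_bij (fun π _ => (e2.trans π).trans e1.symm) ?_ ?_ ?_
  · intro π hπ
    rw [mem_av] at hπ ⊢
    intro u hu h
    apply hπ u hu
    rw [h]; simp
  · intro a _ b _ h
    ext z
    have := congrArg (fun f : Perm α => e1 (f (e2.symm z))) h
    simpa using this
  · intro π hπ
    refine ⟨(e2.symm.trans π).trans e1, ?_, by ext; simp⟩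
    rw [mem_av] at hπ ⊢
    intro u hu h
    apply hπ u hu
    simpa using h

/-- largeness conditions on the slot length -/
def Big (h : ℕ) : Prop :=
  3000000 ≤ h ∧ 0.60652 ≤ (1 - 1 / (2 * (h : ℝ) + 1)) ^ h ∧ (1 - 1 / (2 * (h : ℝ) + 1)) ^ h ≤ 0.60654

lemma out_ss (x y : ℕ → α) (t0 h : ℕ) (F : ℝ) (hF : pr x y t0 ≤ F) :
    pr x y (t0 + h) ≤ F ∧ ∑ s ∈ range h, pr x y (t0 + s) ≤ (2 * h + 1) * (F / 2) := by
  have h0 : 0 ≤ F := (pr_nonneg x y t0).trans hF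
  refine ⟨(pr_mono x y (by omega)).trans hF, ?_⟩
  calc _ ≤ ∑ _s ∈ range h, F := Finset.sum_le_sum fun s _ => (pr_mono x y (by omega)).trans hF
    _ = h * F := by simp
    _ ≤ _ := by nlinarith

omit [DecidableEq α] in
lemma err_ok (t0 h : ℕ) (hc : Fintype.card α = 2 * h + 1) (ht : t0 + h ≤ 6 * h) :
    ((t0 + h : ℕ) : ℝ) ≤ (3 / (2 * h + 1)) * (Fintype.card α * (Fintype.card α - 1)) := by
  rw [hc]
  have : ((t0 + h : ℕ) : ℝ) ≤ 6 * h := by exact_mod_cast ht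
  refine this.trans (le_of_eq ?_)
  push_cast
  field_simp
  ring

lemma err_small {h : ℕ} (hb : Big h) : (3 : ℝ) / (2 * h + 1) ≤ 1 / 10 ^ 6 := by
  have : (3000000 : ℝ) ≤ h := by exact_mod_cast hb.1
  rw [div_le_div_iff₀ (by positivity) (by positivity)]; linarith

lemma out_tt (x y : ℕ → α) (t0 h : ℕ) (hb : Big h) (hc : Fintype.card α = 2 * h + 1)
    (ht : t0 + h ≤ 6 * h)
    (hnew : ∀ s < h, ∀ u < t0 + s, ¬ (x u = x (t0 + s) ∧ y u = y (t0 + s)))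
    (F : ℝ) (hF : pr x y t0 ≤ F) :
    pr x y (t0 + h) ≤ 0.60654 * F + 1 / 10 ^ 6 ∧
      ∑ s ∈ range h, pr x y (t0 + s) ≤ (2 * h + 1) * ((1 - 0.60652) * F + 1 / 10 ^ 6) := by
  have h0 : 0 ≤ F := (pr_nonneg x y t0).trans hF
  have hh : (3000000 : ℝ) ≤ h := by exact_mod_cast hb.1
  have key := slot_tt x y t0 h hnew (by have := hb.1; omega) _ (err_ok t0 h hc ht)
  have he := err_small hb
  have hcr : (Fintype.card α : ℝ) = 2 * h + 1 := by rw [hc]; push_cast; ring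
  rw [hcr] at key
  set e : ℝ := 3 / (2 * h + 1) with hedef
  have he0 : 0 ≤ e := by positivity
  have h5 : 0 ≤ 1 - 1 / (2 * (h : ℝ) + 1) := by
    rw [sub_nonneg, div_le_one (by linarith)]; linarith
  have k2 : ∀ s ≤ h, pr x y (t0 + s) ≤ F * (1 - 1 / (2 * (h : ℝ) + 1)) ^ s + 1 / 10 ^ 6 := by
    intro s hs
    have a1 := key s hs
    have a2 : (s : ℝ) ≤ h := by exact_mod_cast hs
    have a3 : (s : ℝ) * (e / (2 * h + 1)) ≤ e := by
      rw [← mul_div_assoc, div_le_iff₀ (by linarith)]; nlinarith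
    have a4 := mul_le_mul_of_nonneg_right hF (pow_nonneg h5 s)
    linarith
  constructor
  · have := k2 h le_rfl
    nlinarith [hb.2.2]
  · have g := mul_neg_geom_sum (1 - 1 / (2 * (h : ℝ) + 1)) h
    have g2 : ∑ s ∈ range h, (1 - 1 / (2 * (h : ℝ) + 1)) ^ s =
        (2 * h + 1) * (1 - (1 - 1 / (2 * (h : ℝ) + 1)) ^ h) := by
      rw [← g]; field_simp; ring
    calc _ ≤ ∑ s ∈ range h, (F * (1 - 1 / (2 * (h : ℝ) + 1)) ^ s + 1 / 10 ^ 6) :=
          Finset.sum_le_sum fun s hs => k2 s (Finset.mem_range.1 hs).le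
      _ = F * ((2 * h + 1) * (1 - (1 - 1 / (2 * (h : ℝ) + 1)) ^ h)) + h * (1 / 10 ^ 6) := by
          rw [Finset.sum_add_distrib, ← Finset.mul_sum, g2]; simp
      _ ≤ _ := by
          have := mul_le_mul_of_nonneg_left hb.2.1 (show 0 ≤ F * (2 * h + 1) by positivity)
          nlinarith

lemma sum_lin (M : ℝ) (h : ℕ) :
    ∑ s ∈ range h, (1 - (s : ℝ) / M) = h - h * (h - 1) / (2 * M) := by
  induction h with
  | zero => simp
  | succ h ih => rw [Finset.sum_range_succ, ih]; push_cast; ring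

lemma out_st (x y : ℕ → α) (t0 h : ℕ) (hb : Big h) (hc : Fintype.card α = 2 * h + 1)
    (ht : t0 + h ≤ 6 * h) (a : α) (hx : ∀ s < h, x (t0 + s) = a)
    (hnew : ∀ s < h, ∀ u < t0 + s, ¬ (x u = x (t0 + s) ∧ y u = y (t0 + s)))
    (D0 : Finset α) (hD0 : ∀ z ∈ D0, ∃ u < t0, x u = a ∧ y u = z) (M : ℝ)
    (hM : M = 2 * h + 1 - D0.card) (hM1 : (h : ℝ) + 1 ≤ M)
    (F : ℝ) (hF : pr x y t0 ≤ F) :
    pr x y (t0 + h) ≤ (1 - h / M) * F + 1 / 10 ^ 6 ∧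
      ∑ s ∈ range h, pr x y (t0 + s) ≤ (h - h * (h - 1) / (2 * M)) * F + h * (1 / 10 ^ 6) := by
  have h0 : 0 ≤ F := (pr_nonneg x y t0).trans hF
  have hh : (3000000 : ℝ) ≤ h := by exact_mod_cast hb.1
  have key := slot_st x y t0 h a hx hnew D0 hD0 (by have := hb.1; omega) _ (err_ok t0 h hc ht)
  have he := err_small hb
  have hcr : (Fintype.card α : ℝ) = 2 * h + 1 := by rw [hc]; push_cast; ring
  rw [hcr, ← hM] at key
  set e : ℝ := 3 / (2 * h + 1) with hedef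
  have he0 : 0 ≤ e := by positivity
  have k2 : ∀ s ≤ h, pr x y (t0 + s) ≤ (1 - s / M) * F + 1 / 10 ^ 6 := by
    intro s hs
    have a1 := key s hs
    have a2 : (s : ℝ) ≤ h := by exact_mod_cast hs
    have a3 : (1 - s / M) * F + e = (F * (M - s) + e * M) / M := by
      have : M ≠ 0 := by linarith
      field_simp
    have a4 := mul_le_mul_of_nonneg_right hF (show 0 ≤ M - s by linarith)
    have a5 : pr x y (t0 + s) ≤ (1 - s / M) * F + e := by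
      rw [a3, le_div_iff₀ (by linarith)]; nlinarith
    linarith
  refine ⟨k2 h le_rfl, ?_⟩
  calc _ ≤ ∑ s ∈ range h, ((1 - s / M) * F + 1 / 10 ^ 6) :=
        Finset.sum_le_sum fun s hs => k2 s (Finset.mem_range.1 hs).le
    _ = _ := by rw [Finset.sum_add_distrib, ← Finset.sum_mul, sum_lin]; simp

lemma out_st0 (x y : ℕ → α) (t0 h : ℕ) (hb : Big h) (hc : Fintype.card α = 2 * h + 1)
    (ht : t0 + h ≤ 6 * h) (a : α) (hx : ∀ s < h, x (t0 + s) = a)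
    (hnew : ∀ s < h, ∀ u < t0 + s, ¬ (x u = x (t0 + s) ∧ y u = y (t0 + s)))
    (F : ℝ) (hF : pr x y t0 ≤ F) :
    pr x y (t0 + h) ≤ (1 / 2 + 1 / 10 ^ 6) * F + 1 / 10 ^ 6 ∧
      ∑ s ∈ range h, pr x y (t0 + s) ≤ (2 * h + 1) * ((3 / 8 + 1 / 10 ^ 6) * F + 1 / 10 ^ 6) := by
  have h0 : 0 ≤ F := (pr_nonneg x y t0).trans hF
  have hh : (3000000 : ℝ) ≤ h := by exact_mod_cast hb.1
  obtain ⟨k1, k2⟩ := out_st x y t0 h hb hc ht a hx hnew ∅ (by simp) (2 * h + 1) (by simp)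
    (by linarith) F hF
  have a1 : 1 - (h : ℝ) / (2 * h + 1) ≤ 1 / 2 + 1 / 10 ^ 6 := by
    have : 1 / 2 - 1 / 10 ^ 6 ≤ (h : ℝ) / (2 * h + 1) := by
      rw [le_div_iff₀ (by linarith)]; linarith
    linarith
  have a2 : (h : ℝ) - h * (h - 1) / (2 * (2 * h + 1)) ≤ (2 * h + 1) * (3 / 8 + 1 / 10 ^ 6) := by
    have : h - (2 * h + 1) * (3 / 8 + 1 / 10 ^ 6) ≤ (h : ℝ) * (h - 1) / (2 * (2 * h + 1)) := by
      rw [le_div_iff₀ (by linarith)]; nlinarith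
    linarith
  constructor
  · nlinarith [mul_le_mul_of_nonneg_right a1 h0]
  · nlinarith [mul_le_mul_of_nonneg_right a2 h0]

lemma out_st1 (x y : ℕ → α) (t0 h : ℕ) (hb : Big h) (hc : Fintype.card α = 2 * h + 1)
    (ht : t0 + h ≤ 6 * h) (a : α) (hx : ∀ s < h, x (t0 + s) = a)
    (hnew : ∀ s < h, ∀ u < t0 + s, ¬ (x u = x (t0 + s) ∧ y u = y (t0 + s)))
    (D0 : Finset α) (hD0 : ∀ z ∈ D0, ∃ u < t0, x u = a ∧ y u = z) (hD : D0.card = h)
    (F : ℝ) (hF : pr x y t0 ≤ F) :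
    pr x y (t0 + h) ≤ (1 / 10 ^ 6) * F + 1 / 10 ^ 6 ∧
      ∑ s ∈ range h, pr x y (t0 + s) ≤ (2 * h + 1) * ((1 / 4 + 1 / 10 ^ 6) * F + 1 / 10 ^ 6) := by
  have h0 : 0 ≤ F := (pr_nonneg x y t0).trans hF
  have hh : (3000000 : ℝ) ≤ h := by exact_mod_cast hb.1
  obtain ⟨k1, k2⟩ := out_st x y t0 h hb hc ht a hx hnew D0 hD0 (h + 1) (by rw [hD]; ring)
    le_rfl F hF
  have a1 : 1 - (h : ℝ) / (h + 1) ≤ 1 / 10 ^ 6 := by
    have : 1 - 1 / 10 ^ 6 ≤ (h : ℝ) / (h + 1) := by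
      rw [le_div_iff₀ (by linarith)]; linarith
    linarith
  have a2 : (h : ℝ) - h * (h - 1) / (2 * (h + 1)) ≤ (2 * h + 1) * (1 / 4 + 1 / 10 ^ 6) := by
    have : h - (2 * h + 1) * (1 / 4 + 1 / 10 ^ 6) ≤ (h : ℝ) * (h - 1) / (2 * (h + 1)) := by
      rw [le_div_iff₀ (by linarith)]; nlinarith
    linarith
  constructor
  · nlinarith [mul_le_mul_of_nonneg_right a1 h0]
  · nlinarith [mul_le_mul_of_nonneg_right a2 h0]

end H447Z.Rv
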