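import Mathlib

set_option autoImplicit false

namespace H447Z.Rv

open Finset Equiv

variable {α : Type} [Fintype α] [DecidableEq α]

/-- permutations with no meeting before time `t` -/
def av (x y : ℕ → α) (t : ℕ) : Finset (Perm α) :=
  univ.filter fun π => ∀ u < t, x u ≠ π (y u)

lemma mem_av {x y : ℕ → α} {t : ℕ} {π : Perm α} :
    π ∈ av x y t ↔ ∀ u < t, x u ≠ π (y u) := by simp [av]

lemma card_av_symm (x y : ℕ → α) (t : ℕ) : (av x y t).card = (av y x t).card := by
  refine Finset.card_bij (fun π _ => π⁻¹) ?_ ?_ ?_
  · intro π hπ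
    rw [mem_av] at hπ ⊢
    intro u hu h
    apply hπ u hu
    rw [h]; simp
  · intro a _ b _ h; simpa using h
  · intro π hπ
    refine ⟨π⁻¹, ?_, by simp⟩
    rw [mem_av] at hπ ⊢
    intro u hu h
    apply hπ u hu
    rw [h]; simp

lemma one_point (a c : α) :
    (univ.filter fun π : Perm α => π a = c).card * Fintype.card α ≤ (Fintype.card α).factorial := by
  rw [← Fintype.card_perm, ← Finset.card_univ (α := α), ← Finset.card_product,
    ← Finset.card_univ (α := Perm α)]
  refine Finset.card_le_card_of_injOn (fun p => swap c p.2 * p.1) (by intro _ _; simp) ?_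
  rintro ⟨π, u⟩ h1 ⟨π', u'⟩ h2 h
  simp only [coe_product, coe_filter, mem_univ, true_and, Set.mem_prod, Set.mem_ofPred_eq] at h1 h2
  have h' : swap c u * π = swap c u' * π' := h
  have hu : u = u' := by
    have := congrArg (fun f : Perm α => f a) h'
    simpa [h1.1, h2.1] using this
  subst hu
  have : π = π' := mul_left_cancel h'
  simp [this]

lemma two_point (a b c d : α) (hab : a ≠ b) :
    (univ.filter fun π : Perm α => π a = c ∧ π b = d).card *
      (Fintype.card α * Fintype.card α - Fintype.card α) ≤ (Fintype.card α).factorial := by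
  by_cases hcd : c = d
  · have : (univ.filter fun π : Perm α => π a = c ∧ π b = d) = ∅ := by
      rw [Finset.filter_eq_empty_iff]
      rintro π - ⟨h1, h2⟩
      exact hab (π.injective (by rw [h1, h2, hcd]))
    simp [this]
  rw [← Fintype.card_perm, ← Finset.card_univ (α := α), ← Finset.offDiag_card,
    ← Finset.card_product, ← Finset.card_univ (α := Perm α)]
  have key : ∀ u v : α, u ≠ v → (swap (swap c u d) v * swap c u) c = u ∧
      (swap (swap c u d) v * swap c u) d = v := by
    intro u v huv
    refine ⟨?_, by simp⟩
    have h1 : u ≠ swap c u d := by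
      intro h
      have : swap c u c = swap c u d := by rw [swap_apply_left]; exact h
      exact hcd ((swap c u).injective this)
    simp only [Perm.coe_mul, Function.comp_apply, swap_apply_left]
    exact swap_apply_of_ne_of_ne h1 huv
  refine Finset.card_le_card_of_injOn
    (fun p => (swap (swap c p.2.1 d) p.2.2 * swap c p.2.1) * p.1) (by intro _ _; simp) ?_
  rintro ⟨π, u, v⟩ h1 ⟨π', u', v'⟩ h2 h
  simp only [coe_product, coe_filter, mem_univ, true_and, Set.mem_prod, Set.mem_ofPred_eq,
    mem_coe, mem_offDiag] at h1 h2
  have h' : (swap (swap c u d) v * swap c u) * π = (swap (swap c u' d) v' * swap c u') * π' := h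
  have ha := congrArg (fun f : Perm α => f a) h'
  have hb := congrArg (fun f : Perm α => f b) h'
  simp only [Perm.mul_apply (swap _ _ * swap _ _), h1.1.1, h1.1.2, h2.1.1, h2.1.2] at ha hb
  rw [(key u v h1.2).1, (key u' v' h2.2).1] at ha
  rw [(key u v h1.2).2, (key u' v' h2.2).2] at hb
  subst ha; subst hb
  have : π = π' := mul_left_cancel h'
  simp [this]

lemma card_av_split (x y : ℕ → α) (t : ℕ) :
    (av x y t).card = (av x y (t + 1)).card +
      ((av x y t).filter fun π => π (y t) = x t).card := by
  rw [← Finset.card_filter_add_card_filter_not (s := av x y t) (fun π => π (y t) = x t), add_comm]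
  congr 2
  ext π
  simp only [mem_filter, mem_av]
  constructor
  · rintro ⟨h1, h2⟩ u hu
    rcases Nat.lt_succ_iff_lt_or_eq.1 hu with h | h
    · exact h1 u h
    · subst h; exact fun h => h2 h.symm
  · intro h
    exact ⟨fun u hu => h u (by omega), fun h' => h t (by omega) h'.symm⟩

lemma switch_lower (x y : ℕ → α) (t : ℕ) (hx : ∀ u < t, x u ≠ x t) (hy : ∀ u < t, y u ≠ y t) :
    (av x y t).card * (Fintype.card α - 1) ≤ (av x y (t + 1)).card * Fintype.card α := by
  have h1 : ((av x y t).filter fun π => π (y t) = x t).card * (Fintype.card α - 1) ≤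
      (av x y (t + 1)).card := by
    have hc : Fintype.card α - 1 = (univ.erase (y t)).card := by simp
    rw [hc, ← Finset.card_product]
    refine Finset.card_le_card_of_injOn (fun p => p.1 * swap (y t) p.2) ?_ ?_
    · rintro ⟨π, z⟩ hp
      simp only [coe_product, coe_filter, Set.mem_prod, Set.mem_ofPred_eq, mem_coe, mem_erase,
        mem_univ, and_true, mem_av] at hp
      obtain ⟨⟨h1, h2⟩, h3⟩ := hp
      simp only [mem_coe, mem_av, Perm.coe_mul, Function.comp_apply]
      intro u hu
      rcases Nat.lt_succ_iff_lt_or_eq.1 hu with h | h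
      · by_cases hz : y u = z
        · rw [hz, swap_apply_right, h2]; exact hx u h
        · rw [swap_apply_of_ne_of_ne (hy u h) hz]; exact h1 u h
      · subst h
        rw [swap_apply_left, ← h2]
        exact fun h => h3 (π.injective h).symm
    · rintro ⟨π, z⟩ h1 ⟨π', z'⟩ h2 h
      simp only [coe_product, coe_filter, Set.mem_prod, Set.mem_ofPred_eq, mem_coe, mem_erase,
        mem_univ, and_true, mem_av] at h1 h2
      have h' : π * swap (y t) z = π' * swap (y t) z' := h
      have hz : z = z' := by
        have e1 : (π * swap (y t) z) z = x t := by simp [h1.1.2]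
        have e2 : (π' * swap (y t) z') z' = x t := by simp [h2.1.2]
        rw [← h'] at e2
        exact (π * swap (y t) z).injective (e1.trans e2.symm)
      subst hz
      have : π = π' := mul_right_cancel h'
      simp [this]
  have h2 := card_av_split x y t
  have h3 : 1 ≤ Fintype.card α := Fintype.card_pos_iff.2 ⟨x t⟩
  obtain ⟨m, hm⟩ : ∃ m, Fintype.card α = m + 1 := ⟨Fintype.card α - 1, by omega⟩
  rw [hm] at h1 ⊢
  simp only [Nat.add_sub_cancel] at h1 ⊢
  rw [h2]; nlinarith

lemma switch_upper (x y : ℕ → α) (t : ℕ) (hnew : ∀ u < t, ¬ (x u = x t ∧ y u = y t))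
    (D : Finset α) (hD : ∀ z ∈ D, ∃ u < t, x u = x t ∧ y u = z) :
    ∃ (b : ℕ), b * (Fintype.card α * Fintype.card α - Fintype.card α) ≤
        t * (Fintype.card α).factorial ∧ D.card + 1 ≤ Fintype.card α ∧
      (av x y (t + 1)).card * (Fintype.card α - D.card) ≤
        (av x y t).card * (Fintype.card α - D.card - 1) + b := by
  set Bad : Finset (Perm α) := (range t).biUnion fun u =>
    univ.filter fun π : Perm α => (π (y t) = x u ∧ π (y u) = x t) ∧ y t ≠ y u with hBad
  have hyD : y t ∉ D := by
    intro h
    obtain ⟨u, hu, h1, h2⟩ := hD _ h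
    exact hnew u hu ⟨h1, h2⟩
  have hDc : D.card + 1 ≤ Fintype.card α := by
    rw [← Finset.card_insert_of_notMem hyD]; exact Finset.card_le_univ _
  refine ⟨Bad.card, ?_, hDc, ?_⟩
  · calc Bad.card * (Fintype.card α * Fintype.card α - Fintype.card α)
        ≤ (∑ u ∈ range t, (univ.filter fun π : Perm α =>
            (π (y t) = x u ∧ π (y u) = x t) ∧ y t ≠ y u).card) *
            (Fintype.card α * Fintype.card α - Fintype.card α) :=
          Nat.mul_le_mul_right _ Finset.card_biUnion_le
      _ ≤ ∑ _u ∈ range t, (Fintype.card α).factorial := by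
          rw [Finset.sum_mul]
          refine Finset.sum_le_sum fun u _ => ?_
          by_cases h : y t = y u
          · simp [h]
          · simpa [h] using two_point (y t) (y u) (x u) (x t) h
      _ = t * (Fintype.card α).factorial := by simp
  · have h1 : (av x y (t + 1) \ Bad).card ≤
        ((av x y t).filter fun π => π (y t) = x t).card * (Fintype.card α - D.card - 1) := by
      have hc : Fintype.card α - D.card - 1 = ((univ \ D).erase (y t)).card := by
        rw [Finset.card_erase_of_mem (by simp [hyD]), Finset.card_univ_sdiff]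
      rw [hc, ← Finset.card_product]
      refine Finset.card_le_card_of_injOn
        (fun π => (π * swap (y t) (π⁻¹ (x t)), π⁻¹ (x t))) ?_ ?_
      · intro π hπ
        simp only [coe_sdiff, Set.mem_sdiff, mem_coe, mem_av, hBad, mem_biUnion, mem_range,
          mem_filter, mem_univ, true_and, not_exists, not_and] at hπ
        obtain ⟨h1, h2⟩ := hπ
        have h3 : π⁻¹ (x t) ≠ y t := by
          intro h; apply h1 t (by omega); rw [← h]; simp
        simp only [coe_product, coe_filter, Set.mem_prod, Set.mem_ofPred_eq, mem_coe, mem_erase,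
          mem_sdiff, mem_univ, true_and, mem_av, Perm.coe_mul, Function.comp_apply,
          swap_apply_left]
        refine ⟨⟨?_, by simp⟩, h3, ?_⟩
        · intro u hu
          by_cases e1 : y u = y t
          · rw [e1, swap_apply_left]
            simp only [Perm.coe_inv, apply_symm_apply]
            exact fun h => hnew u hu ⟨h, e1⟩
          · by_cases e2 : y u = π⁻¹ (x t)
            · rw [e2, swap_apply_right]
              intro h
              exact h2 u hu ⟨h.symm, by rw [e2]; simp⟩ (fun h => e1 h.symm)
            · rw [swap_apply_of_ne_of_ne e1 e2]; exact h1 u (by omega)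
        · intro h
          obtain ⟨u, hu, e1, e2⟩ := hD _ h
          apply h1 u (by omega)
          rw [e1, e2]; simp
      · intro π _ π' _ h
        simp only [Prod.mk.injEq] at h
        obtain ⟨e1, e2⟩ := h
        rw [e2] at e1
        exact mul_right_cancel e1
    have h2 := card_av_split x y t
    have h3 : (av x y (t + 1)).card ≤ (av x y (t + 1) \ Bad).card + Bad.card :=
      Finset.card_le_card_sdiff_add_card
    obtain ⟨m, hm⟩ : ∃ m, Fintype.card α - D.card = m + 1 := ⟨Fintype.card α - D.card - 1, by omega⟩
    rw [hm] at h1 ⊢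
    simp only [Nat.add_sub_cancel] at h1 ⊢
    rw [h2]; nlinarith

end H447Z.Rv
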